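import Pool.Agent.Y149.CM.Core

set_option autoImplicit false

/-!
The limits of the sizes in terms of the correlations `y a j c`.
-/

open Finset Filter Topology Complex Polynomial

namespace Pool.Agent.Y149.CM

open Pool.Agent.Helper919 (XX XX_apply XX_mod XX_mul XX_one XX_abs_le)
open Pool.Agent.H341R2 (E K2 lam summable_E E_add E_const_mul E_sum E_le E_nonneg lam_tendsto
  lam_bounded summable_prime_rpow w_nonneg)

/-- odd powers in terms of the Chebyshev polynomials -/
theorem pow_odd (s : ℕ) (x : ℝ) : x ^ (2 * s + 1) =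
    ∑ i ∈ range (s + 1), ((2 * s + 1).choose i : ℝ) * cc ((2 * s + 1 - 2 * i : ℕ) : ℤ) x := by
  have h := two_pow (2 * s + 1) x
  have e : 2 * s + 1 + 1 = (s + 1) + (s + 1) := by ring
  rw [e, Finset.sum_range_add,
    ← Finset.sum_range_reflect (fun i => ((2 * s + 1).choose (s + 1 + i) : ℝ) *
      cc (((2 * s + 1 : ℕ) : ℤ) - 2 * ((s + 1 + i : ℕ) : ℤ)) x) (s + 1), ← Finset.sum_add_distrib] at h
  have h2 : ∀ i ∈ range (s + 1), ((2 * s + 1).choose i : ℝ) *
      cc (((2 * s + 1 : ℕ) : ℤ) - 2 * (i : ℤ)) x + ((2 * s + 1).choose (s + 1 + (s + 1 - 1 - i)) : ℝ) *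
      cc (((2 * s + 1 : ℕ) : ℤ) - 2 * ((s + 1 + (s + 1 - 1 - i) : ℕ) : ℤ)) x =
      2 * (((2 * s + 1).choose i : ℝ) * cc ((2 * s + 1 - 2 * i : ℕ) : ℤ) x) := by
    intro i hi
    have hi' := Finset.mem_range.1 hi
    have e1 : s + 1 + (s + 1 - 1 - i) = 2 * s + 1 - i := by omega
    rw [e1, Nat.choose_symm (by omega)]
    have e2 : ((2 * s + 1 : ℕ) : ℤ) - 2 * ((2 * s + 1 - i : ℕ) : ℤ) =
        -((2 * s + 1 - 2 * i : ℕ) : ℤ) := by omega
    have e3 : ((2 * s + 1 : ℕ) : ℤ) - 2 * (i : ℤ) = ((2 * s + 1 - 2 * i : ℕ) : ℤ) := by omega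
    rw [e2, e3, cc_neg]
    ring
  rw [Finset.sum_congr rfl h2, ← Finset.mul_sum] at h
  linarith

variable {F : Filter ℝ} (hF : F ≤ 𝓝[>] 0)

include hF

theorem Lim_list {ι : Type*} (L : List ι) (f : ι → Nat.Primes → ℝ) (x : ι → ℝ) (B : ι → ℝ)
    (hb : ∀ A ∈ L, ∀ p, |f A p| ≤ B A) (h : ∀ A ∈ L, Lim F (f A) (x A)) :
    Lim F (fun p => (L.map fun A => f A p).sum) (L.map x).sum := by
  induction L with
  | nil =>
    simp only [List.map_nil, List.sum_nil]
    have := Lim_const_mul (F := F) 0 (Lim_one hF)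
    simpa using this
  | cons a L ih =>
    simp only [List.map_cons, List.sum_cons]
    refine Lim_add hF (B := B a) (B' := (L.map B).sum) (hb a (by simp))
      (fun p => list_sum_le L _ _ fun A hA => hb A (by simp [hA]) p) (h a (by simp))
      (ih (fun A hA => hb A (by simp [hA])) fun A hA => h A (by simp [hA]))

/-- the even moments -/
theorem Lim_pow_even {c : ℤ} (hc : 0 < c) {j : ℕ} (hj : Even j) :
    Lim F (fun p => XX c p * bp p ^ j) (if IsSquare c then ((j - 1).choose (j / 2) : ℝ) else 0) := by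
  obtain ⟨t, rfl⟩ := hj
  rcases Nat.eq_zero_or_pos t with rfl | ht
  · have h := Lim_XX hF hc.ne'
    simpa using h
  · have h1 : ∀ p : Nat.Primes, XX c p * bp p ^ (t + t) = ∑ i ∈ range (t + t + 1),
        (1 / 2 * ((t + t).choose i : ℝ)) *
          (XX c p * sp p * cc (((t + t : ℕ) : ℤ) - 2 * i) (bp p)) := by
      intro p
      rw [XX_sp_pow c p (by omega)]
      have h2 := two_pow (t + t) (bp p)
      have h3 : bp p ^ (t + t) = 1 / 2 * (2 * bp p ^ (t + t)) := by ring
      rw [h3, h2, Finset.mul_sum, Finset.mul_sum]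
      refine Finset.sum_congr rfl fun i _ => ?_
      ring
    have e : (fun p : Nat.Primes => XX c p * bp p ^ (t + t)) = fun p : Nat.Primes => ∑ i ∈ range (t + t + 1),
        (1 / 2 * ((t + t).choose i : ℝ)) *
          (XX c p * sp p * cc (((t + t : ℕ) : ℤ) - 2 * i) (bp p)) := funext h1
    rw [e]
    have hb : ∀ (j : ℤ) (p : Nat.Primes), |XX c p * sp p * cc j (bp p)| ≤ 2 := by
      intro j p
      rw [abs_mul, abs_mul]
      have := mul_le_mul (mul_le_mul (XX_abs_le c p) (sp_le p) (abs_nonneg _)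
        zero_le_one) (cc_abs_le j (bp_le p)) (abs_nonneg _) (by norm_num)
      linarith
    have h4 := Lim_sum hF (range (t + t + 1)) (fun (i : ℕ) (p : Nat.Primes) => (1 / 2 * ((t + t).choose i : ℝ)) *
          (XX c p * sp p * cc (((t + t : ℕ) : ℤ) - 2 * i) (bp p)))
        (fun i => |1 / 2 * ((t + t).choose i : ℝ)| * 2)
        (fun i => (1 / 2 * ((t + t).choose i : ℝ)) *
          (if ((t + t : ℕ) : ℤ) - 2 * i = 0 ∧ IsSquare c then 1 else 0))
        (fun i _ p => by rw [abs_mul]; exact mul_le_mul_of_nonneg_left (hb _ p) (abs_nonneg _))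
        (fun i _ => Lim_const_mul _ (Lim_cc hF hc _))
    convert h4 using 1
    rw [Finset.sum_eq_single t]
    · have h5 : ((t + t : ℕ) : ℤ) - 2 * t = 0 := by push_cast; ring
      have h6 : (t + t) / 2 = t := by omega
      have h7 : (t + t).choose t = 2 * (t + t - 1).choose t := by
        obtain ⟨s, rfl⟩ : ∃ s, t = s + 1 := ⟨t - 1, by omega⟩
        have e1 : s + 1 + (s + 1) = (2 * s + 1) + 1 := by ring
        have e2 : (2 * s + 1) + 1 - 1 = 2 * s + 1 := by omega
        rw [e1, e2, Nat.choose_succ_succ, Nat.choose_symm_half]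
        ring
      rw [h6, h7]
      by_cases h : IsSquare c
      · rw [if_pos h, if_pos ⟨h5, h⟩]
        push_cast
        ring
      · rw [if_neg h, if_neg (fun h' => h h'.2)]
        ring
    · intro i _ hi
      rw [if_neg]
      · ring
      · rintro ⟨h, _⟩
        apply hi
        push_cast at h
        omega
    · intro h
      exact absurd (Finset.mem_range.2 (by omega)) h

/-- the odd moments -/
theorem Lim_pow_odd (t : Nat.Primes → ℝ) (b : ℝ) (ht : ∀ p, |t p| ≤ b) (c : ℤ) {j : ℕ}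
    (hj : Odd j) (g : ℕ → ℝ)
    (hg : ∀ i : ℕ, Odd i → Lim F (fun p => t p * (XX c p * cc i (bp p))) (g i)) :
    Lim F (fun p => t p * (XX c p * bp p ^ j))
      (∑ i ∈ range (j / 2 + 1), (j.choose i : ℝ) * g (j - 2 * i)) := by
  obtain ⟨s, rfl⟩ := hj
  have hs : (2 * s + 1) / 2 = s := by omega
  rw [hs]
  have hb0 : 0 ≤ b := (abs_nonneg _).trans (ht ⟨2, Nat.prime_two⟩)
  have e : (fun p : Nat.Primes => t p * (XX c p * bp p ^ (2 * s + 1))) = fun p =>
      ∑ i ∈ range (s + 1), ((2 * s + 1).choose i : ℝ) *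
        (t p * (XX c p * cc ((2 * s + 1 - 2 * i : ℕ) : ℤ) (bp p))) := by
    funext p
    rw [pow_odd, Finset.mul_sum, Finset.mul_sum]
    refine Finset.sum_congr rfl fun i _ => ?_
    ring
  rw [e]
  refine Lim_sum hF (range (s + 1)) _ (fun i => ((2 * s + 1).choose i : ℝ) * (b * (1 * 2))) _
    (fun i _ p => ?_) (fun i hi => Lim_const_mul _ (hg _ ?_))
  · rw [abs_mul, abs_mul, abs_mul, Nat.abs_cast]
    refine mul_le_mul_of_nonneg_left ?_ (by positivity)
    refine mul_le_mul (ht p) ?_ (by positivity) hb0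
    exact mul_le_mul (XX_abs_le _ _) (cc_abs_le _ (bp_le p)) (abs_nonneg _) zero_le_one
  · have := Finset.mem_range.1 hi
    exact ⟨s - i, by omega⟩

/-- the value of the limit for a subset `A` and a degree `a` -/
noncomputable def LV (N : ℕ → ℕ) (y : ℕ → ℕ → ℕ → ℝ) (A : List ℕ) (a : ℕ) : ℝ :=
  if Even A.length then (N a : ℝ) * (if IsSquare A.prod then
    ((A.length - 1).choose (A.length / 2) : ℝ) else 0)
  else ∑ i ∈ range (A.length / 2 + 1), (A.length.choose i : ℝ) * y a (A.length - 2 * i) A.prod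

theorem Lim_term_even {N : ℕ → ℕ} {β : Nat.Primes → ℕ → Multiset ℂ}
    (hX : ∀ᶠ p : Nat.Primes in cofinite, XG N p (β p))
    {A : List ℕ} (hA : 0 < A.prod) {a : ℕ} (h1 : Even A.length) (ha : Even a) :
    Lim F (fun p => uu N β a p * xA A p) ((N a : ℝ) * (if IsSquare A.prod then
    ((A.length - 1).choose (A.length / 2) : ℝ) else 0)) := by
  have hc : (0 : ℤ) < ((A.prod : ℕ) : ℤ) := by exact_mod_cast hA
  have h3 := Lim_const_mul (N a : ℝ) (Lim_pow_even hF hc h1)
  have hiff : IsSquare ((A.prod : ℕ) : ℤ) ↔ IsSquare A.prod := by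
    constructor
    · rintro ⟨r, hr⟩
      refine ⟨r.natAbs, ?_⟩
      have := congrArg Int.natAbs hr
      rwa [Int.natAbs_natCast, Int.natAbs_mul] at this
    · rintro ⟨r, hr⟩
      exact ⟨r, by rw [hr]; push_cast; ring⟩
  have h4 : (if IsSquare ((A.prod : ℕ) : ℤ) then ((A.length - 1).choose (A.length / 2) : ℝ)
      else 0) = if IsSquare A.prod then ((A.length - 1).choose (A.length / 2) : ℝ) else 0 := by
    by_cases h : IsSquare A.prod
    · rw [if_pos h, if_pos (hiff.2 h)]
    · rw [if_neg h, if_neg (fun h' => h (hiff.1 h'))]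
  rw [h4] at h3
  refine Lim_congr hF (B := (N a : ℝ) * 2 ^ A.length) (B' := (N a : ℝ) * 2 ^ A.length)
      (fun p => ?_) (fun p => ?_) ?_ h3
  · rw [abs_mul, Nat.abs_cast]
    exact mul_le_mul_of_nonneg_left (xA_le A p) (by positivity)
  · rw [abs_mul]
    exact mul_le_mul (uu_le N β a p) (xA_le A p) (abs_nonneg _) (by positivity)
  · refine (eventually_cofinite.1 hX).subset ?_
    intro p hp
    simp only [Set.mem_setOf_eq] at hp ⊢
    intro h4
    apply hp
    rw [uu_even ha h4]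
    rfl

theorem Lim_term {N : ℕ → ℕ} {β : Nat.Primes → ℕ → Multiset ℂ}
    (hX : ∀ᶠ p : Nat.Primes in cofinite, XG N p (β p)) (y : ℕ → ℕ → ℕ → ℝ)
    (hy : ∀ a j c : ℕ, Odd a → Odd j → 0 < c →
      Lim F (fun p => uu N β a p * (XX (c : ℤ) p * cc j (bp p))) (y a j c))
    {A : List ℕ} (hA : 0 < A.prod) {a : ℕ} (hpar : Even A.length ↔ Even a) :
    Lim F (fun p => uu N β a p * xA A p) (LV N y A a) := by
  unfold LV
  by_cases h1 : Even A.length
  · rw [if_pos h1]
    exact Lim_term_even hF hX hA h1 (hpar.1 h1)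
  · rw [if_neg h1]
    have ha : Odd a := Nat.not_even_iff_odd.1 (fun h => h1 (hpar.2 h))
    have hj : Odd A.length := Nat.not_even_iff_odd.1 h1
    exact Lim_pow_odd hF (uu N β a) (N a) (uu_le N β a) _ hj (fun i => y a i A.prod)
      (fun i hi => hy a i A.prod ha hi hA)

end Pool.Agent.Y149.CM
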