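import Pool.Agent.Y149.CM.Asm

set_option autoImplicit false

/-!
The limit of the size is `rankProd + defect`.
-/

open Finset Filter Topology Complex Polynomial

namespace Pool.Agent.Y149.CM

open Pool.Agent.Helper919 (XX XX_apply XX_mod XX_mul XX_one XX_abs_le)
open Pool.Agent.H341R2 (E lam)

theorem sum_even (f : ℕ → ℝ) (hf : ∀ a, Odd a → f a = 0) (m : ℕ) :
    ∑ a ∈ range (2 * m + 1), f a = ∑ j ∈ range (m + 1), f (2 * (m - j)) := by
  have h1 : ∑ a ∈ range (2 * m + 1), f a = ∑ j ∈ range (m + 1), f (2 * j) := by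
    induction m with
    | zero => simp
    | succ m ih =>
      have e : 2 * (m + 1) + 1 = (2 * m + 1) + 1 + 1 := by ring
      rw [e, Finset.sum_range_succ, Finset.sum_range_succ, ih, Finset.sum_range_succ _ (m + 1),
        hf (2 * m + 1) ⟨m, rfl⟩, add_zero]
      congr 1
  rw [h1, ← Finset.sum_range_reflect]
  refine Finset.sum_congr rfl fun j hj => ?_
  congr 1

theorem list_exchange {ι : Type*} (L : List ι) (S : Finset ℕ) (c : ℕ → ℝ) (g : ι → ℕ → ℝ) :
    (L.map fun A => ∑ j ∈ S, c j * g A j).sum = ∑ j ∈ S, c j * (L.map fun A => g A j).sum := by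
  induction L with
  | nil => simp
  | cons a L ih =>
    simp only [List.map_cons, List.sum_cons]
    rw [ih, ← Finset.sum_add_distrib]
    refine Finset.sum_congr rfl fun j _ => ?_
    ring

/-- the term of `defect` -/
noncomputable def dT (y : ℕ → ℕ → ℕ → ℝ) (k m : ℕ) (A : List ℕ) (a : ℕ) : ℝ :=
  if Odd a ∧ Odd A.length ∧ a + A.length ≤ 2 * m then
      ((k - A.length).choose ((2 * m - a - A.length) / 2) : ℝ) *
        ∑ i ∈ Finset.range (A.length / 2 + 1),
          (A.length.choose i : ℝ) * y a (A.length - 2 * i) A.prod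
    else 0

open Classical in
/-- the term of `rankE` -/
noncomputable def rT (k : ℕ) (A : List ℕ) (j : ℕ) : ℝ :=
  ((if Even A.length ∧ A.length ≤ 2 * j ∧ IsSquare A.prod then
    (k - A.length).choose (j - A.length / 2) * (A.length - 1).choose (A.length / 2)
    else 0 : ℕ) : ℝ)

theorem term_eq (N : ℕ → ℕ) (y : ℕ → ℕ → ℕ → ℝ) (k m : ℕ) (A : List ℕ) :
    ∑ a ∈ range (2 * m + 1), (VV (k - A.length) A.length (2 * m) a : ℝ) * LV N y A a =
      ∑ j ∈ range (m + 1), (N (2 * (m - j)) : ℝ) * rT k A j +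
        ∑ a ∈ range (2 * m + 1), dT y k m A a := by
  classical
  rcases Nat.even_or_odd A.length with hA | hA
  · have h0 : ∑ a ∈ range (2 * m + 1), dT y k m A a = 0 := by
      refine Finset.sum_eq_zero fun a _ => ?_
      unfold dT
      rw [if_neg]
      rintro ⟨_, h, _⟩
      exact (Nat.not_even_iff_odd.2 h) hA
    rw [h0, add_zero, sum_even]
    · refine Finset.sum_congr rfl fun j hj => ?_
      have hj' : j ≤ m := by have := Finset.mem_range.1 hj; omega
      have hLV : LV N y A (2 * (m - j)) = (N (2 * (m - j)) : ℝ) * (if IsSquare A.prod then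
          ((A.length - 1).choose (A.length / 2) : ℝ) else 0) := by
        unfold LV
        rw [if_pos hA]
      rw [hLV]
      unfold VV rT
      obtain ⟨t, ht⟩ := hA
      by_cases h1 : A.length ≤ 2 * j
      · have h2 : 2 * (m - j) + A.length ≤ 2 * m := by omega
        have h3 : 2 * m - 2 * (m - j) - A.length = 2 * (j - t) := by omega
        have h4 : 2 * (j - t) / 2 = j - A.length / 2 := by omega
        rw [h3, if_pos ⟨h2, even_two_mul _⟩, h4]
        by_cases h5 : IsSquare A.prod
        · rw [if_pos h5, if_pos ⟨⟨t, ht⟩, h1, h5⟩]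
          push_cast
          ring
        · rw [if_neg h5, if_neg (fun h => h5 h.2.2)]
          push_cast
          ring
      · rw [if_neg (show ¬ (2 * (m - j) + A.length ≤ 2 * m ∧
            Even (2 * m - 2 * (m - j) - A.length)) from fun h => h1 (by omega)),
          if_neg (show ¬ (Even A.length ∧ A.length ≤ 2 * j ∧ IsSquare A.prod) from
            fun h => h1 h.2.1)]
        push_cast
        ring
    · intro a ha
      unfold VV
      rw [if_neg]
      · push_cast; ring
      · rintro ⟨h1, h2⟩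
        obtain ⟨s, hs⟩ := h2
        obtain ⟨r, hr⟩ := ha
        obtain ⟨t, ht⟩ := hA
        omega
  · have h0 : ∑ j ∈ range (m + 1), (N (2 * (m - j)) : ℝ) * rT k A j = 0 := by
      refine Finset.sum_eq_zero fun j _ => ?_
      unfold rT
      rw [if_neg]
      · push_cast; ring
      · rintro ⟨h, _⟩
        exact (Nat.not_even_iff_odd.2 hA) h
    rw [h0, zero_add]
    refine Finset.sum_congr rfl fun a _ => ?_
    unfold VV LV dT
    rw [if_neg (Nat.not_even_iff_odd.2 hA)]
    obtain ⟨t, ht⟩ := hA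
    by_cases h1 : a + A.length ≤ 2 * m
    · by_cases h2 : Odd a
      · obtain ⟨r, hr⟩ := h2
        have h3 : Even (2 * m - a - A.length) := ⟨m - r - t - 1, by omega⟩
        rw [if_pos ⟨h1, h3⟩, if_pos ⟨⟨r, hr⟩, ⟨t, ht⟩, h1⟩]
      · have h3 : ¬ Even (2 * m - a - A.length) := by
          rintro ⟨s, hs⟩
          apply h2
          exact ⟨m - s - t - 1, by omega⟩
        rw [if_neg (fun h => h3 h.2), if_neg (fun h => h2 h.1)]
        push_cast; ring
    · rw [if_neg (fun h => h1 h.1), if_neg (fun h => h1 h.2.2)]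
      push_cast; ring

theorem total_eq (N : ℕ → ℕ) (y : ℕ → ℕ → ℕ → ℝ) (l : List ℕ) (m : ℕ) :
    (l.sublists'.map fun A => ∑ a ∈ range (2 * m + 1),
      (VV (l.length - A.length) A.length (2 * m) a : ℝ) * LV N y A a).sum =
      (rankProd N l m : ℝ) + defect y l m := by
  classical
  have h1 : (l.sublists'.map fun A => ∑ a ∈ range (2 * m + 1),
      (VV (l.length - A.length) A.length (2 * m) a : ℝ) * LV N y A a) =
      (l.sublists'.map fun A => ∑ j ∈ range (m + 1), (N (2 * (m - j)) : ℝ) * rT l.length A j +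
        ∑ a ∈ range (2 * m + 1), dT y l.length m A a) :=
    List.map_congr_left fun A _ => term_eq N y l.length m A
  rw [h1, List.sum_map_add, list_exchange]
  congr 1
  unfold rankProd rankE
  push_cast
  refine Finset.sum_congr rfl fun j _ => ?_
  congr 1
  rw [List.map_map]
  congr 1

theorem prod_pos_of_sublist {l A : List ℕ} (hl : ∀ d ∈ l, 0 < d) (hA : A ∈ l.sublists') :
    0 < A.prod := by
  apply List.prod_pos
  intro d hd
  exact hl d ((List.mem_sublists'.1 hA).subset hd)

variable {F : Filter ℝ} (hF : F ≤ 𝓝[>] 0)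

include hF

theorem Lim_zero : Lim F (fun _ => 0) 0 := by
  have := Lim_const_mul (F := F) 0 (Lim_one hF)
  simpa using this

/-- the limit for one subset -/
theorem Lim_A {N : ℕ → ℕ} {β : Nat.Primes → ℕ → Multiset ℂ}
    (n k : ℕ) {A : List ℕ} (x : ℕ → ℝ)
    (h : ∀ a, VV (k - A.length) A.length n a ≠ 0 → Lim F (fun p => uu N β a p * xA A p) (x a)) :
    Lim F (fun p => xA A p * ∑ a ∈ range (n + 1), uu N β a p * (VV (k - A.length) A.length n a : ℕ))
      (∑ a ∈ range (n + 1), (VV (k - A.length) A.length n a : ℝ) * x a) := by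
  have e : (fun p : Nat.Primes => xA A p * ∑ a ∈ range (n + 1), uu N β a p *
      (VV (k - A.length) A.length n a : ℕ)) = fun p : Nat.Primes => ∑ a ∈ range (n + 1),
      (VV (k - A.length) A.length n a : ℝ) * (uu N β a p * xA A p) := by
    funext p
    rw [Finset.mul_sum]
    refine Finset.sum_congr rfl fun a _ => ?_
    ring
  rw [e]
  refine Lim_sum hF _ _ (fun a => (VV (k - A.length) A.length n a : ℝ) * (N a * 2 ^ A.length)) _
    (fun a _ p => ?_) (fun a _ => ?_)
  · rw [abs_mul, Nat.abs_cast, abs_mul]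
    refine mul_le_mul_of_nonneg_left ?_ (by positivity)
    exact mul_le_mul (uu_le N β a p) (xA_le A p) (abs_nonneg _) (by positivity)
  · by_cases h0 : VV (k - A.length) A.length n a = 0
    · rw [h0]
      simp only [Nat.cast_zero, zero_mul]
      exact Lim_zero hF
    · exact Lim_const_mul _ (h a h0)

theorem A_bound (N : ℕ → ℕ) (β : Nat.Primes → ℕ → Multiset ℂ) (n k : ℕ) (A : List ℕ)
    (p : Nat.Primes) :
    |xA A p * ∑ a ∈ range (n + 1), uu N β a p * (VV (k - A.length) A.length n a : ℕ)| ≤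
      2 ^ A.length * ∑ a ∈ range (n + 1), (N a : ℝ) * (VV (k - A.length) A.length n a : ℕ) := by
  rw [abs_mul]
  refine mul_le_mul (xA_le A p) ?_ (abs_nonneg _) (by positivity)
  refine (Finset.abs_sum_le_sum_abs _ _).trans (Finset.sum_le_sum fun a _ => ?_)
  rw [abs_mul, Nat.abs_cast]
  exact mul_le_mul_of_nonneg_right (uu_le N β a p) (by positivity)

/-- **the limit of the mean of the trace** -/
theorem Lim_phi {N : ℕ → ℕ} {β : Nat.Primes → ℕ → Multiset ℂ}
    (hX : ∀ᶠ p : Nat.Primes in cofinite, XG N p (β p)) (y : ℕ → ℕ → ℕ → ℝ)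
    (hy : ∀ a j c : ℕ, Odd a → Odd j → 0 < c →
      Lim F (fun p => uu N β a p * (XX (c : ℤ) p * cc j (bp p))) (y a j c))
    {l : List ℕ} (hl : ∀ d ∈ l, 0 < d) (m : ℕ) :
    Lim F (phi N β l (2 * m)) ((rankProd N l m : ℝ) + defect y l m) := by
  rw [← total_eq]
  refine Lim_list hF l.sublists' _ _ (fun A => 2 ^ A.length * ∑ a ∈ range (2 * m + 1),
    (N a : ℝ) * (VV (l.length - A.length) A.length (2 * m) a : ℕ))
    (fun A _ p => A_bound hF N β (2 * m) l.length A p) (fun A hA => ?_)
  refine Lim_A hF (2 * m) l.length (LV N y A) fun a h => ?_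
  refine Lim_term hF hX y hy (prod_pos_of_sublist hl hA) ?_
  unfold VV at h
  split_ifs at h with h1
  · obtain ⟨h2, s, hs⟩ := h1
    constructor
    · rintro ⟨t, ht⟩
      exact ⟨m - s - t, by omega⟩
    · rintro ⟨t, ht⟩
      exact ⟨m - s - t, by omega⟩
  · exact absurd rfl h

end Pool.Agent.Y149.CM
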