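import Pool.Agent.H304R3.HK.Fin
import Pool.Agent.W164.RC.EP
import Pool.Agent.H341R2.EulerProd

set_option autoImplicit false

/-!
Non-vanishing at `s = 1` of the L-function of a completely multiplicative function on `ℤ[i]`, and the
boundedness of the prime sums.
-/

open Finset Filter Topology Complex

namespace Pool.Agent.Y149.CM

open Pool.Agent.H304R3.HK
open Pool.Agent.H304R3.HK.T2 (tc_norm_sq)

/-- twist by a power of the absolute value -/
noncomputable def tw (h : GaussianInt →* ℂ) (w : ℂ) : GaussianInt →* ℂ where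
  toFun a := h a * (‖tc a‖ : ℂ) ^ w
  map_one' := by simp [tc]
  map_mul' a b := by
    have e : ‖tc (a * b)‖ = ‖tc a‖ * ‖tc b‖ := by
      rw [Pool.Agent.H304R3.HK.G1a.tc_mul, norm_mul]
    rw [map_mul, e, Complex.ofReal_mul,
      Complex.mul_cpow_ofReal_nonneg (norm_nonneg _) (norm_nonneg _)]
    ring

theorem tw_apply (h : GaussianInt →* ℂ) (w : ℂ) (a : GaussianInt) :
    tw h w a = h a * (‖tc a‖ : ℂ) ^ w := rfl

theorem tw_UH {h : GaussianInt →* ℂ} (hh : UH h) (τ : ℝ) : UH (tw h (2 * τ * I)) where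
  h0 := by rw [tw_apply, hh.h0, zero_mul]
  hb := by
    intro a
    by_cases ha : a = 0
    · rw [ha, tw_apply, hh.h0, zero_mul, norm_zero]
      exact zero_le_one
    · rw [tw_apply, norm_mul]
      have h1 : ‖((‖tc a‖ : ℝ) : ℂ) ^ (2 * τ * I : ℂ)‖ = 1 := by
        rw [Complex.norm_cpow_eq_rpow_re_of_pos (norm_pos_iff.2 (tc_ne_zero ha))]
        have : (2 * τ * I : ℂ).re = 0 := by simp
        rw [this, Real.rpow_zero]
      rw [h1, mul_one]
      exact hh.hb a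
  hi := by
    rw [tw_apply, hh.hi]
    have e : tc ⟨0, 1⟩ = Complex.I := by simp [tc]
    rw [e, Complex.norm_I]
    simp

theorem norm_of_mem' {n : ℕ} {p : ℤ × ℤ} (hp : p ∈ CS n) :
    ‖tc ⟨p.1, p.2⟩‖ = Real.sqrt n := by
  rw [Pool.Agent.H304R3.HK.T2.mem_CS] at hp
  have hp' : ((p.1 : ℤ) : ℝ) ^ 2 + ((p.2 : ℤ) : ℝ) ^ 2 = n := by exact_mod_cast hp
  have := tc_norm_sq ⟨p.1, p.2⟩
  simp only [hp'] at this
  rw [eq_comm, Real.sqrt_eq_iff_mul_self_eq (by positivity) (norm_nonneg _), ← sq, this]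

theorem bb_abs (g : GaussianInt → ℂ) (w : ℂ) (n : ℕ) :
    bb (fun a => g a * (‖tc a‖ : ℂ) ^ w) n = bb g n * (Real.sqrt n : ℂ) ^ w := by
  unfold bb
  rw [mul_assoc, Finset.sum_mul]
  congr 1
  refine Finset.sum_congr rfl fun p hp => ?_
  simp only []
  rw [norm_of_mem' hp]

theorem sqrt_cpow (n : ℕ) (hn : 0 < n) (w s : ℂ) :
    (Real.sqrt n : ℂ) ^ (2 * w) * (n : ℂ) ^ (-s) = (n : ℂ) ^ (-(s - w)) := by
  have hn' : (0 : ℝ) < n := by exact_mod_cast hn
  have hs : (Real.sqrt n : ℂ) ≠ 0 := by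
    exact_mod_cast (Real.sqrt_pos.2 hn').ne'
  have hn0 : (n : ℂ) ≠ 0 := by exact_mod_cast hn.ne'
  have e1 : (n : ℂ) ^ w = (Real.sqrt n : ℂ) ^ (2 * w) := by
    have h1 : (n : ℂ) = (Real.sqrt n : ℂ) * (Real.sqrt n : ℂ) := by
      rw [← Complex.ofReal_mul, Real.mul_self_sqrt hn'.le]
      simp
    rw [h1, Complex.mul_cpow_ofReal_nonneg (Real.sqrt_nonneg _) (Real.sqrt_nonneg _), two_mul,
      Complex.cpow_add _ _ hs]
  rw [← e1, ← Complex.cpow_add _ _ hn0]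
  congr 1
  ring

/-- non-vanishing at one -/
theorem nz_one (h : GaussianInt →* ℂ) (hh : UH h) (F G : ℂ → ℂ) (hF : Differentiable ℂ F)
    (hG : Differentiable ℂ G)
    (sF : ∀ s : ℂ, 1 < s.re → HasSum (fun n : ℕ => bb h n * (n : ℂ) ^ (-s)) (F s))
    (sG : ∀ s : ℂ, 1 < s.re →
      HasSum (fun n : ℕ => bb (fun a => (h a) ^ 2) n * (n : ℂ) ^ (-s)) (G s)) : F 1 ≠ 0 := by
  have hlg := lg_bb h hh
  have key := nz_line_of lg_bb lam_eq lam_one F_ne_zero F_ld (tw h (2 * (1 : ℝ) * I))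
    (tw_UH hh 1) (fun s => F (s - I)) (fun s => G (s - 2 * I)) (hF.comp (by fun_prop))
    (hG.comp (by fun_prop)) ?_ ?_ 1 one_ne_zero
  · have e : (⟨1, 1⟩ : ℂ) - I = 1 := by apply Complex.ext <;> simp
    simp only [e] at key
    exact key
  · intro s hs
    have h1 := sF (s - I) (by simpa using hs)
    refine h1.congr_fun fun n => ?_
    rcases Nat.eq_zero_or_pos n with rfl | hn
    · rw [(lg_bb _ (tw_UH hh 1)).b0, hlg.b0, zero_mul, zero_mul]
    · have h2 := bb_abs h (2 * ((1 : ℝ) * I)) n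
      have h3 : bb (tw h (2 * (1 : ℝ) * I)) n = bb h n * (Real.sqrt n : ℂ) ^ (2 * ((1 : ℝ) * I)) := by
        rw [← h2]
        congr 1
        funext a
        rw [tw_apply, mul_assoc]
      rw [h3, mul_assoc, sqrt_cpow n hn]
      simp
  · intro s hs
    have h1 := sG (s - 2 * I) (by simpa using hs)
    refine h1.congr_fun fun n => ?_
    rcases Nat.eq_zero_or_pos n with rfl | hn
    · have hh2 := nzr_sq_UH h hh
      have h5 : bb (fun a => h a ^ 2) 0 = 0 := (lg_bb _ hh2).b0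
      have hh3 := nzr_sq_UH _ (tw_UH hh 1)
      have h6 : bb (fun a => (tw h (2 * (1 : ℝ) * I)) a ^ 2) 0 = 0 := (lg_bb _ hh3).b0
      rw [h5, h6, zero_mul, zero_mul]
    · have h2 := bb_abs (fun a => h a ^ 2) (2 * (2 * I)) n
      have h3 : bb (fun a => (tw h (2 * (1 : ℝ) * I)) a ^ 2) n =
          bb (fun a => h a ^ 2) n * (Real.sqrt n : ℂ) ^ (2 * (2 * I)) := by
        rw [← h2]
        congr 1
        funext a
        rw [tw_apply, mul_pow, ← Complex.cpow_nat_mul]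
        congr 2
        push_cast
        ring
      rw [h3, mul_assoc, sqrt_cpow n hn]

open Pool.Agent.H341R2 (E K2 lam)

/-- the prime sums are bounded -/
theorem sum_bounded (h : GaussianInt →* ℂ) (hh : UH h) (F G : ℂ → ℂ) (hF : Differentiable ℂ F)
    (hG : Differentiable ℂ G)
    (sF : ∀ s : ℂ, 1 < s.re → HasSum (fun n : ℕ => bb h n * (n : ℂ) ^ (-s)) (F s))
    (sG : ∀ s : ℂ, 1 < s.re →
      HasSum (fun n : ℕ => bb (fun a => (h a) ^ 2) n * (n : ℂ) ^ (-s)) (G s)) :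
    ∃ C : ℝ, ∀ᶠ ε : ℝ in 𝓝[>] 0, |E ε fun p => (bb h p).re| ≤ C := by
  have hF1 := nz_one h hh F G hF hG sF sG
  have I : M3.In h := ⟨bb_zero h hh.h0, fun k m hm => bb_two_odd h hh.hi k m hm⟩
  choose u v hu hv hs he using fun p : Nat.Primes => M3.roots hh I p p.2
  have hpath : Tendsto (fun ε : ℝ => (1 + ε : ℂ)) (𝓝[>] 0) (𝓝 1) := by
    have : ContinuousAt (fun ε : ℝ => (1 + ε : ℂ)) 0 := by fun_prop
    have h2 := this.tendsto
    simp only [ofReal_zero, add_zero] at h2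
    exact h2.mono_left nhdsWithin_le_nhds
  have hlog : Tendsto (fun ε : ℝ => Real.log ‖F (1 + ε)‖) (𝓝[>] 0) (𝓝 (Real.log ‖F 1‖)) :=
    (((hF 1).continuousAt.tendsto.comp hpath).norm).log (norm_ne_zero_iff.2 hF1)
  obtain ⟨C, hC⟩ := (hlog.abs).isBoundedUnder_le
  refine ⟨C + |2| * K2, ?_⟩
  filter_upwards [Filter.eventually_map.1 hC, self_mem_nhdsWithin] with ε h1 h2
  have hε : (0 : ℝ) < ε := h2
  have hre : 1 < (1 + ε : ℂ).re := by simp [hε]
  set X : Nat.Primes → ℂ := fun p => ((p : ℕ) : ℂ) ^ (-(1 + ε) : ℂ) with hX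
  have hXn : ∀ p, ‖X p‖ = (p : ℝ) ^ (-(1 + ε)) := by
    intro p
    rw [hX]
    simp only
    rw [Complex.norm_natCast_cpow_of_pos p.2.pos]
    simp
  have hXr : ∀ p, X p = ((p : ℝ) ^ (-(1 + ε)) : ℝ) := by
    intro p
    rw [hX]
    simp only
    rw [Complex.ofReal_cpow (by positivity)]
    push_cast
    rfl
  have hX2 : ∀ p, ‖X p‖ ≤ 1 / 2 := fun p => by
    rw [hXn]
    exact Pool.Agent.H341R2.prime_rpow_le_two (by linarith)
  have hXs : ∀ p, ‖X p‖ ^ 2 ≤ (p : ℝ) ^ (-2 : ℝ) := by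
    intro p
    have h1 : (1 : ℝ) ≤ p := by exact_mod_cast p.2.one_lt.le
    have h2 : ‖X p‖ ≤ (p : ℝ) ^ (-1 : ℝ) := by
      rw [hXn]
      exact Real.rpow_le_rpow_of_exponent_le h1 (by linarith)
    calc ‖X p‖ ^ 2 ≤ ((p : ℝ) ^ (-1 : ℝ)) ^ 2 := by gcongr
      _ = (p : ℝ) ^ (-2 : ℝ) := by
          rw [← Real.rpow_natCast, ← Real.rpow_mul (by linarith)]
          norm_num
  have hux : ∀ (x : ℂ) (p : Nat.Primes), ‖x‖ ≤ 1 → ‖x * X p‖ ≤ 1 / 2 ∧
      ‖-Complex.log (1 - x * X p) - x * X p‖ ≤ (p : ℝ) ^ (-2 : ℝ) := by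
    intro x p hx
    have h3 : ‖x * X p‖ ≤ ‖X p‖ := by
      rw [norm_mul]
      exact mul_le_of_le_one_left (norm_nonneg _) hx
    refine ⟨h3.trans (hX2 p), (Pool.Agent.H341R2.norm_neg_log_sub_le (h3.trans (hX2 p))).trans ?_⟩
    exact (pow_le_pow_left₀ (norm_nonneg _) h3 2).trans (hXs p)
  set L : Nat.Primes → ℂ := fun p => -Complex.log (1 - u p * X p) - Complex.log (1 - v p * X p)
    with hL
  have hLb : ∀ p, ‖L p - bb h p * ((p : ℝ) ^ (-(1 + ε)) : ℝ)‖ ≤ 2 * (p : ℝ) ^ (-2 : ℝ) := by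
    intro p
    have e : L p - bb h p * ((p : ℝ) ^ (-(1 + ε)) : ℝ) =
        (-Complex.log (1 - u p * X p) - u p * X p) +
          (-Complex.log (1 - v p * X p) - v p * X p) := by
      rw [← hXr, ← hs p, hL]
      ring
    rw [e]
    refine (norm_add_le _ _).trans ?_
    linarith [(hux (u p) p (hu p)).2, (hux (v p) p (hv p)).2]
  have hbd : ∀ p : Nat.Primes, ‖bb h p‖ ≤ 2 := by
    intro p
    rw [← hs p]
    refine (norm_add_le _ _).trans ?_
    linarith [hu p, hv p]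
  obtain ⟨hsum, hE⟩ := Pool.Agent.H341R2.summable_and_bound (Good := fun _ => True) hε L
    (fun p => bb h p) (C := 2) (K := 2) hbd (fun p hp => absurd trivial hp) (fun p _ => hLb p)
  simp only [if_true] at hsum hE
  have hprod := Pool.Agent.W164.RC.ep_general (bb h) (ee h) I.z0 (M3.b_one I) (M3.b_mul I)
    (M3.b_rec hh I) (1 + ε) (F (1 + ε)) (sF _ hre)
  have hprod2 := hsum.hasSum.cexp
  have hfun : (Complex.exp ∘ L) = fun p : Nat.Primes =>
      (1 - bb h p * ((p : ℕ) : ℂ) ^ (-(1 + ε) : ℂ) +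
        ee h p * (((p : ℕ) : ℂ) ^ (-(1 + ε) : ℂ)) ^ 2)⁻¹ := by
    funext p
    have hne : ∀ x : ℂ, ‖x‖ ≤ 1 → 1 - x * X p ≠ 0 := by
      intro x hx h0
      have h3 := (hux x p hx).1
      have h4 : x * X p = 1 := (sub_eq_zero.1 h0).symm
      rw [h4, norm_one] at h3
      norm_num at h3
    have h5 : 1 - bb h p * X p + ee h p * X p ^ 2 = (1 - u p * X p) * (1 - v p * X p) := by
      rw [← hs p, ← he p]
      ring
    simp only [Function.comp_apply]
    rw [hL]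
    simp only
    rw [Complex.exp_sub, Complex.exp_neg, Complex.exp_log (hne _ (hu p)),
      Complex.exp_log (hne _ (hv p))]
    change _ = (1 - bb h p * X p + ee h p * X p ^ 2)⁻¹
    rw [h5, mul_inv]
    rfl
  rw [hfun] at hprod2
  have h3 := hprod.unique hprod2
  have h4 : Real.log ‖F (1 + ε)‖ = (∑' p, L p).re := by
    rw [h3, Complex.norm_exp, Real.log_exp]
  rw [← h4] at hE
  have h5 := abs_sub_abs_le_abs_sub (E ε fun p => (bb h p).re) (Real.log ‖F (1 + ε)‖)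
  rw [abs_sub_comm] at h5
  linarith

end Pool.Agent.Y149.CM
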