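import Pool.Agent.Y149.CM.Ent
import Pool.Agent.Y149.CM.Nz
import Pool.Agent.W354.HW.Chi
import Pool.Agent.H304R2.EC.Points
import Pool.Agent.H341R2.TwistBessel

set_option autoImplicit false

/-!
The Hecke characters of `ℚ(i)` attached to the powers of the congruent number curves
`E_d : y² = x³ - d² x`, and the mean values of `(c/p) C_j(a_p/√p)` over the primes `p ≡ 1 mod 4`.
-/

open Finset Filter Topology Complex

namespace Pool.Agent.Y149.CM

open Pool.Agent.H304R3.HK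
open Pool.Agent.W354.PK (psik)
open Pool.Agent.W354.PK.TK (psik_apply)
open Pool.Agent.W354.HW (chiE chiE_apply chiE_ne chiE_four chiE_prim chiE_HC qE gE)
open Pool.Agent.H304R2.EC (PS Sh Sh_inert PS_split an aE aE_eq an_inert)
open Pool.Agent.H304R2.EC.A1 (prim re_mul' im_mul' norm_def')
open Pool.Agent.Helper919 (XX XX_apply XX_mod XX_mul XX_one XX_abs_le psi psi_apply psi_ne_one)
open Pool.Agent.H341R2 (E K2 lam)

/-- the Chebyshev polynomial with `C_j(u + 1/u) = u^j + u^{-j}` -/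
noncomputable def cc (j : ℤ) (x : ℝ) : ℝ := (Polynomial.Chebyshev.C ℝ j).eval x

theorem cc_zero (x : ℝ) : cc 0 x = 2 := by simp [cc]

theorem cc_one (x : ℝ) : cc 1 x = x := by simp [cc]

theorem cc_add_two (j : ℤ) (x : ℝ) : cc (j + 2) x = x * cc (j + 1) x - cc j x := by
  unfold cc
  rw [Polynomial.Chebyshev.C_add_two, Polynomial.eval_sub, Polynomial.eval_mul, Polynomial.eval_X]

theorem cc_neg (j : ℤ) (x : ℝ) : cc (-j) x = cc j x := by
  unfold cc
  rw [Polynomial.Chebyshev.C_neg]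

theorem cc_mul (j k : ℤ) (x : ℝ) : cc j x * cc k x = cc (j + k) x + cc (j - k) x := by
  unfold cc
  rw [← Polynomial.eval_mul, Polynomial.Chebyshev.C_mul_C, Polynomial.eval_add]

theorem cc_x (j : ℤ) (x : ℝ) : x * cc j x = cc (j + 1) x + cc (j - 1) x := by
  have h := cc_mul j 1 x
  rw [cc_one] at h
  rw [mul_comm]
  exact h

theorem cc_uv (j : ℕ) (u v : ℂ) (x : ℝ) (h : u + v = x) (h1 : u * v = 1) :
    ((cc j x : ℝ) : ℂ) = u ^ j + v ^ j := by
  have key : ((cc (j : ℤ) x : ℝ) : ℂ) = u ^ j + v ^ j ∧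
      ((cc ((j : ℤ) + 1) x : ℝ) : ℂ) = u ^ (j + 1) + v ^ (j + 1) := by
    induction j with
    | zero =>
      constructor
      · simp [cc_zero]; norm_num
      · simp [cc_one, h]
    | succ j ih =>
      refine ⟨by exact_mod_cast ih.2, ?_⟩
      have e : ((j + 1 : ℕ) : ℤ) + 1 = (j : ℤ) + 2 := by push_cast; ring
      rw [e, cc_add_two]
      push_cast
      rw [ih.1, ih.2, ← h]
      linear_combination (u ^ j + v ^ j) * h1
  exact key.1

theorem cc_odd_zero (j : ℕ) (hj : Odd j) : cc j 0 = 0 := by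
  obtain ⟨k, rfl⟩ := hj
  induction k with
  | zero => simp [cc_one]
  | succ k ih =>
    have e : ((2 * (k + 1) + 1 : ℕ) : ℤ) = ((2 * k + 1 : ℕ) : ℤ) + 2 := by push_cast; ring
    rw [e, cc_add_two, ih]
    ring

/-- `2 x^j = ∑ C(j, i) C_{j - 2i}(x)` -/
theorem two_pow (j : ℕ) (x : ℝ) :
    2 * x ^ j = ∑ i ∈ range (j + 1), (j.choose i : ℝ) * cc ((j : ℤ) - 2 * i) x := by
  induction j with
  | zero => simp [cc_zero]
  | succ j ih =>
    have h1 : 2 * x ^ (j + 1) = x * (2 * x ^ j) := by ring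
    rw [h1, ih, Finset.mul_sum]
    have h2 : ∀ i ∈ range (j + 1), x * ((j.choose i : ℝ) * cc ((j : ℤ) - 2 * i) x) =
        (j.choose i : ℝ) * cc (((j + 1 : ℕ) : ℤ) - 2 * i) x +
        (j.choose i : ℝ) * cc (((j + 1 : ℕ) : ℤ) - 2 * ((i + 1 : ℕ) : ℤ)) x := by
      intro i _
      rw [mul_left_comm, cc_x, mul_add]
      congr 3 <;> push_cast <;> ring
    rw [Finset.sum_congr rfl h2, Finset.sum_add_distrib]
    have h3 : ∑ i ∈ range (j + 1 + 1), ((j + 1).choose i : ℝ) *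
        cc (((j + 1 : ℕ) : ℤ) - 2 * i) x =
        ∑ i ∈ range (j + 1), ((j + 1).choose (i + 1) : ℝ) *
          cc (((j + 1 : ℕ) : ℤ) - 2 * ((i + 1 : ℕ) : ℤ)) x +
        ((j + 1).choose 0 : ℝ) * cc (((j + 1 : ℕ) : ℤ) - 2 * ((0 : ℕ) : ℤ)) x :=
      Finset.sum_range_succ' _ _
    rw [h3]
    have h4 : ∑ i ∈ range (j + 1), (j.choose i : ℝ) * cc (((j + 1 : ℕ) : ℤ) - 2 * i) x =
        ∑ i ∈ range (j + 1), (j.choose (i + 1) : ℝ) *
          cc (((j + 1 : ℕ) : ℤ) - 2 * ((i + 1 : ℕ) : ℤ)) x +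
        (j.choose 0 : ℝ) * cc (((j + 1 : ℕ) : ℤ) - 2 * ((0 : ℕ) : ℤ)) x := by
      rw [← Finset.sum_range_succ' (fun i => (j.choose i : ℝ) *
        cc (((j + 1 : ℕ) : ℤ) - 2 * i) x) (j + 1), Finset.sum_range_succ _ (j + 1),
        Nat.choose_succ_self]
      simp
    rw [h4]
    have h5 : ∀ i ∈ range (j + 1), ((j + 1).choose (i + 1) : ℝ) *
        cc (((j + 1 : ℕ) : ℤ) - 2 * ((i + 1 : ℕ) : ℤ)) x =
        (j.choose i : ℝ) * cc (((j + 1 : ℕ) : ℤ) - 2 * ((i + 1 : ℕ) : ℤ)) x +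
        (j.choose (i + 1) : ℝ) * cc (((j + 1 : ℕ) : ℤ) - 2 * ((i + 1 : ℕ) : ℤ)) x := by
      intro i _
      rw [Nat.choose_succ_succ]
      push_cast
      ring
    rw [Finset.sum_congr rfl h5, Finset.sum_add_distrib, Nat.choose_zero_right,
      Nat.choose_zero_right]
    ring

/-- the character `(c / N(a)) χ_E(a)^j` -/
noncomputable def fc (c : ℤ) (j : ℕ) : GaussianInt →* ℂ where
  toFun a := chiE a ^ j * ((XX c a.norm.natAbs : ℝ) : ℂ)
  map_one' := by simp [XX_one]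
  map_mul' a b := by
    rw [map_mul, Zsqrtd.norm_mul, Int.natAbs_mul, XX_mul]
    push_cast
    ring

theorem fc_apply (c : ℤ) (j : ℕ) (a : GaussianInt) :
    fc c j a = chiE a ^ j * ((XX c a.norm.natAbs : ℝ) : ℂ) := rfl

theorem chiE_le (a : GaussianInt) : ‖chiE a‖ ≤ 1 := Pool.Agent.W354.PK.TK.chi_le chiE_HC a

theorem fc_le (c : ℤ) (j : ℕ) (a : GaussianInt) : ‖fc c j a‖ ≤ 1 := by
  rw [fc_apply, norm_mul, norm_pow, Complex.norm_real, Real.norm_eq_abs]
  exact mul_le_one₀ (pow_le_one₀ (norm_nonneg _) (chiE_le a)) (abs_nonneg _) (XX_abs_le _ _)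

theorem fc_per {c : ℤ} (hc : c ≠ 0) (j : ℕ) : PF (((4 * c : ℤ) : GaussianInt)) (fc c j) where
  q0 := by
    intro h
    have := congrArg Zsqrtd.re h
    simp at this
    exact hc this
  per := by
    intro a b h
    have h1 : chiE a = chiE b := by
      apply chiE_HC.per
      refine Dvd.dvd.trans ?_ h
      refine ⟨(1 - ⟨0, 1⟩) * ((c : ℤ) : GaussianInt), ?_⟩
      ext
      · simp [qE, Zsqrtd.re_mul, Zsqrtd.im_mul]; ring
      · simp [qE, Zsqrtd.re_mul, Zsqrtd.im_mul]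
    obtain ⟨w, hw⟩ := h
    have hre : a.re = b.re + 4 * c * w.re := by
      have := congrArg Zsqrtd.re hw
      simp [Zsqrtd.re_mul] at this
      linarith
    have him : a.im = b.im + 4 * c * w.im := by
      have := congrArg Zsqrtd.im hw
      simp [Zsqrtd.im_mul] at this
      linarith
    have h2 : XX c a.norm.natAbs = XX c b.norm.natAbs := by
      rw [← XX_mod c a.norm.natAbs, ← XX_mod c b.norm.natAbs]
      congr 1
      have h3 : (a.norm.natAbs : ℤ) = a.norm := Int.natAbs_of_nonneg (GaussianInt.norm_nonneg a)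
      have h4 : (b.norm.natAbs : ℤ) = b.norm := Int.natAbs_of_nonneg (GaussianInt.norm_nonneg b)
      have h5 : ((a.norm.natAbs : ℕ) : ℤ) ≡ ((b.norm.natAbs : ℕ) : ℤ) [ZMOD ((4 * c.natAbs : ℕ) : ℤ)] := by
        rw [h3, h4]
        apply Int.ModEq.symm
        rw [Int.modEq_iff_dvd]
        have h6 : ((4 * c.natAbs : ℕ) : ℤ) ∣ 4 * c := by
          push_cast
          exact mul_dvd_mul_left 4 ((abs_dvd c c).2 dvd_rfl)
        refine Dvd.dvd.trans h6 ?_
        rw [norm_def', norm_def', hre, him]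
        exact ⟨2 * b.re * w.re + 2 * b.im * w.im + 4 * c * w.re ^ 2 + 4 * c * w.im ^ 2, by ring⟩
      exact (Int.natCast_modEq_iff.1 h5)
    rw [fc_apply, fc_apply, h1, h2]
  le := fc_le c j

theorem hUH (c : ℤ) (j : ℕ) (m : ℕ) (hj : ∃ t : ℕ, m = j + 4 * t) : UH (psik m (fc c j)) where
  h0 := by rw [psik_apply, if_pos rfl]
  hb := by
    intro a
    rw [psik_apply]
    split_ifs with h
    · simp
    · rw [norm_mul, norm_pow, norm_div, Complex.norm_real, norm_norm,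
        div_self (norm_ne_zero_iff.2 (Pool.Agent.H304R3.HK.G1a.tc_ne h)), one_pow, mul_one]
      exact fc_le c j a
  hi := by
    have h0 : (⟨0, 1⟩ : GaussianInt) ≠ 0 := by
      intro h
      have := congrArg Zsqrtd.im h
      simp at this
    rw [psik_apply, if_neg h0, fc_apply, chiE_HC.unit]
    have e : tc ⟨0, 1⟩ = Complex.I := by simp [tc]
    have e2 : (⟨0, 1⟩ : GaussianInt).norm.natAbs = 1 := by decide
    obtain ⟨t, rfl⟩ := hj
    rw [e, e2, XX_one]
    simp only [Complex.norm_I, Complex.ofReal_one, div_one, mul_one, pow_one]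
    rw [pow_add, pow_mul, Complex.I_pow_four, one_pow, mul_one, ← mul_pow]
    simp

end Pool.Agent.Y149.CM
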