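import Pool.Agent.Y149.CM.Size

set_option autoImplicit false

/-!
Limits of the sizes and Bessel's inequality.
-/

open Finset Filter Topology Complex Polynomial

namespace Pool.Agent.Y149.CM

open Pool.Agent.Helper919 (XX XX_apply XX_mod XX_mul XX_one XX_abs_le)
open Pool.Agent.H341R2 (E K2 lam summable_E E_add E_const_mul E_sum E_le E_nonneg lam_tendsto
  lam_bounded summable_prime_rpow w_nonneg)

theorem abs_E_le {ε : ℝ} (hε : 0 < ε) {φ : Nat.Primes → ℝ} {B : ℝ} (hφ : ∀ p, |φ p| ≤ B) :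
    |E ε φ| ≤ B * lam ε := by
  rw [abs_le]
  constructor
  · have h1 := E_le hε (φ := fun p => (-1) * φ p) (B := B) (fun p => by rw [neg_one_mul, abs_neg]; exact hφ p)
      (b := B) (fun p => by rw [neg_one_mul]; exact (neg_le_abs _).trans (hφ p))
    rw [E_const_mul] at h1
    linarith
  · exact E_le hε hφ fun p => (le_abs_self _).trans (hφ p)

/-- the size and the mean have the same limits -/
theorem size_iff {N : ℕ → ℕ} {β : Nat.Primes → ℕ → Multiset ℂ}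
    (hX : ∀ᶠ p : Nat.Primes in cofinite, XG N p (β p)) {l : List ℕ} (hl : ∀ d ∈ l, 0 < d) {m : ℕ}
    {B : Nat.Primes → ℂ[X]} (hB : IsEuler β l m B) {F : Filter ℝ} (hF : F ≤ 𝓝[>] 0) (x : ℝ) :
    Tendsto (size m B) F (𝓝 x) ↔ Lim F (phi N β l (2 * m)) x := by
  obtain ⟨C, hC⟩ := log_LFun hX hl hB
  obtain ⟨C', hC'⟩ := lam_bounded
  obtain ⟨Cφ, hCφ⟩ := phi_le N l (2 * m)
  have hlog : Tendsto (fun ε : ℝ => Real.log (1 / ε)) (𝓝[>] 0) atTop := by
    have := tendsto_neg_atBot_atTop.comp Real.tendsto_log_nhdsGT_zero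
    refine this.congr fun ε => ?_
    simp
  have h1 : Tendsto (fun ε => size m B ε - E ε (phi N β l (2 * m)) / lam ε) (𝓝[>] 0) (𝓝 0) := by
    have h2 : Tendsto (fun ε : ℝ => (|C| + Cφ * |C'|) / Real.log (1 / ε)) (𝓝[>] 0) (𝓝 0) :=
      hlog.const_div_atTop _
    refine squeeze_zero_norm' ?_ h2
    filter_upwards [hC, hC', self_mem_nhdsWithin, hlog.eventually_gt_atTop 0,
      lam_tendsto.eventually_gt_atTop 0] with ε h3 h4 h5 h6 h7
    have hε : (0 : ℝ) < ε := h5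
    have h8 := abs_E_le hε (hCφ β)
    set L := Real.log ‖LFun B ((m : ℂ) + 1 + ε)‖ with hL
    set Λ := Real.log (1 / ε) with hΛ
    set e := E ε (phi N β l (2 * m)) with he
    have hΛ' : Λ = -Real.log ε := by rw [hΛ]; simp
    have h9 : size m B ε - e / lam ε = ((L - e) + (e / lam ε) * (lam ε - Λ)) / Λ := by
      unfold size
      rw [← hL, ← hΛ]
      field_simp
      ring
    rw [h9, norm_div, Real.norm_eq_abs, Real.norm_eq_abs, abs_of_pos h6]
    refine div_le_div_of_nonneg_right ?_ h6.le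
    refine (abs_add_le _ _).trans (add_le_add (h3.trans (le_abs_self C)) ?_)
    rw [abs_mul, abs_div, abs_of_pos h7]
    have h10 : |e| / lam ε ≤ Cφ := by
      rw [div_le_iff₀ h7]
      exact h8
    have h11 : |lam ε - Λ| ≤ |C'| := by
      rw [hΛ', sub_neg_eq_add]
      exact h4.trans (le_abs_self _)
    have hCφ0 : 0 ≤ Cφ := (abs_nonneg _).trans (hCφ β ⟨2, Nat.prime_two⟩)
    exact mul_le_mul h10 h11 (abs_nonneg _) hCφ0
  have h2 := h1.mono_left hF
  constructor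
  · intro h
    have := h.sub h2
    rw [sub_zero] at this
    refine this.congr fun ε => ?_
    ring
  · intro h
    have : Tendsto _ F (𝓝 (x + 0)) := h.add h2
    rw [add_zero] at this
    refine this.congr fun ε => ?_
    ring

/-- the order determines the limit of the size -/
theorem size_of_order {m : ℕ} {B : Nat.Primes → ℂ[X]} {r : ℤ} (h : HasOrder m B r) :
    Tendsto (size m B) (𝓝[>] 0) (𝓝 (-(r : ℝ))) := by
  obtain ⟨a, ha, h1⟩ := h
  have hlog : Tendsto (fun ε : ℝ => Real.log (1 / ε)) (𝓝[>] 0) atTop := by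
    have := tendsto_neg_atBot_atTop.comp Real.tendsto_log_nhdsGT_zero
    refine this.congr fun ε => ?_
    simp
  have h2 := (h1.norm).log (norm_ne_zero_iff.2 ha)
  have h3 := h2.div_atTop hlog
  have h4 : Tendsto (fun ε : ℝ => Real.log ‖(ε : ℂ) ^ (-r) * LFun B ((m : ℂ) + 1 + ε)‖ /
      Real.log (1 / ε) - (r : ℝ)) (𝓝[>] 0) (𝓝 (0 - (r : ℝ))) := h3.sub_const _
  rw [zero_sub] at h4
  refine h4.congr' ?_
  have h5 := h1.eventually_ne ha
  filter_upwards [h5, self_mem_nhdsWithin, hlog.eventually_gt_atTop 0] with ε h6 h7 h8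
  have hε : (0 : ℝ) < ε := h7
  have h9 := mul_ne_zero_iff.1 h6
  rw [norm_mul, Real.log_mul (norm_ne_zero_iff.2 h9.1) (norm_ne_zero_iff.2 h9.2), norm_zpow,
    Real.log_zpow, Complex.norm_real, Real.norm_eq_abs, abs_of_pos hε]
  unfold size
  have h10 : Real.log ε = -Real.log (1 / ε) := by simp
  rw [h10]
  push_cast
  field_simp
  ring

theorem sp_le (p : ℕ) : |sp p| ≤ 1 := by
  unfold sp
  split_ifs <;> simp

theorem sp_sq (p : ℕ) : sp p * sp p = sp p := by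
  unfold sp
  split_ifs <;> simp

/-- the orthonormal system -/
noncomputable def ff2 (x : ℕ × ℕ) (p : Nat.Primes) : ℝ := XX (x.2 : ℤ) p * sp p * cc x.1 (bp p)

theorem ff2_le (x : ℕ × ℕ) (p : Nat.Primes) : |ff2 x p| ≤ 2 := by
  unfold ff2
  rw [abs_mul, abs_mul]
  have h1 := XX_abs_le (x.2 : ℤ) p
  have h2 := sp_le p
  have h3 := cc_abs_le x.1 (bp_le p)
  calc |XX (x.2 : ℤ) p| * |sp p| * |cc x.1 (bp p)| ≤ 1 * 1 * 2 := by
        gcongr
    _ = 2 := by norm_num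

variable {F : Filter ℝ} (hF : F ≤ 𝓝[>] 0)

include hF

theorem Lim_sp : Lim F (fun p => sp p) (1 / 2) := by
  have h := Lim_XX_sp hF (c := 1) one_pos
  rw [if_pos ⟨1, by norm_num⟩] at h
  refine Lim_congr hF (B := 1) (B' := 1) (fun p => ?_) (fun p => sp_le p) ?_ h
  · rw [abs_mul]
    exact mul_le_one₀ (XX_abs_le _ _) (abs_nonneg _) (sp_le p)
  · refine (fin_dvd (N := 2) (by norm_num)).subset ?_
    intro p hp
    by_contra h2
    apply hp
    have h3 := XX_sq_one (e := 1) (p := p) (by simpa using h2)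
    rw [one_mul] at h3
    rw [h3, one_mul]

theorem ff2_orth {x x' : ℕ × ℕ} (hx : Odd x.1 ∧ Squarefree x.2) (hx' : Odd x'.1 ∧ Squarefree x'.2) :
    Lim F (fun p => ff2 x p * ff2 x' p) (if x = x' then 1 else 0) := by
  have hc : (0 : ℤ) < (x.2 : ℤ) * (x'.2 : ℤ) := by
    have h1 : 0 < x.2 := Nat.pos_of_ne_zero hx.2.ne_zero
    have h2 : 0 < x'.2 := Nat.pos_of_ne_zero hx'.2.ne_zero
    positivity
  have h1 := Lim_cc hF hc ((x.1 : ℤ) + x'.1)
  have h2 := Lim_cc hF hc ((x.1 : ℤ) - x'.1)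
  have hb : ∀ (j : ℤ) (p : Nat.Primes), |XX ((x.2 : ℤ) * (x'.2 : ℤ)) p * sp p * cc j (bp p)| ≤ 2 := by
    intro j p
    rw [abs_mul, abs_mul]
    have := mul_le_mul (mul_le_mul (XX_abs_le ((x.2 : ℤ) * (x'.2 : ℤ)) p) (sp_le p) (abs_nonneg _)
      zero_le_one) (cc_abs_le j (bp_le p)) (abs_nonneg _) (by norm_num)
    linarith
  have h3 := Lim_add hF (hb _) (hb _) h1 h2
  have e : (fun p : Nat.Primes => ff2 x p * ff2 x' p) = fun p : Nat.Primes =>
      XX ((x.2 : ℤ) * (x'.2 : ℤ)) p * sp p * cc ((x.1 : ℤ) + x'.1) (bp p) +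
      XX ((x.2 : ℤ) * (x'.2 : ℤ)) p * sp p * cc ((x.1 : ℤ) - x'.1) (bp p) := by
    funext p
    unfold ff2
    rw [← Pool.Agent.H341R2.XX_mul_left]
    have h4 := cc_mul (x.1 : ℤ) (x'.1 : ℤ) (bp p)
    have h5 := sp_sq p
    calc _ = XX (x.2 : ℤ) p * XX (x'.2 : ℤ) p * (sp p * sp p) *
          (cc x.1 (bp p) * cc x'.1 (bp p)) := by ring
      _ = _ := by rw [h4, h5]; ring
  rw [e]
  convert h3 using 1
  have h6 : ¬ ((x.1 : ℤ) + x'.1 = 0 ∧ IsSquare ((x.2 : ℤ) * (x'.2 : ℤ))) := by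
    rintro ⟨h, _⟩
    have := hx.1.pos
    omega
  rw [if_neg h6, zero_add]
  by_cases h7 : x = x'
  · subst h7
    rw [if_pos rfl, if_pos ⟨sub_self _, ⟨_, rfl⟩⟩]
  · rw [if_neg h7, if_neg]
    rintro ⟨h8, h9⟩
    apply h7
    refine Prod.ext (by omega) ?_
    have h10 := Pool.Agent.H341R2.eq_of_isSquare_mul (Int.squarefree_natCast.2 hx.2)
      (Int.squarefree_natCast.2 hx'.2) h9
    exact_mod_cast h10

/-- **Bessel's inequality** -/
theorem bessel [F.NeBot] (t : Nat.Primes → ℝ) (b : ℝ) (ht : ∀ p, |t p| ≤ b)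
    (T : Finset (ℕ × ℕ)) (hT : ∀ x ∈ T, Odd x.1 ∧ Squarefree x.2) (y : ℕ × ℕ → ℝ)
    (hy : ∀ x ∈ T, Lim F (fun p => t p * (XX (x.2 : ℤ) p * cc x.1 (bp p))) (y x)) :
    2 * ∑ x ∈ T, (y x) ^ 2 ≤ b ^ 2 := by
  classical
  have hb0 : 0 ≤ b := (abs_nonneg _).trans (ht ⟨2, Nat.prime_two⟩)
  have hy' : ∀ x ∈ T, Lim F (fun p => t p * ff2 x p) (y x) := by
    intro x hx
    have e : (fun p => t p * ff2 x p) = fun p => t p * (XX (x.2 : ℤ) p * cc x.1 (bp p)) := by
      funext p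
      unfold ff2
      rw [XX_sp_cc _ p (hT x hx).1]
    rw [e]
    exact hy x hx
  have hbt : ∀ x p, |t p * ff2 x p| ≤ b * 2 := by
    intro x p
    rw [abs_mul]
    exact mul_le_mul (ht p) (ff2_le x p) (abs_nonneg _) hb0
  have hbf : ∀ x x' p, |ff2 x p * ff2 x' p| ≤ 2 * 2 := by
    intro x x' p
    rw [abs_mul]
    exact mul_le_mul (ff2_le x p) (ff2_le x' p) (abs_nonneg _) (by norm_num)
  have L1 : Lim F (fun p => b ^ 2 * sp p) (b ^ 2 * (1 / 2)) := Lim_const_mul _ (Lim_sp hF)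
  have L2 : Lim F (fun p => ∑ x ∈ T, (-2 * y x) * (t p * ff2 x p)) (∑ x ∈ T, (-2 * y x) * y x) :=
    Lim_sum hF T _ (fun x => |-2 * y x| * (b * 2)) _
      (fun x _ p => by rw [abs_mul]; exact mul_le_mul_of_nonneg_left (hbt x p) (abs_nonneg _))
      (fun x hx => Lim_const_mul _ (hy' x hx))
  have L3 : Lim F (fun p => ∑ x ∈ T, ∑ x' ∈ T, (y x * y x') * (ff2 x p * ff2 x' p))
      (∑ x ∈ T, ∑ x' ∈ T, (y x * y x') * (if x = x' then 1 else 0)) := by
    refine Lim_sum hF T _ (fun x => ∑ x' ∈ T, |y x * y x'| * (2 * 2)) _ (fun x _ p => ?_)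
      (fun x hx => Lim_sum hF T _ (fun x' => |y x * y x'| * (2 * 2)) _
        (fun x' _ p => by rw [abs_mul]; exact mul_le_mul_of_nonneg_left (hbf x x' p) (abs_nonneg _))
        (fun x' hx' => Lim_const_mul _ (ff2_orth hF (hT x hx) (hT x' hx'))))
    refine (Finset.abs_sum_le_sum_abs _ _).trans (Finset.sum_le_sum fun x' _ => ?_)
    rw [abs_mul]
    exact mul_le_mul_of_nonneg_left (hbf x x' p) (abs_nonneg _)
  have b1 : ∀ p : Nat.Primes, |b ^ 2 * sp p| ≤ b ^ 2 := by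
    intro p
    rw [abs_mul, abs_of_nonneg (sq_nonneg b)]
    exact mul_le_of_le_one_right (sq_nonneg b) (sp_le p)
  have b2 : ∀ p : Nat.Primes, |∑ x ∈ T, (-2 * y x) * (t p * ff2 x p)| ≤
      ∑ x ∈ T, |-2 * y x| * (b * 2) := by
    intro p
    refine (Finset.abs_sum_le_sum_abs _ _).trans (Finset.sum_le_sum fun x _ => ?_)
    rw [abs_mul]
    exact mul_le_mul_of_nonneg_left (hbt x p) (abs_nonneg _)
  have b3 : ∀ p : Nat.Primes, |∑ x ∈ T, ∑ x' ∈ T, (y x * y x') * (ff2 x p * ff2 x' p)| ≤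
      ∑ x ∈ T, ∑ x' ∈ T, |y x * y x'| * (2 * 2) := by
    intro p
    refine (Finset.abs_sum_le_sum_abs _ _).trans (Finset.sum_le_sum fun x _ => ?_)
    refine (Finset.abs_sum_le_sum_abs _ _).trans (Finset.sum_le_sum fun x' _ => ?_)
    rw [abs_mul]
    exact mul_le_mul_of_nonneg_left (hbf x x' p) (abs_nonneg _)
  have b12 : ∀ p : Nat.Primes, |b ^ 2 * sp p + ∑ x ∈ T, (-2 * y x) * (t p * ff2 x p)| ≤
      b ^ 2 + ∑ x ∈ T, |-2 * y x| * (b * 2) := fun p =>
    (abs_add_le _ _).trans (add_le_add (b1 p) (b2 p))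
  have L12 := Lim_add hF b1 b2 L1 L2
  have L123 := Lim_add hF b12 b3 L12 L3
  have hpos : ∀ p : Nat.Primes, 0 ≤ b ^ 2 * sp p + ∑ x ∈ T, (-2 * y x) * (t p * ff2 x p) +
      ∑ x ∈ T, ∑ x' ∈ T, (y x * y x') * (ff2 x p * ff2 x' p) := by
    intro p
    have e1 : (t p * sp p - ∑ x ∈ T, y x * ff2 x p) ^ 2 = t p ^ 2 * (sp p * sp p) +
        (∑ x ∈ T, (-2 * y x) * (t p * (sp p * ff2 x p)) +
        ∑ x ∈ T, ∑ x' ∈ T, (y x * y x') * (ff2 x p * ff2 x' p)) := by
      have e2 : (∑ x ∈ T, y x * ff2 x p) * (∑ x ∈ T, y x * ff2 x p) =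
          ∑ x ∈ T, ∑ x' ∈ T, (y x * y x') * (ff2 x p * ff2 x' p) := by
        rw [Finset.sum_mul_sum]
        refine Finset.sum_congr rfl fun x _ => Finset.sum_congr rfl fun x' _ => ?_
        ring
      have e3 : ∑ x ∈ T, (-2 * y x) * (t p * (sp p * ff2 x p)) =
          -2 * (t p * sp p) * ∑ x ∈ T, y x * ff2 x p := by
        rw [Finset.mul_sum]
        refine Finset.sum_congr rfl fun x _ => ?_
        ring
      rw [← e2, e3]
      ring
    have e4 : ∀ x : ℕ × ℕ, sp p * ff2 x p = ff2 x p := by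
      intro x
      unfold ff2
      have := sp_sq p
      calc sp p * (XX (x.2 : ℤ) p * sp p * cc x.1 (bp p)) =
          XX (x.2 : ℤ) p * (sp p * sp p) * cc x.1 (bp p) := by ring
        _ = _ := by rw [this]
    simp only [e4, sp_sq] at e1
    have e5 : t p ^ 2 * sp p ≤ b ^ 2 * sp p := by
      refine mul_le_mul_of_nonneg_right ?_ ?_
      · rw [← sq_abs]
        exact pow_le_pow_left₀ (abs_nonneg _) (ht p) 2
      · unfold sp; split_ifs <;> norm_num
    have e6 := sq_nonneg (t p * sp p - ∑ x ∈ T, y x * ff2 x p)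
    linarith
  have hge := ge_of_tendsto L123 (by
    filter_upwards [ev_lam hF] with ε h1
    exact div_nonneg (E_nonneg hpos) h1.le)
  have e7 : ∑ x ∈ T, ∑ x' ∈ T, (y x * y x') * (if x = x' then (1 : ℝ) else 0) =
      ∑ x ∈ T, y x ^ 2 := by
    refine Finset.sum_congr rfl fun x hx => ?_
    simp [hx, sq]
  have e8 : ∑ x ∈ T, (-2 * y x) * y x = -2 * ∑ x ∈ T, y x ^ 2 := by
    rw [Finset.mul_sum]
    refine Finset.sum_congr rfl fun x hx => ?_
    ring
  rw [e7, e8] at hge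
  linarith

end Pool.Agent.Y149.CM
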