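import Mathlib

set_option autoImplicit false

/-!
# Products with congruent number curves: definitions

`X` is a smooth projective variety over `ℚ` and `E_d : y² = x³ - d² x`, `d ≥ 1`, are the congruent
number curves.  These files are about the `L`-functions of the even cohomology groups of the varieties
`X × E_{d_1} × ⋯ × E_{d_k}` at the edge.
-/

namespace Pool.Agent.Y149.CM

open Filter Topology Polynomial

/-- The set `X` of homogeneous polynomials over `ℤ` in `n` variables gives a projective variety over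
`ℚ`.  For a finite field `κ` with `q` elements this is `(q - 1)` times the number of the points of
`X` with coordinates in `κ`: the number of the nonzero solutions of the equations in `κ^n`. -/
noncomputable def cone {n : ℕ} (X : Set (MvPolynomial (Fin n) ℤ)) (κ : Type) [Field κ] : ℕ :=
  Nat.card {u : Fin n → κ // u ≠ 0 ∧ ∀ f ∈ X, MvPolynomial.aeval u f = 0}

/-- For every `a` the multiset `β a` is the multiset of the eigenvalues of the geometric Frobenius at
the prime `p` on `H^a(X)`, for a variety `X` of dimension `D`: the elements of `β a` have absolute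
value `p^{a/2}`, `β a` is empty for `a > 2 D`, and for every field `κ` with `p ^ e` elements the number
of the points of `X` with coordinates in `κ` is `∑ (-1)^a ∑_{z ∈ β a} z^e`.  By the theorem of Deligne
such multisets exist at almost all primes if `X` is smooth; they are unique, and the number of the
elements of `β a` is the `a`-th Betti number of `X`. -/
structure IsFrobenius {n : ℕ} (X : Set (MvPolynomial (Fin n) ℤ)) (D p : ℕ)
    (β : ℕ → Multiset ℂ) : Prop where
  weight : ∀ a, ∀ z ∈ β a, ‖z‖ = (p : ℝ) ^ ((a : ℝ) / 2)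
  vanish : ∀ a, 2 * D < a → β a = 0
  count : ∀ (κ : Type) [Field κ] [Finite κ] (e : ℕ), Nat.card κ = p ^ e →
    (cone X κ : ℂ) = ((p : ℂ) ^ e - 1) *
      ∑ a ∈ Finset.range (2 * D + 1), (-1 : ℂ) ^ a * ((β a).map (fun z => z ^ e)).sum

/-- The trace of Frobenius of `E_d : y² = x³ - d² x` at `p`: it is `p` minus the number of the affine
points over the field with `p` elements. -/
noncomputable def traceE (d p : ℕ) : ℤ :=
  (p : ℤ) - Nat.card {P : ZMod p × ZMod p // P.2 ^ 2 = P.1 ^ 3 - (d : ZMod p) ^ 2 * P.1}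

/-- The eigenvalues of Frobenius on `H^0`, `H^1`, `H^2` of `E_d`: `1`, the two roots of
`T² - a_p T + p`, and `p`. -/
noncomputable def frobE (d p : ℕ) : ℕ → Multiset ℂ
  | 0 => {1}
  | 1 => (X ^ 2 - C ((traceE d p : ℤ) : ℂ) * X + C (p : ℂ)).roots
  | 2 => {(p : ℂ)}
  | _ => 0

/-- The Künneth formula: the eigenvalues on `H^n(Y × Z)`. -/
noncomputable def kunneth (β γ : ℕ → Multiset ℂ) (n : ℕ) : Multiset ℂ :=
  ∑ i ∈ Finset.HasAntidiagonal.antidiagonal n, (β i.1 ×ˢ γ i.2).map fun z => z.1 * z.2

/-- The eigenvalues of Frobenius on the cohomology of `X × E_{d_1} × ⋯ × E_{d_k}`, `β` those on the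
cohomology of `X`. -/
noncomputable def frobProd (β : ℕ → Multiset ℂ) (p : ℕ) : List ℕ → ℕ → Multiset ℂ
  | [] => β
  | d :: l => kunneth (frobProd β p l) (frobE d p)

/-- `B p`, `p` prime, are the Euler factors of `L(H^{2m}(X × E_{d_1} × ⋯ × E_{d_k}), s)`: for almost
all `p` they are `det(1 - Frob_p T) = ∏ (1 - α T)`; at the other primes `B p` is an arbitrary
polynomial, and no factor `1 / B_p(p^{-s})` has a pole at `s = m + 1`. -/
def IsEuler (β : Nat.Primes → ℕ → Multiset ℂ) (l : List ℕ) (m : ℕ) (B : Nat.Primes → ℂ[X]) : Prop :=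
  (∀ᶠ p : Nat.Primes in cofinite, ∀ z : ℂ,
    (B p).eval z = ((frobProd (β p) p l (2 * m)).map fun α => 1 - α * z).prod) ∧
  ∀ p : Nat.Primes, (B p).eval ((p : ℂ) ^ (-((m : ℂ) + 1))) ≠ 0

/-- The Euler product `∏_p B_p(p^{-s})⁻¹`. -/
noncomputable def LFun (B : Nat.Primes → ℂ[X]) (s : ℂ) : ℂ :=
  ∏' p : Nat.Primes, ((B p).eval ((p : ℂ) ^ (-s)))⁻¹

/-- `log |L(m + 1 + ε)| / log(1/ε)`. -/
noncomputable def size (m : ℕ) (B : Nat.Primes → ℂ[X]) (ε : ℝ) : ℝ :=
  Real.log ‖LFun B ((m : ℂ) + 1 + ε)‖ / Real.log (1 / ε)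

/-- `r = ord_{s = m + 1} L(s)`: the function `(s - m - 1)^{-r} L(s)` has a finite nonzero limit as
real `s → (m + 1)+`. -/
def HasOrder (m : ℕ) (B : Nat.Primes → ℂ[X]) (r : ℤ) : Prop :=
  ∃ a : ℂ, a ≠ 0 ∧ Tendsto (fun ε : ℝ => (ε : ℂ) ^ (-r) * LFun B ((m : ℂ) + 1 + ε)) (𝓝[>] 0) (𝓝 a)

/-- The rank of the group of the codimension `j` cycles on `E_{d_1} × ⋯ × E_{d_k}` modulo homological
equivalence: the sum over all subsets `A` of an even number `2t ≤ 2j` of the factors, such that the
product of the `d_i`, `i ∈ A`, is a square, of `C(k - 2t, j - t) C(2t - 1, t)` (for `t = 0` this is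
`C(k, j)`). -/
def rankE (l : List ℕ) (j : ℕ) : ℕ :=
  (l.sublists'.map fun A => if Even A.length ∧ A.length ≤ 2 * j ∧ IsSquare A.prod then
    (l.length - A.length).choose (j - A.length / 2) * (A.length - 1).choose (A.length / 2)
    else 0).sum

/-- `∑_j N_{2(m-j)} rank B^j(E_{d_1} × ⋯ × E_{d_k})`, `N_a` the Betti numbers of `X`: the rank of the
group generated by the products of cycles of `X` and of `E_{d_1} × ⋯ × E_{d_k}` in codimension
`m`, if all the even cohomology of `X` is generated by cycles over `ℚ`. -/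
def rankProd (N : ℕ → ℕ) (l : List ℕ) (m : ℕ) : ℕ :=
  ∑ j ∈ Finset.range (m + 1), N (2 * (m - j)) * rankE l j

/-- The contribution of the odd cohomology of `X` to the order: `y a j c` stands for the multiplicity
in `H^a(X)` of the two-dimensional representation with the traces `(c/p) (π^j + π̄^j)` (up to a Tate
twist), which `⊗_{i ∈ A} H^1(E_{d_i})` contains `C(|A|, (|A| - j)/2)` times, `c = ∏_{i ∈ A} d_i`. -/
def defect {R : Type} [CommRing R] (y : ℕ → ℕ → ℕ → R) (l : List ℕ) (m : ℕ) : R :=
  (l.sublists'.map fun A => ∑ a ∈ Finset.range (2 * m + 1),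
    if Odd a ∧ Odd A.length ∧ a + A.length ≤ 2 * m then
      ((l.length - A.length).choose ((2 * m - a - A.length) / 2) : R) *
        ∑ i ∈ Finset.range (A.length / 2 + 1),
          (A.length.choose i : R) * y a (A.length - 2 * i) A.prod
    else 0).sum

/-- The properties of the family `y`: for every odd `a` the sum of the squares of the `y a j c` over
all odd `j` and squarefree `c` is at most `N_a² / 2`, and `y a j c` depends only on `c` up to
squares. -/
structure IsMult (N : ℕ → ℕ) (y : ℕ → ℕ → ℕ → ℝ) : Prop where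
  bessel : ∀ a, Odd a → ∀ T : Finset (ℕ × ℕ), (∀ x ∈ T, Odd x.1 ∧ Squarefree x.2) →
    2 * ∑ x ∈ T, y a x.1 x.2 ^ 2 ≤ (N a : ℝ) ^ 2
  square : ∀ a j c e, Odd a → Odd j → 0 < c → 0 < e → y a j (c * e ^ 2) = y a j c

/-- No product of an odd number of members of the list is an element of `S` times a square of a
rational number. -/
def Avoids (S : Finset ℕ) (l : List ℕ) : Prop :=
  ∀ A : List ℕ, A.Sublist l → Odd A.length → ∀ s ∈ S, ¬ IsSquare (s * A.prod)

end Pool.Agent.Y149.CM
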