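import Pool.Agent.Y149.CM.IntL

set_option autoImplicit false

/-!
The final assembly.
-/

open Finset Filter Topology Complex Polynomial

namespace Pool.Agent.Y149.CM

open Pool.Agent.Helper919 (XX XX_apply XX_mod XX_mul XX_one XX_abs_le)
open Pool.Agent.H341R2 (E lam lam_tendsto)

/-- `y` is the family of the correlations along `F` -/
def YS (N : ℕ → ℕ) (β : Nat.Primes → ℕ → Multiset ℂ) (F : Filter ℝ) (y : ℕ → ℕ → ℕ → ℝ) : Prop :=
  ∀ a j c : ℕ, Odd a → Odd j → 0 < c →
    Lim F (fun p => uu N β a p * (XX (c : ℤ) p * cc j (bp p))) (y a j c)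

theorem corr_le (N : ℕ → ℕ) (β : Nat.Primes → ℕ → Multiset ℂ) (a : ℕ) (c j : ℤ) (p : Nat.Primes) :
    |uu N β a p * (XX c p * cc j (bp p))| ≤ N a * 2 := by
  rw [abs_mul, abs_mul]
  refine mul_le_mul (uu_le N β a p) ?_ (by positivity) (by positivity)
  have := mul_le_mul (XX_abs_le c p) (cc_abs_le j (bp_le p)) (abs_nonneg _) zero_le_one
  linarith

/-- along an ultrafilter all limits exist -/
theorem exists_lim (F : Ultrafilter ℝ) (hF : (F : Filter ℝ) ≤ 𝓝[>] 0) {φ : Nat.Primes → ℝ} {B : ℝ}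
    (hφ : ∀ p, |φ p| ≤ B) : ∃ x, Lim F φ x := by
  have h1 : ∀ᶠ ε in (F : Filter ℝ), E ε φ / lam ε ∈ Set.Icc (-B) B := by
    filter_upwards [ev_pos hF, ev_lam hF] with ε h2 h3
    have h4 := abs_E_le h2 hφ
    rw [Set.mem_Icc, ← abs_le, abs_div, abs_of_pos h3, div_le_iff₀ h3]
    exact h4
  obtain ⟨x, _, hx⟩ := isCompact_Icc.ultrafilter_le_nhds (F.map fun ε => E ε φ / lam ε)
    (by rw [le_principal_iff]; exact h1)
  exact ⟨x, hx⟩

theorem exists_YS (N : ℕ → ℕ) (β : Nat.Primes → ℕ → Multiset ℂ) (F : Ultrafilter ℝ)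
    (hF : (F : Filter ℝ) ≤ 𝓝[>] 0) : ∃ y, YS N β F y := by
  choose y hy using fun a j c : ℕ => exists_lim F hF (corr_le N β a (c : ℤ) (j : ℤ))
  exact ⟨y, fun a j c _ _ _ => hy a j c⟩

theorem Lim_square {F : Filter ℝ} (hF : F ≤ 𝓝[>] 0) {N : ℕ → ℕ}
    {β : Nat.Primes → ℕ → Multiset ℂ} {a j c e : ℕ} (he : 0 < e) {x : ℝ}
    (h : Lim F (fun p => uu N β a p * (XX (c : ℤ) p * cc j (bp p))) x) :
    Lim F (fun p => uu N β a p * (XX ((c * e ^ 2 : ℕ) : ℤ) p * cc j (bp p))) x := by
  refine Lim_congr hF (corr_le N β a (c : ℤ) (j : ℤ)) (corr_le N β a ((c * e ^ 2 : ℕ) : ℤ) (j : ℤ))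
    ?_ h
  refine (fin_dvd (N := 2 * e) (by omega)).subset ?_
  intro p hp
  by_contra h2
  apply hp
  have h3 : XX ((c * e ^ 2 : ℕ) : ℤ) p = XX (c : ℤ) p := by
    have h4 := XX_sq_one (e := (e : ℤ)) (p := p) (by simpa using h2)
    have h5 : ((c * e ^ 2 : ℕ) : ℤ) = (c : ℤ) * ((e : ℤ) * e) := by push_cast; ring
    rw [h5, ← Pool.Agent.H341R2.XX_mul_left, h4, mul_one]
  rw [h3]

theorem YS_mult {F : Filter ℝ} (hF : F ≤ 𝓝[>] 0) [F.NeBot] {N : ℕ → ℕ}
    {β : Nat.Primes → ℕ → Multiset ℂ} {y : ℕ → ℕ → ℕ → ℝ} (hy : YS N β F y) : IsMult N y where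
  bessel := by
    intro a ha T hT
    exact bessel hF (uu N β a) (N a) (uu_le N β a) T hT (fun x => y a x.1 x.2)
      fun x hx => hy a x.1 x.2 ha (hT x hx).1 (Nat.pos_of_ne_zero (hT x hx).2.ne_zero)
  square := by
    intro a j c e ha hj hc he
    exact tendsto_nhds_unique (hy a j (c * e ^ 2) ha hj (by positivity))
      (Lim_square hF he (hy a j c ha hj hc))

/-- the sizes -/
theorem YS_size {F : Filter ℝ} (hF : F ≤ 𝓝[>] 0) {N : ℕ → ℕ}
    {β : Nat.Primes → ℕ → Multiset ℂ} (hX : ∀ᶠ p : Nat.Primes in cofinite, XG N p (β p))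
    {y : ℕ → ℕ → ℕ → ℝ} (hy : YS N β F y) {l : List ℕ} (hl : ∀ d ∈ l, 0 < d) {m : ℕ}
    {B : Nat.Primes → ℂ[X]} (hB : IsEuler β l m B) :
    Tendsto (size m B) F (𝓝 ((rankProd N l m : ℝ) + defect y l m)) :=
  (size_iff hX hl hB hF _).2 (Lim_phi hF hX y hy hl m)

/-! ### counting the exceptional classes -/

/-- the exceptional classes -/
def exc (y : ℕ → ℕ → ℕ → ℝ) (δ : ℝ) : Set ℕ :=
  {c | Squarefree c ∧ ∃ a j, Odd a ∧ Odd j ∧ δ ≤ |y a j c|}

theorem exc_card {N : ℕ → ℕ} {D : ℕ} (hN : ∀ a, 2 * D < a → N a = 0) {y : ℕ → ℕ → ℕ → ℝ}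
    (hy : IsMult N y) {δ : ℝ} (hδ : 0 < δ) (T : Finset ℕ) (hT : (T : Set ℕ) ⊆ exc y δ) :
    2 * (T.card : ℝ) * δ ^ 2 ≤ ∑ a ∈ (range (2 * D + 1)).filter Odd, (N a : ℝ) ^ 2 := by
  classical
  have h0 : ∀ c ∈ T, ∃ a j, Odd a ∧ Odd j ∧ δ ≤ |y a j c| := fun c hc => (hT hc).2
  choose! fa fj ha hj hδy using h0
  have hfa : ∀ c ∈ T, fa c ∈ (range (2 * D + 1)).filter Odd := by
    intro c hc
    rw [Finset.mem_filter, Finset.mem_range]
    refine ⟨?_, ha c hc⟩
    by_contra h
    have h1 := hy.bessel (fa c) (ha c hc) {(fj c, c)} (by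
      intro x hx
      rw [Finset.mem_singleton] at hx
      subst hx
      exact ⟨hj c hc, (hT hc).1⟩)
    rw [hN (fa c) (by omega), Finset.sum_singleton] at h1
    have h2 := hδy c hc
    have h3 : 0 < |y (fa c) (fj c) c| := lt_of_lt_of_le hδ h2
    have h4 : 0 < y (fa c) (fj c) c ^ 2 := by
      rw [← sq_abs]; positivity
    norm_num at h1
    linarith
  have h1 : 2 * (T.card : ℝ) * δ ^ 2 ≤ 2 * ∑ c ∈ T, y (fa c) (fj c) c ^ 2 := by
    rw [mul_assoc, ← nsmul_eq_mul]
    refine mul_le_mul_of_nonneg_left ?_ (by norm_num)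
    refine Finset.card_nsmul_le_sum _ _ _ fun c hc => ?_
    rw [← sq_abs (y (fa c) (fj c) c)]
    exact pow_le_pow_left₀ hδ.le (hδy c hc) 2
  refine h1.trans ?_
  rw [← Finset.sum_fiberwise_of_maps_to hfa, Finset.mul_sum]
  refine Finset.sum_le_sum fun a haa => ?_
  have haodd : Odd a := (Finset.mem_filter.1 haa).2
  have h2 := hy.bessel a haodd ((T.filter fun c => fa c = a).image fun c => (fj c, c)) (by
    intro x hx
    rw [Finset.mem_image] at hx
    obtain ⟨c, hc, rfl⟩ := hx
    rw [Finset.mem_filter] at hc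
    exact ⟨hj c hc.1, (hT hc.1).1⟩)
  rw [Finset.sum_image (by
    intro c _ c' _ h
    exact (Prod.mk.inj h).2)] at h2
  refine le_trans (le_of_eq ?_) h2
  congr 1
  refine Finset.sum_congr rfl fun c hc => ?_
  rw [(Finset.mem_filter.1 hc).2]

theorem exc_finite {N : ℕ → ℕ} {D : ℕ} (hN : ∀ a, 2 * D < a → N a = 0) {y : ℕ → ℕ → ℕ → ℝ}
    (hy : IsMult N y) {δ : ℝ} (hδ : 0 < δ) : (exc y δ).Finite := by
  by_contra h
  have hinf : (exc y δ).Infinite := h
  obtain ⟨K, hK⟩ := exists_nat_gt ((∑ a ∈ (range (2 * D + 1)).filter Odd, (N a : ℝ) ^ 2) / (2 * δ ^ 2))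
  obtain ⟨T, hT, hc⟩ := hinf.exists_subset_card_eq K
  have h1 := exc_card hN hy hδ T hT
  rw [hc] at h1
  rw [div_lt_iff₀ (by positivity)] at hK
  linarith

/-! ### bound for the defect -/

theorem sum_choose_le (r : ℕ) (S : Finset ℕ) : ∑ i ∈ S, r.choose i ≤ 2 ^ r := by
  rw [← Nat.sum_range_choose]
  have h1 : ∑ i ∈ S, r.choose i = ∑ i ∈ S.filter (fun i => i ∈ range (r + 1)), r.choose i := by
    rw [Finset.sum_filter]
    refine Finset.sum_congr rfl fun i _ => ?_
    split_ifs with h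
    · rfl
    · rw [Finset.mem_range, not_lt] at h
      exact Nat.choose_eq_zero_of_lt (by omega)
  rw [h1]
  refine Finset.sum_le_sum_of_subset ?_
  intro i hi
  exact (Finset.mem_filter.1 hi).2

theorem sum_choose_le' (r j m : ℕ) : ∑ a ∈ (range (2 * m + 1)).filter
    (fun a => Odd a ∧ Odd j ∧ a + j ≤ 2 * m), r.choose ((2 * m - a - j) / 2) ≤ 2 ^ r := by
  classical
  rw [← Finset.sum_image (g := fun a => (2 * m - a - j) / 2) (f := fun i => r.choose i)]
  · exact sum_choose_le r _
  · intro a ha b hb h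
    simp only [Finset.coe_filter, Finset.mem_range, Set.mem_setOf_eq] at ha hb h
    obtain ⟨_, ⟨s, hs⟩, _, ha3⟩ := ha
    obtain ⟨_, ⟨t, ht⟩, _, hb3⟩ := hb
    omega

theorem odd_count (l : List ℕ) (hl : l ≠ []) :
    (l.sublists'.map fun A => if Odd A.length then (1 : ℝ) else 0).sum = 2 ^ (l.length - 1) := by
  cases l with
  | nil => exact absurd rfl hl
  | cons a l =>
    rw [List.sublists'_cons, List.map_append, List.sum_append, List.map_map, ← List.sum_map_add]
    have h1 : (l.sublists'.map fun A => (if Odd A.length then (1 : ℝ) else 0) +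
        ((fun A => if Odd A.length then (1 : ℝ) else 0) ∘ List.cons a) A) =
        l.sublists'.map fun _ => (1 : ℝ) := by
      refine List.map_congr_left fun A _ => ?_
      simp only [Function.comp_apply, List.length_cons]
      by_cases h : Odd A.length
      · rw [if_pos h, if_neg]
        · norm_num
        · rw [Nat.not_odd_iff_even]
          exact h.add_one
      · rw [if_neg h, if_pos]
        · norm_num
        · exact (Nat.not_odd_iff_even.1 h).add_one
    rw [h1, List.map_const', List.sum_replicate, List.length_sublists', List.length_cons,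
      Nat.add_sub_cancel]
    simp

theorem defect_le (y : ℕ → ℕ → ℕ → ℝ) (l : List ℕ) (m : ℕ) {δ : ℝ} (hδ : 0 ≤ δ)
    (h : ∀ A ∈ l.sublists', Odd A.length → ∀ a j, Odd a → Odd j → a ≤ 2 * m → j ≤ A.length →
      |y a j A.prod| ≤ δ) :
    |defect y l m| ≤ if l = [] then 0 else 4 ^ (l.length - 1) * δ := by
  split_ifs with hl
  · subst hl
    simp [defect]
  have h1 : |defect y l m| ≤ (l.sublists'.map fun A => (2 ^ (l.length - 1) * δ) *
      (if Odd A.length then (1 : ℝ) else 0)).sum := by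
    unfold defect
    refine list_sum_le _ _ _ fun A hA => ?_
    have hlen : A.length ≤ l.length := (List.mem_sublists'.1 hA).length_le
    by_cases hodd : Odd A.length
    · rw [if_pos hodd, mul_one]
      refine (Finset.abs_sum_le_sum_abs _ _).trans ?_
      have h2 : ∀ a ∈ range (2 * m + 1), |if Odd a ∧ Odd A.length ∧ a + A.length ≤ 2 * m then
          ((l.length - A.length).choose ((2 * m - a - A.length) / 2) : ℝ) *
            ∑ i ∈ Finset.range (A.length / 2 + 1),
              (A.length.choose i : ℝ) * y a (A.length - 2 * i) A.prod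
          else 0| ≤ if Odd a ∧ Odd A.length ∧ a + A.length ≤ 2 * m then
          ((l.length - A.length).choose ((2 * m - a - A.length) / 2) : ℝ) *
            (2 ^ (A.length - 1) * δ) else 0 := by
        intro a _
        split_ifs with h3
        · rw [abs_mul, Nat.abs_cast]
          refine mul_le_mul_of_nonneg_left ?_ (by positivity)
          obtain ⟨s, hs⟩ := hodd
          have hs2 : A.length / 2 = s := by omega
          have hs3 : A.length - 1 = 2 * s := by omega
          refine (Finset.abs_sum_le_sum_abs _ _).trans ?_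
          have h4 : ∀ i ∈ range (A.length / 2 + 1),
              |(A.length.choose i : ℝ) * y a (A.length - 2 * i) A.prod| ≤
              (A.length.choose i : ℝ) * δ := by
            intro i hi
            rw [abs_mul, Nat.abs_cast]
            refine mul_le_mul_of_nonneg_left ?_ (by positivity)
            have := Finset.mem_range.1 hi
            exact h A hA ⟨s, hs⟩ a _ h3.1 ⟨s - i, by omega⟩ (by omega) (by omega)
          refine (Finset.sum_le_sum h4).trans ?_
          rw [← Finset.sum_mul, hs2, hs3, hs]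
          refine mul_le_mul_of_nonneg_right ?_ hδ
          have h5 := Nat.sum_range_choose_halfway s
          have h6 : ∑ i ∈ range (s + 1), ((2 * s + 1).choose i : ℝ) = 4 ^ s := by
            exact_mod_cast h5
          rw [h6, pow_mul]
          norm_num
        · simp
      refine (Finset.sum_le_sum h2).trans ?_
      rw [← Finset.sum_filter, ← Finset.sum_mul]
      have h7 := sum_choose_le' (l.length - A.length) A.length m
      have h8 : (∑ a ∈ (range (2 * m + 1)).filter (fun a => Odd a ∧ Odd A.length ∧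
          a + A.length ≤ 2 * m), ((l.length - A.length).choose ((2 * m - a - A.length) / 2) : ℝ)) ≤
          2 ^ (l.length - A.length) := by exact_mod_cast h7
      have h9 : (2 : ℝ) ^ (l.length - 1) = 2 ^ (l.length - A.length) * 2 ^ (A.length - 1) := by
        rw [← pow_add]
        congr 1
        have := hodd.pos
        omega
      rw [h9, mul_assoc]
      exact mul_le_mul_of_nonneg_right h8 (by positivity)
    · rw [if_neg hodd, mul_zero]
      rw [Finset.sum_eq_zero]
      · simp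
      · intro a _
        rw [if_neg (fun h3 => hodd h3.2.1)]
  refine h1.trans (le_of_eq ?_)
  rw [List.sum_map_mul_left, odd_count l hl]
  have h10 : (4 : ℝ) ^ (l.length - 1) = 2 ^ (l.length - 1) * 2 ^ (l.length - 1) := by
    rw [← mul_pow]; norm_num
  rw [h10]
  ring

/-- if the list avoids the exceptional classes then the correlations are small -/
theorem small_of_avoids {N : ℕ → ℕ} {y : ℕ → ℕ → ℕ → ℝ} (hy : IsMult N y) {δ : ℝ}
    {S : Finset ℕ} (hS : (S : Set ℕ) = exc y δ) {l : List ℕ} (hl : ∀ d ∈ l, 0 < d)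
    (hav : Avoids S l) : ∀ A ∈ l.sublists', Odd A.length → ∀ a j, Odd a → Odd j →
      |y a j A.prod| < δ := by
  intro A hA hodd a j ha hj
  have hpos := prod_pos_of_sublist hl hA
  obtain ⟨s, b, hb, hs⟩ := Nat.sq_mul_squarefree A.prod
  have hb0 : 0 < b := by
    rcases Nat.eq_zero_or_pos b with h | h
    · rw [h] at hb
      simp at hb
      omega
    · exact h
  have h1 : y a j A.prod = y a j s := by
    rw [← hb, mul_comm]
    exact hy.square a j s b ha hj (Nat.pos_of_ne_zero hs.ne_zero) hb0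
  rw [h1]
  by_contra hc
  rw [not_lt] at hc
  have h2 : s ∈ (S : Set ℕ) := by
    rw [hS]
    exact ⟨hs, a, j, ha, hj, hc⟩
  refine hav A (List.mem_sublists'.1 hA) hodd s (Finset.mem_coe.1 h2) ⟨s * b, ?_⟩
  rw [← hb]
  ring

theorem ex_lt {α : Type*} (T : Finset α) (f : α → ℝ) {δ : ℝ} (h0 : 0 < δ)
    (h : ∀ x ∈ T, f x < δ) : ∃ δ', 0 ≤ δ' ∧ δ' < δ ∧ ∀ x ∈ T, f x ≤ δ' := by
  classical
  induction T using Finset.induction_on with
  | empty => exact ⟨0, le_rfl, h0, by simp⟩
  | insert a T ha ih =>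
    obtain ⟨δ', h1, h2, h3⟩ := ih fun x hx => h x (Finset.mem_insert_of_mem hx)
    refine ⟨max δ' (f a), le_max_of_le_left h1, max_lt h2 (h a (Finset.mem_insert_self _ _)), ?_⟩
    intro x hx
    rw [Finset.mem_insert] at hx
    rcases hx with rfl | hx
    · exact le_max_right _ _
    · exact (h3 x hx).trans (le_max_left _ _)

/-- the defect of a list that avoids the exceptional classes -/
theorem defect_lt {N : ℕ → ℕ} {y : ℕ → ℕ → ℕ → ℝ} (hy : IsMult N y) (k : ℕ)
    {S : Finset ℕ} (hS : (S : Set ℕ) = exc y ((4 ^ (k - 1))⁻¹)) {l : List ℕ} (hk : l.length = k)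
    (hl : ∀ d ∈ l, 0 < d) (hav : Avoids S l) (m : ℕ) : |defect y l m| < 1 := by
  classical
  have hδ : (0 : ℝ) < (4 ^ (k - 1))⁻¹ := by positivity
  have h1 := small_of_avoids hy hS hl hav
  obtain ⟨δ', h2, h3, h4⟩ := ex_lt (l.sublists'.toFinset ×ˢ (range (2 * m + 1) ×ˢ range (k + 1)))
    (fun x : List ℕ × (ℕ × ℕ) => if Odd x.1.length ∧ Odd x.2.1 ∧ Odd x.2.2 then
      |y x.2.1 x.2.2 x.1.prod| else 0) hδ (by
      rintro ⟨A, a, j⟩ hx
      rw [Finset.mem_product, List.mem_toFinset] at hx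
      simp only
      split_ifs with h
      · exact h1 A hx.1 h.1 a j h.2.1 h.2.2
      · exact hδ)
  have h5 := defect_le y l m h2 (by
    intro A hA hodd a j ha hj ham hjA
    have hlen : A.length ≤ l.length := (List.mem_sublists'.1 hA).length_le
    have h6 := h4 (A, a, j) (by
      rw [Finset.mem_product, List.mem_toFinset, Finset.mem_product, Finset.mem_range,
        Finset.mem_range]
      exact ⟨hA, show a < 2 * m + 1 by omega, show j < k + 1 by omega⟩)
    simp only at h6
    rwa [if_pos ⟨hodd, ha, hj⟩] at h6)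
  refine h5.trans_lt ?_
  split_ifs
  · exact one_pos
  · rw [hk]
    calc (4 : ℝ) ^ (k - 1) * δ' < 4 ^ (k - 1) * (4 ^ (k - 1))⁻¹ :=
          mul_lt_mul_of_pos_left h3 (by positivity)
      _ = 1 := mul_inv_cancel₀ (by positivity)

/-- if the family vanishes at the products then the defect is zero -/
theorem defect_zero {N : ℕ → ℕ} {y : ℕ → ℕ → ℕ → ℤ} (hy : IsMult N fun a j c => (y a j c : ℝ))
    {S : Finset ℕ} (hS : (S : Set ℕ) = exc (fun a j c => (y a j c : ℝ)) 1) {l : List ℕ}
    (hl : ∀ d ∈ l, 0 < d) (hav : Avoids S l) (m : ℕ) :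
    defect (fun a j c => (y a j c : ℝ)) l m = 0 := by
  have h1 := small_of_avoids hy hS hl hav
  have h5 := defect_le (fun a j c => (y a j c : ℝ)) l m le_rfl (by
    intro A hA hodd a j ha hj _ _
    have h2 := h1 A hA hodd a j ha hj
    have h3 : y a j A.prod = 0 := by
      have h4 : |y a j A.prod| < 1 := by exact_mod_cast h2
      exact Int.abs_lt_one_iff.1 h4
    rw [h3]
    simp)
  rw [mul_zero, ite_self] at h5
  exact abs_nonpos_iff.1 h5

theorem defect_cast (y : ℕ → ℕ → ℕ → ℤ) (l : List ℕ) (m : ℕ) :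
    ((defect y l m : ℤ) : ℝ) = defect (fun a j c => (y a j c : ℝ)) l m := by
  unfold defect
  rw [Int.cast_list_sum, List.map_map]
  congr 1
  refine List.map_congr_left fun A _ => ?_
  simp only [Function.comp_apply]
  push_cast
  refine Finset.sum_congr rfl fun a _ => ?_
  split_ifs
  · rfl
  · rfl

end Pool.Agent.Y149.CM
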