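import Pool.Agent.Y149.CM.Asm2

set_option autoImplicit false

/-!
Integrality of the correlations if the orders for the odd powers exist.
-/

open Finset Filter Topology Complex Polynomial

namespace Pool.Agent.Y149.CM

open Pool.Agent.Helper919 (XX XX_apply XX_mod XX_mul XX_one XX_abs_le)
open Pool.Agent.H341R2 (E lam)

/-- the limit exists and is an integer -/
def IL (F : Filter ℝ) (φ : Nat.Primes → ℝ) : Prop := ∃ z : ℤ, Lim F φ z

theorem XX_tri (D : ℤ) (n : ℕ) : XX D n = 0 ∨ XX D n = 1 ∨ XX D n = -1 := by
  rw [XX_apply]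
  split_ifs with h
  · have : NeZero n := ⟨h.pos.ne'⟩
    rcases jacobiSym.trichotomy D n with h | h | h <;> rw [h] <;> simp
  · exact Or.inl rfl

theorem XX_pow_odd (D : ℤ) (n : ℕ) {k : ℕ} (hk : Odd k) : XX (D ^ k) n = XX D n := by
  have h1 : ∀ k, XX (D ^ (k + 1)) n = XX D n ^ (k + 1) := by
    intro k
    induction k with
    | zero => simp
    | succ k ih =>
      rw [pow_succ, ← Pool.Agent.H341R2.XX_mul_left, ih, pow_succ]
      ring
  obtain ⟨s, rfl⟩ := hk
  rw [h1]
  rcases XX_tri D n with h | h | h <;> rw [h]
  · simp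
  · simp
  · rw [pow_succ, pow_mul]
    norm_num

theorem xA_replicate (d k : ℕ) (hk : Odd k) (p : ℕ) :
    xA (List.replicate k d) p = XX (d : ℤ) p * bp p ^ k := by
  unfold xA
  rw [List.prod_replicate, List.length_replicate]
  push_cast
  rw [XX_pow_odd _ _ hk]

variable {F : Filter ℝ} (hF : F ≤ 𝓝[>] 0)

include hF

theorem IL_zero : IL F (fun _ => 0) := ⟨0, by simpa using Lim_zero hF⟩

theorem IL_add {φ ψ : Nat.Primes → ℝ} {B B' : ℝ} (hφ : ∀ p, |φ p| ≤ B)
    (hψ : ∀ p, |ψ p| ≤ B') (h1 : IL F φ) (h2 : IL F ψ) : IL F (fun p => φ p + ψ p) := by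
  obtain ⟨a, ha⟩ := h1
  obtain ⟨b, hb⟩ := h2
  exact ⟨a + b, by push_cast; exact Lim_add hF hφ hψ ha hb⟩

omit hF in
theorem IL_mul {φ : Nat.Primes → ℝ} (c : ℤ) (h1 : IL F φ) : IL F (fun p => (c : ℝ) * φ p) := by
  obtain ⟨a, ha⟩ := h1
  exact ⟨c * a, by push_cast; exact Lim_const_mul _ ha⟩

theorem IL_sub {φ ψ : Nat.Primes → ℝ} {B B' : ℝ} (hφ : ∀ p, |φ p| ≤ B)
    (hψ : ∀ p, |ψ p| ≤ B') (h1 : IL F φ) (h2 : IL F ψ) : IL F (fun p => φ p - ψ p) := by
  have h3 := IL_add hF (B := B) (B' := B') hφ (ψ := fun p => ((-1 : ℤ) : ℝ) * ψ p)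
    (fun p => by push_cast; rw [neg_one_mul, abs_neg]; exact hψ p) h1 (IL_mul (-1) h2)
  have e : (fun p => φ p + ((-1 : ℤ) : ℝ) * ψ p) = fun p => φ p - ψ p := by
    funext p; push_cast; ring
  rwa [e] at h3

theorem IL_list {ι : Type*} (L : List ι) (f : ι → Nat.Primes → ℝ) (B : ι → ℝ)
    (hb : ∀ A ∈ L, ∀ p, |f A p| ≤ B A) (h : ∀ A ∈ L, IL F (f A)) :
    IL F (fun p => (L.map fun A => f A p).sum) := by
  induction L with
  | nil => simpa using IL_zero hF
  | cons a L ih =>
    simp only [List.map_cons, List.sum_cons]
    exact IL_add hF (B := B a) (B' := (L.map B).sum) (hb a (by simp))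
      (fun p => list_sum_le L _ _ fun A hA => hb A (by simp [hA]) p) (h a (by simp))
      (ih (fun A hA => hb A (by simp [hA])) fun A hA => h A (by simp [hA]))

/-- all sublists but the full one -/
theorem IL_sublists (l : List ℕ) (f : List ℕ → Nat.Primes → ℝ) (B : List ℕ → ℝ)
    (hb : ∀ A p, |f A p| ≤ B A) (h : ∀ A ∈ l.sublists', A.length < l.length → IL F (f A)) :
    IL F (fun p => (l.sublists'.map fun A => f A p).sum - f l p) := by
  induction l generalizing f B with
  | nil =>
    have e : (fun p : Nat.Primes => (([] : List ℕ).sublists'.map fun A => f A p).sum - f [] p) =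
        fun _ => 0 := by
      funext p
      simp
    rw [e]
    exact IL_zero hF
  | cons a l ih =>
    have e : (fun p : Nat.Primes => (((a :: l) : List ℕ).sublists'.map fun A => f A p).sum -
        f (a :: l) p) = fun p : Nat.Primes => (l.sublists'.map fun A => f A p).sum +
        ((l.sublists'.map fun A => f (a :: A) p).sum - f (a :: l) p) := by
      funext p
      rw [List.sublists'_cons, List.map_append, List.sum_append, List.map_map, add_sub_assoc]
      rfl
    rw [e]
    refine IL_add hF (B := (l.sublists'.map B).sum)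
      (B' := (l.sublists'.map fun A => B (a :: A)).sum + B (a :: l)) ?_ ?_ ?_ ?_
    · intro p
      exact list_sum_le _ _ _ fun A _ => hb A p
    · intro p
      exact (abs_sub _ _).trans (add_le_add (list_sum_le _ _ _ fun A _ => hb (a :: A) p)
        (hb (a :: l) p))
    · refine IL_list hF _ _ B (fun A _ p => hb A p) fun A hA => ?_
      have hlen : A.length ≤ l.length := (List.mem_sublists'.1 hA).length_le
      refine h A ?_ ?_
      · rw [List.mem_sublists'] at hA ⊢
        exact hA.trans (List.sublist_cons_self a l)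
      · rw [List.length_cons]; omega
    · refine ih (fun A => f (a :: A)) (fun A => B (a :: A)) (fun A p => hb (a :: A) p)
        fun A hA hlt => ?_
      refine h (a :: A) ?_ ?_
      · rw [List.mem_sublists'] at hA ⊢
        exact hA.cons_cons a
      · rw [List.length_cons, List.length_cons]; omega

/-- the moments are integers -/
theorem IL_moment {N : ℕ → ℕ} {β : Nat.Primes → ℕ → Multiset ℂ}
    (hX : ∀ᶠ p : Nat.Primes in cofinite, XG N p (β p)) {d : ℕ} (hd : 0 < d)
    (H : ∀ k, Odd k → ∀ m, IL F (phi N β (List.replicate k d) (2 * m))) (k : ℕ) :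
    Odd k → ∀ a, Odd a → IL F (fun p => uu N β a p * (XX (d : ℤ) p * bp p ^ k)) := by
  induction k using Nat.strong_induction_on with
  | _ k ih =>
    intro hk a ha
    obtain ⟨m, hm⟩ : ∃ m, 2 * m = a + k := by
      obtain ⟨r, hr⟩ := ha
      obtain ⟨s, hs⟩ := hk
      exact ⟨r + s + 1, by omega⟩
    set l := List.replicate k d with hl
    have hlen : l.length = k := List.length_replicate
    set f : List ℕ → Nat.Primes → ℝ := fun A p => xA A p * ∑ a' ∈ range (2 * m + 1),
      uu N β a' p * (VV (k - A.length) A.length (2 * m) a' : ℕ) with hf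
    have hb : ∀ A p, |f A p| ≤ 2 ^ A.length * ∑ a' ∈ range (2 * m + 1),
        (N a' : ℝ) * (VV (k - A.length) A.length (2 * m) a' : ℕ) :=
      fun A p => A_bound hF N β (2 * m) k A p
    have hmain := H k hk m
    have e1 : phi N β l (2 * m) = fun p => (l.sublists'.map fun A => f A p).sum := by
      funext p
      unfold phi
      rw [hlen]
    rw [← hl, e1] at hmain
    have hprop : ∀ A ∈ l.sublists', A.length < l.length → IL F (f A) := by
      intro A hA hlt
      rw [hlen] at hlt
      have hA' := List.mem_sublists'.1 hA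
      rw [hl, List.sublist_replicate_iff] at hA'
      obtain ⟨j, hj, rfl⟩ := hA'
      rw [List.length_replicate] at hlt
      have hApos : 0 < (List.replicate j d).prod := by
        rw [List.prod_replicate]; positivity
      have key : ∀ a', VV (k - (List.replicate j d).length) (List.replicate j d).length (2 * m) a' ≠ 0 →
          IL F (fun p => uu N β a' p * xA (List.replicate j d) p) := by
        intro a' h0
        rw [List.length_replicate] at h0
        unfold VV at h0
        split_ifs at h0 with h1
        · obtain ⟨h2, s, hs⟩ := h1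
          rcases Nat.even_or_odd j with hje | hjo
          · have ha' : Even a' := by
              obtain ⟨t, ht⟩ := hje
              exact ⟨m - s - t, by omega⟩
            refine ⟨(N a' : ℤ) * (if IsSquare (List.replicate j d).prod then
              ((((List.replicate j d).length - 1).choose ((List.replicate j d).length / 2) : ℕ) : ℤ)
                else 0), ?_⟩
            have h3 := Lim_term_even hF hX hApos (a := a')
              (by rw [List.length_replicate]; exact hje) ha'
            convert h3 using 1
            push_cast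
            rfl
          · have ha' : Odd a' := by
              obtain ⟨t, ht⟩ := hjo
              exact ⟨m - s - t - 1, by omega⟩
            have h3 := ih j hlt hjo a' ha'
            have e2 : (fun p : Nat.Primes => uu N β a' p * xA (List.replicate j d) p) =
                fun p : Nat.Primes => uu N β a' p * (XX (d : ℤ) p * bp p ^ j) := by
              funext p
              rw [xA_replicate d j hjo]
            rw [e2]
            exact h3
        · exact absurd rfl h0
      classical
      choose! z hz using key
      refine ⟨∑ a' ∈ range (2 * m + 1), (VV (k - (List.replicate j d).length)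
        (List.replicate j d).length (2 * m) a' : ℤ) * z a', ?_⟩
      have h4 := Lim_A hF (2 * m) k (A := List.replicate j d) (fun a' => (z a' : ℝ)) hz
      convert h4 using 1
      push_cast
      rfl
    have h5 := IL_sublists hF l f _ hb hprop
    have h6 := IL_sub hF (B := (l.sublists'.map fun A => 2 ^ A.length * ∑ a' ∈ range (2 * m + 1),
        (N a' : ℝ) * (VV (k - A.length) A.length (2 * m) a' : ℕ)).sum)
      (B' := (l.sublists'.map fun A => 2 ^ A.length * ∑ a' ∈ range (2 * m + 1),
        (N a' : ℝ) * (VV (k - A.length) A.length (2 * m) a' : ℕ)).sum + 2 ^ l.length *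
        ∑ a' ∈ range (2 * m + 1), (N a' : ℝ) * (VV (k - l.length) l.length (2 * m) a' : ℕ))
      (fun p => list_sum_le _ _ _ fun A _ => hb A p)
      (fun p => (abs_sub _ _).trans (add_le_add (list_sum_le _ _ _ fun A _ => hb A p) (hb l p)))
      hmain h5
    have e3 : (fun p : Nat.Primes => (l.sublists'.map fun A => f A p).sum -
        ((l.sublists'.map fun A => f A p).sum - f l p)) =
        fun p : Nat.Primes => uu N β a p * (XX (d : ℤ) p * bp p ^ k) := by
      funext p
      rw [sub_sub_cancel, hf]
      simp only
      rw [hlen, Nat.sub_self, hl, xA_replicate d k hk, Finset.sum_eq_single a]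
      · unfold VV
        rw [if_pos ⟨by omega, by rw [show 2 * m - a - k = 0 by omega]; exact Even.zero⟩,
          show 2 * m - a - k = 0 by omega]
        simp
        ring
      · intro a' _ hne
        unfold VV
        split_ifs with h1
        · obtain ⟨h2, s, hs⟩ := h1
          rw [Nat.choose_eq_zero_of_lt (by omega)]
          simp
        · simp
      · intro h1
        exact absurd (Finset.mem_range.2 (by omega)) h1
    rwa [e3] at h6

/-- the correlations with the Chebyshev polynomials are integers -/
theorem IL_cc {N : ℕ → ℕ} {β : Nat.Primes → ℕ → Multiset ℂ} {d a : ℕ}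
    (H : ∀ k, Odd k → IL F (fun p => uu N β a p * (XX (d : ℤ) p * bp p ^ k))) (n : ℕ) :
    (∀ r, Odd (n + r) → IL F (fun p => uu N β a p * (XX (d : ℤ) p * (bp p ^ r * cc n (bp p))))) ∧
    (∀ r, Odd (n + 1 + r) →
      IL F (fun p => uu N β a p * (XX (d : ℤ) p * (bp p ^ r * cc ((n : ℤ) + 1) (bp p))))) := by
  induction n with
  | zero =>
    constructor
    · intro r hr
      have h1 := IL_mul 2 (H r (by simpa using hr))
      have e : (fun p : Nat.Primes => ((2 : ℤ) : ℝ) * (uu N β a p * (XX (d : ℤ) p * bp p ^ r))) =
          fun p : Nat.Primes => uu N β a p *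
            (XX (d : ℤ) p * (bp p ^ r * cc ((0 : ℕ) : ℤ) (bp p))) := by
        funext p
        rw [Nat.cast_zero, cc_zero]
        push_cast
        ring
      rwa [e] at h1
    · intro r hr
      have h1 := H (r + 1) (by rwa [zero_add, add_comm] at hr)
      have e : (fun p : Nat.Primes => uu N β a p * (XX (d : ℤ) p * bp p ^ (r + 1))) =
          fun p : Nat.Primes => uu N β a p *
            (XX (d : ℤ) p * (bp p ^ r * cc (((0 : ℕ) : ℤ) + 1) (bp p))) := by
        funext p
        rw [Nat.cast_zero, zero_add, cc_one, pow_succ]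
      rwa [e] at h1
  | succ n ih =>
    constructor
    · intro r hr
      have := ih.2 r hr
      push_cast
      exact this
    · intro r hr
      have h1 := ih.2 (r + 1) (by
        have : n + 1 + (r + 1) = n + 1 + 1 + r := by ring
        rwa [this])
      have h2 := ih.1 r (by
        obtain ⟨s, hs⟩ := hr
        exact ⟨s - 1, by omega⟩)
      have hb : ∀ (r : ℕ) (j : ℤ) (p : Nat.Primes),
          |uu N β a p * (XX (d : ℤ) p * (bp p ^ r * cc j (bp p)))| ≤ N a * (1 * (2 ^ r * 2)) := by
        intro r j p
        rw [abs_mul, abs_mul, abs_mul, abs_pow]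
        refine mul_le_mul (uu_le N β a p) ?_ (by positivity) (by positivity)
        refine mul_le_mul (XX_abs_le _ _) ?_ (by positivity) zero_le_one
        exact mul_le_mul (pow_le_pow_left₀ (abs_nonneg _) (bp_le p) _) (cc_abs_le _ (bp_le p))
          (abs_nonneg _) (by positivity)
      have h3 := IL_sub hF (hb _ _) (hb _ _) h1 h2
      have e : (fun p : Nat.Primes =>
          uu N β a p * (XX (d : ℤ) p * (bp p ^ (r + 1) * cc ((n : ℤ) + 1) (bp p))) -
          uu N β a p * (XX (d : ℤ) p * (bp p ^ r * cc (n : ℤ) (bp p)))) =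
          fun p : Nat.Primes => uu N β a p *
            (XX (d : ℤ) p * (bp p ^ r * cc (((n + 1 : ℕ) : ℤ) + 1) (bp p))) := by
        funext p
        have e2 : ((n + 1 : ℕ) : ℤ) + 1 = (n : ℤ) + 2 := by push_cast; ring
        rw [e2, cc_add_two]
        ring
      rwa [e] at h3

end Pool.Agent.Y149.CM
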