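import Pool.Agent.Y149.CM.Local

set_option autoImplicit false

/-!
Traces of Frobenius on the cohomology of `X × E_{d_1} × ⋯ × E_{d_k}`.
-/

open Finset Filter Topology Complex

namespace Pool.Agent.Y149.CM

open Pool.Agent.Helper919 (XX XX_apply XX_mod XX_mul XX_one XX_abs_le)

/-- normalised trace -/
noncomputable def nt (p : ℕ) (γ : ℕ → Multiset ℂ) (n : ℕ) : ℂ :=
  (γ n).sum / ((Real.sqrt p : ℝ) : ℂ) ^ n

theorem sum_product (s t : Multiset ℂ) :
    ((s ×ˢ t).map fun z => z.1 * z.2).sum = s.sum * t.sum := by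
  induction s using Multiset.induction_on with
  | empty => simp
  | cons a s ih =>
    rw [Multiset.cons_product, Multiset.map_add, Multiset.sum_add, ih, Multiset.map_map,
      Multiset.sum_cons, add_mul]
    congr 1
    simp only [Function.comp_def]
    rw [Multiset.sum_map_mul_left, Multiset.map_id']

theorem sum_kunneth (β γ : ℕ → Multiset ℂ) (n : ℕ) : (kunneth β γ n).sum =
    ∑ i ∈ HasAntidiagonal.antidiagonal n, (β i.1).sum * (γ i.2).sum := by
  unfold kunneth
  rw [← Multiset.coe_sumAddMonoidHom, map_sum]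
  refine Finset.sum_congr rfl fun i _ => ?_
  rw [Multiset.coe_sumAddMonoidHom, sum_product]

theorem nt_kunneth (p : ℕ) (β γ : ℕ → Multiset ℂ) (n : ℕ) : nt p (kunneth β γ) n =
    ∑ i ∈ HasAntidiagonal.antidiagonal n, nt p β i.1 * nt p γ i.2 := by
  unfold nt
  rw [sum_kunneth, Finset.sum_div]
  refine Finset.sum_congr rfl fun i hi => ?_
  rw [← mem_antidiagonal.1 hi, pow_add, div_mul_div_comm]

/-- generating series of the normalised traces -/
noncomputable def Gs (p : ℕ) (γ : ℕ → Multiset ℂ) : PowerSeries ℂ := PowerSeries.mk (nt p γ)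

theorem Gs_kunneth (p : ℕ) (β γ : ℕ → Multiset ℂ) : Gs p (kunneth β γ) = Gs p β * Gs p γ := by
  ext n
  rw [PowerSeries.coeff_mul, Gs, PowerSeries.coeff_mk, nt_kunneth]
  simp [Gs]

/-- the primes that are good for the list -/
def Gd (l : List ℕ) (p : Nat.Primes) : Prop := ∀ d ∈ l, ¬ (p : ℕ) ∣ 2 * d

theorem Gs_frobE {d : ℕ} (p : Nat.Primes) (h : ¬ (p : ℕ) ∣ 2 * d) :
    Gs p (frobE d p) = PowerSeries.C ((XX d p * bp p : ℝ) : ℂ) * PowerSeries.X +
      (1 + PowerSeries.X ^ 2) := by
  have hp0 : (0 : ℝ) < (p : ℕ) := by exact_mod_cast p.2.pos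
  obtain ⟨u, v, h1, h2, h3, h4, h5⟩ := frobE_one p h
  ext n
  rw [Gs, PowerSeries.coeff_mk]
  have hX2 : ∀ n, PowerSeries.coeff n (PowerSeries.X ^ 2 : PowerSeries ℂ) = if n = 2 then 1 else 0 :=
    fun n => PowerSeries.coeff_X_pow n 2
  have hX1 : ∀ n, PowerSeries.coeff n (PowerSeries.X : PowerSeries ℂ) = if n = 1 then 1 else 0 :=
    fun n => PowerSeries.coeff_X n
  rw [map_add, map_add, PowerSeries.coeff_C_mul, hX1, hX2, PowerSeries.coeff_one]
  unfold nt
  match n with
  | 0 => simp [frobE]
  | 1 =>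
    rw [h1]
    simp only [Multiset.insert_eq_cons, Multiset.sum_cons, Multiset.sum_singleton, pow_one]
    rw [h2, ← traceE_div p h]
    push_cast
    simp
  | 2 =>
    simp only [frobE, Multiset.sum_singleton]
    have h7 : ((Real.sqrt (p : ℕ) : ℝ) : ℂ) ^ 2 = (p : ℕ) := by
      rw [← Complex.ofReal_pow, Real.sq_sqrt hp0.le]
      simp
    rw [h7, div_self (by exact_mod_cast p.2.ne_zero)]
    simp
  | (k + 3) =>
    simp only [frobE, Multiset.sum_zero, zero_div]
    rw [if_neg (by omega), if_neg (by omega), if_neg (by omega)]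
    simp

/-- the product of the traces over a list -/
noncomputable def xA (A : List ℕ) (p : ℕ) : ℝ := XX ((A.prod : ℕ) : ℤ) p * bp p ^ A.length

theorem xA_nil (p : Nat.Primes) (h : ¬ (p : ℕ) ∣ 2) : xA [] p = 1 := by
  have h2 : (p : ℕ) ≠ 2 := by
    rintro h0
    exact h (by rw [h0])
  have ho : Odd (p : ℕ) := p.2.odd_of_ne_two h2
  unfold xA
  rw [XX_apply, if_pos ho]
  simp

theorem xA_cons (d : ℕ) (A : List ℕ) (p : ℕ) : xA (d :: A) p = (XX d p * bp p) * xA A p := by
  unfold xA
  rw [List.prod_cons, List.length_cons, pow_succ]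
  push_cast
  rw [← Pool.Agent.H341R2.XX_mul_left]
  ring

theorem Gs_frobProd (β : ℕ → Multiset ℂ) (p : Nat.Primes) (h2 : ¬ (p : ℕ) ∣ 2) (l : List ℕ)
    (h : Gd l p) :
    Gs p (frobProd β p l) = Gs p β * (l.sublists'.map fun A =>
      PowerSeries.C ((xA A p : ℝ) : ℂ) * PowerSeries.X ^ A.length *
        (1 + PowerSeries.X ^ 2) ^ (l.length - A.length)).sum := by
  induction l with
  | nil => simp [frobProd, xA_nil p h2]
  | cons d l ih =>
    have hd : ¬ (p : ℕ) ∣ 2 * d := h d (by simp)
    have hl : Gd l p := fun e he => h e (by simp [he])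
    rw [frobProd, Gs_kunneth, ih hl, Gs_frobE p hd, mul_assoc]
    congr 1
    rw [List.sublists'_cons, List.map_append, List.sum_append, List.map_map, mul_add]
    refine (add_comm _ _).trans ?_
    congr 1
    · rw [mul_comm, ← List.sum_map_mul_left]
      congr 1
      refine List.map_congr_left fun A hA => ?_
      have hlen : A.length ≤ l.length := (List.mem_sublists'.1 hA).length_le
      have e : (d :: l).length - A.length = (l.length - A.length) + 1 := by
        rw [List.length_cons]; omega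
      rw [e, pow_succ]
      ring
    · rw [mul_comm, ← List.sum_map_mul_left]
      congr 1
      refine List.map_congr_left fun A hA => ?_
      simp only [Function.comp_apply]
      rw [xA_cons, List.length_cons, List.length_cons, Nat.add_sub_add_right]
      push_cast
      simp only [map_mul]
      ring

theorem coeff_one_add (r M : ℕ) : PowerSeries.coeff M ((1 + PowerSeries.X ^ 2) ^ r : PowerSeries ℂ) =
    if Even M then ((r.choose (M / 2) : ℕ) : ℂ) else 0 := by
  rw [add_comm, add_pow, map_sum]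
  have h : ∀ k ∈ range (r + 1), PowerSeries.coeff M
      ((PowerSeries.X ^ 2) ^ k * 1 ^ (r - k) * ((r.choose k : ℕ) : PowerSeries ℂ)) =
      if M = 2 * k then ((r.choose k : ℕ) : ℂ) else 0 := by
    intro k _
    rw [one_pow, mul_one, ← pow_mul, mul_comm]
    have : (((r.choose k : ℕ)) : PowerSeries ℂ) = PowerSeries.C ((r.choose k : ℕ) : ℂ) := by
      simp
    rw [this, PowerSeries.coeff_C_mul, PowerSeries.coeff_X_pow]
    split_ifs <;> simp
  rw [Finset.sum_congr rfl h]
  split_ifs with hM
  · obtain ⟨k, hk⟩ := hM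
    have hk2 : M / 2 = k := by omega
    rw [hk2]
    by_cases hkr : k ≤ r
    · rw [Finset.sum_eq_single k]
      · rw [if_pos (by omega)]
      · intro b _ hb
        rw [if_neg (by omega)]
      · intro hk'
        exact absurd (Finset.mem_range.2 (by omega)) hk'
    · rw [Nat.choose_eq_zero_of_lt (by omega)]
      push_cast
      refine Finset.sum_eq_zero fun b hb => ?_
      rw [if_neg]
      have := Finset.mem_range.1 hb
      omega
  · refine Finset.sum_eq_zero fun b _ => ?_
    rw [if_neg]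
    rintro rfl
    exact hM (even_two_mul b)

/-- the multiplicities -/
def VV (r j n a : ℕ) : ℕ := if a + j ≤ n ∧ Even (n - a - j) then r.choose ((n - a - j) / 2) else 0

theorem nt_frobProd (β : ℕ → Multiset ℂ) (p : Nat.Primes) (h2 : ¬ (p : ℕ) ∣ 2) (l : List ℕ)
    (h : Gd l p) (n : ℕ) :
    nt p (frobProd β p l) n = (l.sublists'.map fun A => ((xA A p : ℝ) : ℂ) *
      ∑ a ∈ range (n + 1), nt p β a * ((VV (l.length - A.length) A.length n a : ℕ) : ℂ)).sum := by
  have h1 : nt p (frobProd β p l) n = PowerSeries.coeff n (Gs p (frobProd β p l)) := by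
    rw [Gs, PowerSeries.coeff_mk]
  rw [h1, Gs_frobProd β p h2 l h, ← List.sum_map_mul_left, map_list_sum, List.map_map]
  congr 1
  refine List.map_congr_left fun A _ => ?_
  simp only [Function.comp_apply]
  rw [mul_assoc (PowerSeries.C _), mul_left_comm, PowerSeries.coeff_C_mul,
    PowerSeries.coeff_mul, Finset.Nat.sum_antidiagonal_eq_sum_range_succ_mk]
  congr 1
  refine Finset.sum_congr rfl fun a ha => ?_
  have ha' : a ≤ n := by have := Finset.mem_range.1 ha; omega
  rw [Gs, PowerSeries.coeff_mk, PowerSeries.coeff_X_pow_mul']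
  congr 1
  unfold VV
  by_cases h3 : A.length ≤ n - a
  · rw [if_pos h3, coeff_one_add]
    by_cases h4 : Even (n - a - A.length)
    · rw [if_pos h4, if_pos ⟨by omega, h4⟩]
    · rw [if_neg h4, if_neg (fun h5 => h4 h5.2)]
      simp
  · rw [if_neg h3, if_neg (fun h5 => h3 (by omega))]
    simp

end Pool.Agent.Y149.CM
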