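import Pool.Agent.Y149.CM.Mean
import Pool.Agent.Y149.CM.Defs
import Pool.Agent.H385R2.EcD4

set_option autoImplicit false

/-!
Local data of the congruent number curves.
-/

open Finset Filter Topology Complex Polynomial

namespace Pool.Agent.Y149.CM

open Pool.Agent.H304R3.HK (M3.p_cases)
open Pool.Agent.H304R2.EC (PS PS_split an aE aE_eq an_inert)
open Pool.Agent.Helper919 (XX XX_apply XX_mod XX_mul XX_one XX_abs_le)

theorem aE_sq (p : ℕ) (hp : p.Prime) : ((aE p : ℤ) : ℝ) ^ 2 ≤ 4 * p := by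
  rcases M3.p_cases hp with rfl | ⟨ho, h3⟩ | ⟨ho, h1⟩
  · have h : aE 2 = 0 := by
      unfold aE
      have : ((Finset.range 2 ×ˢ Finset.range 2).filter
        (fun xy : ℕ × ℕ => ((2 : ℕ) : ℤ) ∣ (xy.2 : ℤ) ^ 2 - ((xy.1 : ℤ) ^ 3 - (xy.1 : ℤ)))).card = 2 := by
        decide
      rw [this]
      norm_num
    rw [h]
    norm_num
  · have h2 : p ≠ 2 := by rintro rfl; norm_num at ho
    rw [aE_eq p hp h2, an_inert p hp h3]
    simp
  · have h2 : p ≠ 2 := by rintro rfl; norm_num at ho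
    obtain ⟨a, b, hb0, hb, hab, hn, hPS⟩ := PS_split p hp h1
    have hne : ((a, b) : ℤ × ℤ) ≠ (a, -b) := by
      intro heq
      rw [Prod.mk.injEq] at heq
      omega
    have han : aE p = 2 * a := by
      rw [aE_eq p hp h2]
      unfold an
      rw [hPS, Finset.sum_pair hne]
      ring
    rw [han]
    have h3 : ((2 * a : ℤ) : ℝ) ^ 2 ≤ 4 * ((a ^ 2 + b ^ 2 : ℤ) : ℝ) := by
      push_cast
      nlinarith [sq_nonneg (b : ℝ)]
    rw [hn] at h3
    exact_mod_cast h3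

theorem aE_inert (p : ℕ) (hp : p.Prime) (h1 : p % 4 ≠ 1) : p = 2 ∨ aE p = 0 := by
  rcases M3.p_cases hp with h | ⟨ho, h3⟩ | ⟨ho, h1'⟩
  · exact Or.inl h
  · right
    have h2 : p ≠ 2 := by rintro rfl; norm_num at ho
    rw [aE_eq p hp h2, an_inert p hp h3]
  · exact absurd h1' h1

theorem bp_le (p : Nat.Primes) : |bp p| ≤ 2 := by
  have hp0 : (0 : ℝ) < (p : ℕ) := by exact_mod_cast p.2.pos
  have h := aE_sq p p.2
  unfold bp
  rw [abs_div, abs_of_pos (Real.sqrt_pos.2 hp0), div_le_iff₀ (Real.sqrt_pos.2 hp0)]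
  refine abs_le_of_sq_le_sq ?_ (by positivity)
  rw [mul_pow, Real.sq_sqrt hp0.le]
  linarith

/-- off the split primes the trace vanishes -/
theorem XX_bp (c : ℤ) (p : Nat.Primes) : XX c p * bp p = XX c p * sp p * bp p := by
  unfold sp
  split_ifs with h
  · ring
  · rcases aE_inert p p.2 h with h2 | h2
    · have : XX c p = 0 := by
        rw [XX_apply, if_neg]
        rw [h2]; decide
      rw [this]; ring
    · unfold bp
      rw [h2]; simp

theorem XX_sp_pow (c : ℤ) (p : Nat.Primes) {j : ℕ} (hj : 1 ≤ j) :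
    XX c p * bp p ^ j = XX c p * sp p * bp p ^ j := by
  obtain ⟨k, rfl⟩ := Nat.exists_eq_add_of_le hj
  rw [pow_add, pow_one, ← mul_assoc, XX_bp, mul_assoc]

theorem XX_sp_cc (c : ℤ) (p : Nat.Primes) {j : ℕ} (hj : Odd j) :
    XX c p * cc j (bp p) = XX c p * sp p * cc j (bp p) := by
  unfold sp
  split_ifs with h
  · ring
  · rcases aE_inert p p.2 h with h2 | h2
    · have : XX c p = 0 := by
        rw [XX_apply, if_neg]
        rw [h2]; decide
      rw [this]; ring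
    · have : bp p = 0 := by
        unfold bp
        rw [h2]; simp
      rw [this, cc_odd_zero j hj]; ring

/-- a pair of conjugate numbers with given trace -/
theorem exists_uv (a P : ℝ) (h : a ^ 2 ≤ 4 * P) : ∃ u v : ℂ, u + v = (a : ℂ) ∧ u * v = (P : ℂ) ∧
    ‖u‖ = Real.sqrt P ∧ ‖v‖ = Real.sqrt P := by
  set r : ℝ := Real.sqrt (4 * P - a ^ 2) with hr
  have hr2 : r ^ 2 = 4 * P - a ^ 2 := Real.sq_sqrt (by linarith)
  have hn : ∀ s : ℝ, s ^ 2 = r ^ 2 → ‖((a / 2 : ℝ) : ℂ) + ((s / 2 : ℝ) : ℂ) * I‖ = Real.sqrt P := by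
    intro s hs
    rw [Complex.norm_def, Complex.normSq_add_mul_I]
    congr 1
    rw [div_pow, div_pow, hs, hr2]
    ring
  refine ⟨((a / 2 : ℝ) : ℂ) + ((r / 2 : ℝ) : ℂ) * I, ((a / 2 : ℝ) : ℂ) + ((-r / 2 : ℝ) : ℂ) * I,
    ?_, ?_, hn r rfl, hn (-r) (by ring)⟩
  · push_cast; ring
  · have h2 : (r : ℂ) ^ 2 = 4 * P - a ^ 2 := by exact_mod_cast congrArg (fun x : ℝ => (x : ℂ)) hr2
    push_cast
    have h3 : ((a : ℂ) / 2 + r / 2 * I) * (a / 2 + -r / 2 * I) = (a ^ 2 - r ^ 2 * I ^ 2) / 4 := by ring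
    rw [h3, I_sq, h2]
    ring

theorem cc_abs_le (j : ℤ) {x : ℝ} (hx : |x| ≤ 2) : |cc j x| ≤ 2 := by
  have key : ∀ n : ℕ, |cc n x| ≤ 2 := by
    intro n
    obtain ⟨u, v, h1, h2, h3, h4⟩ := exists_uv x 1 (by
      have := abs_le.1 hx
      nlinarith [this.1, this.2])
    rw [Real.sqrt_one] at h3 h4
    have h5 := cc_uv n u v x h1 (by rw [h2]; simp)
    have h6 : |cc n x| = ‖((cc n x : ℝ) : ℂ)‖ := by rw [Complex.norm_real, Real.norm_eq_abs]
    rw [h6, h5]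
    refine (norm_add_le _ _).trans ?_
    rw [norm_pow, norm_pow, h3, h4]
    norm_num
  rcases Int.natAbs_eq j with h | h
  · rw [h]; exact key _
  · rw [h, cc_neg]; exact key _

theorem traceE_eq_aD (d p : ℕ) [Fact p.Prime] : traceE d p = H385.aD d p := by
  unfold traceE H385.aD
  congr 1
  refine congrArg (fun n : ℕ => (n : ℤ)) ?_
  rw [Nat.card_eq_fintype_card, Fintype.card_subtype]
  symm
  refine Finset.card_nbij' (fun xy => ((xy.1 : ZMod p), (xy.2 : ZMod p)))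
    (fun z => (z.1.val, z.2.val)) ?_ ?_ ?_ ?_
  · intro xy hxy
    simp only [Finset.coe_filter, Finset.mem_product, Finset.mem_range, Set.mem_setOf_eq,
      Finset.mem_univ, true_and] at hxy ⊢
    have := (ZMod.intCast_zmod_eq_zero_iff_dvd _ p).mpr hxy.2
    push_cast at this
    exact sub_eq_zero.mp this
  · intro z hz
    simp only [Finset.coe_filter, Finset.mem_product, Finset.mem_range, Set.mem_setOf_eq,
      Finset.mem_univ, true_and] at hz ⊢
    refine ⟨⟨ZMod.val_lt _, ZMod.val_lt _⟩, ?_⟩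
    rw [← ZMod.intCast_zmod_eq_zero_iff_dvd]
    push_cast
    rw [ZMod.natCast_zmod_val, ZMod.natCast_zmod_val, hz, sub_self]
  · intro xy hxy
    simp only [Finset.coe_filter, Finset.mem_product, Finset.mem_range, Set.mem_setOf_eq] at hxy
    simp only [ZMod.val_cast_of_lt hxy.1.1, ZMod.val_cast_of_lt hxy.1.2]
  · intro z _
    simp only [ZMod.natCast_zmod_val]

/-- the trace of Frobenius of `E_d` -/
theorem traceE_eq {d : ℕ} (p : Nat.Primes) (h : ¬ (p : ℕ) ∣ 2 * d) :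
    (traceE d p : ℝ) = XX d p * aE p := by
  have : Fact (p : ℕ).Prime := ⟨p.2⟩
  have h2 : (p : ℕ) ≠ 2 := by
    rintro h0
    exact h (by rw [h0]; exact dvd_mul_right _ _)
  have hd : ¬ (p : ℕ) ∣ d := fun h3 => h (Dvd.dvd.mul_left h3 2)
  have ho : Odd (p : ℕ) := p.2.odd_of_ne_two h2
  rw [traceE_eq_aD, H385.aD_twist d p h2 hd, H385.aD_one, XX_apply, if_pos ho]
  push_cast
  congr 2
  rw [← jacobiSym.legendreSym.to_jacobiSym]
  unfold legendreSym
  push_cast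
  rfl

theorem traceE_div {d : ℕ} (p : Nat.Primes) (h : ¬ (p : ℕ) ∣ 2 * d) :
    (traceE d p : ℝ) / Real.sqrt p = XX d p * bp p := by
  rw [traceE_eq p h, bp, mul_div_assoc]

theorem traceE_sq {d : ℕ} (p : Nat.Primes) (h : ¬ (p : ℕ) ∣ 2 * d) :
    (traceE d p : ℝ) ^ 2 ≤ 4 * (p : ℕ) := by
  rw [traceE_eq p h, mul_pow]
  have h1 : XX d p ^ 2 ≤ 1 := by
    rw [← sq_abs]
    exact pow_le_one₀ (abs_nonneg _) (XX_abs_le _ _)
  have h2 := aE_sq p p.2
  nlinarith [sq_nonneg (aE p : ℝ)]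

/-- the eigenvalues on `H¹(E_d)` -/
theorem frobE_one {d : ℕ} (p : Nat.Primes) (h : ¬ (p : ℕ) ∣ 2 * d) : ∃ u v : ℂ,
    frobE d p 1 = {u, v} ∧ u + v = ((traceE d p : ℝ) : ℂ) ∧ u * v = ((p : ℕ) : ℂ) ∧
    ‖u‖ = Real.sqrt p ∧ ‖v‖ = Real.sqrt p := by
  obtain ⟨u, v, h1, h2, h3, h4⟩ := exists_uv (traceE d p : ℝ) p (traceE_sq p h)
  refine ⟨u, v, ?_, h1, by simpa using h2, h3, h4⟩
  have e : (X ^ 2 - C ((traceE d p : ℤ) : ℂ) * X + C ((p : ℕ) : ℂ) : ℂ[X]) =
      (X - C u) * (X - C v) := by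
    have h1' : ((traceE d p : ℤ) : ℂ) = u + v := by rw [h1]; push_cast; rfl
    have h2' : (((p : ℕ)) : ℂ) = u * v := by rw [h2]; push_cast; rfl
    rw [h1', h2', C_add, C_mul]
    ring
  unfold frobE
  rw [e, roots_mul (mul_ne_zero (X_sub_C_ne_zero u) (X_sub_C_ne_zero v)), roots_X_sub_C,
    roots_X_sub_C]
  rfl

end Pool.Agent.Y149.CM
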