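import Pool.Agent.Y149.CM.Fin

set_option autoImplicit false

/-!
The main theorem on products with congruent number curves.
-/

open Finset Filter Topology Complex Polynomial

namespace Pool.Agent.Y149.CM

open Pool.Agent.Helper919 (XX XX_apply XX_mod XX_mul XX_one XX_abs_le)
open Pool.Agent.H341R2 (E lam lam_tendsto)

theorem sqrt_pow_eq (p : Nat.Primes) (a : ℕ) :
    ((p : ℕ) : ℝ) ^ ((a : ℝ) / 2) = Real.sqrt (p : ℕ) ^ a := by
  have hp0 : (0 : ℝ) ≤ (p : ℕ) := Nat.cast_nonneg _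
  rw [Real.sqrt_eq_rpow, ← Real.rpow_natCast, ← Real.rpow_mul hp0]
  congr 1
  ring

theorem XG_of {n : ℕ} {X : Set (MvPolynomial (Fin n) ℤ)} {D : ℕ} {p : Nat.Primes}
    {γ : ℕ → Multiset ℂ} {N : ℕ → ℕ} (h1 : IsFrobenius X D p γ)
    (h2 : ∀ a, Multiset.card (γ a) = N a)
    (h3 : ∀ a, Even a → ∀ z ∈ γ a, z = ((p : ℕ) : ℂ) ^ (a / 2)) : XG N p γ where
  weight := fun a z hz => by rw [h1.weight a z hz, sqrt_pow_eq]
  card := h2
  even := by
    intro a ha z hz
    rw [h3 a ha z hz]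
    obtain ⟨t, ht⟩ := ha
    have h4 : a / 2 = t := by omega
    have h5 : a = 2 * t := by omega
    rw [h4, h5, pow_mul, ← Complex.ofReal_pow, Real.sq_sqrt (Nat.cast_nonneg _)]
    simp

theorem infinite_primes : Infinite Nat.Primes := by
  infer_instance

section
variable {N : ℕ → ℕ} {β : Nat.Primes → ℕ → Multiset ℂ}
  (hX : ∀ᶠ p : Nat.Primes in cofinite, XG N p (β p))
include hX

/-- the unconditional structure theorem -/
theorem structure_ultra (F : Ultrafilter ℝ) (hF : (F : Filter ℝ) ≤ 𝓝[>] 0) :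
    ∃ y : ℕ → ℕ → ℕ → ℝ, IsMult N y ∧ ∀ l : List ℕ, (∀ d ∈ l, 0 < d) → ∀ m B, IsEuler β l m B →
      Tendsto (size m B) F (𝓝 ((rankProd N l m : ℝ) + defect y l m)) := by
  obtain ⟨y, hy⟩ := exists_YS N β F hF
  exact ⟨y, YS_mult hF hy, fun l hl m B hB => YS_size hF hX hy hl hB⟩

/-- the sets for a fixed number of factors -/
theorem fixed_k {D : ℕ} (hN : ∀ a, 2 * D < a → N a = 0) (k : ℕ) :
    ∃ S : Finset ℕ, (∀ c ∈ S, Squarefree c) ∧
      2 * S.card ≤ 16 ^ (k - 1) * ∑ a ∈ (range (2 * D + 1)).filter Odd, N a ^ 2 ∧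
      ∀ l : List ℕ, l.length = k → (∀ d ∈ l, 0 < d) → Avoids S l → ∀ m B, IsEuler β l m B →
        (∃ᶠ ε : ℝ in 𝓝[>] 0, |size m B ε - rankProd N l m| < 1) ∧
        ∀ r : ℤ, HasOrder m B r → r = -(rankProd N l m : ℤ) := by
  classical
  set F : Ultrafilter ℝ := Ultrafilter.of (𝓝[>] (0 : ℝ)) with hFdef
  have hF : (F : Filter ℝ) ≤ 𝓝[>] 0 := Ultrafilter.of_le _
  obtain ⟨y, hmult, hsize⟩ := structure_ultra hX F hF
  have hδ : (0 : ℝ) < (4 ^ (k - 1))⁻¹ := by positivity
  have hfin := exc_finite hN hmult hδ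
  refine ⟨hfin.toFinset, fun c hc => ((hfin.mem_toFinset).1 hc).1, ?_, ?_⟩
  · have h1 := exc_card hN hmult hδ hfin.toFinset (by rw [hfin.coe_toFinset])
    have h2 : ((4 : ℝ) ^ (k - 1))⁻¹ ^ 2 = (16 ^ (k - 1))⁻¹ := by
      rw [inv_pow, ← pow_mul, mul_comm, pow_mul]
      norm_num
    rw [h2, ← div_eq_mul_inv, div_le_iff₀ (by positivity)] at h1
    have h3 : ((2 * hfin.toFinset.card : ℕ) : ℝ) ≤
        ((16 ^ (k - 1) * ∑ a ∈ (range (2 * D + 1)).filter Odd, N a ^ 2 : ℕ) : ℝ) := by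
      push_cast
      linarith
    exact_mod_cast h3
  · intro l hk hl hav m B hB
    have h1 := hsize l hl m B hB
    have h2 := defect_lt hmult k (by rw [hfin.coe_toFinset]) hk hl hav m
    constructor
    · have h3 : ∀ᶠ ε in (F : Filter ℝ), |size m B ε - rankProd N l m| < 1 := by
        have h4 : Tendsto (fun ε => |size m B ε - rankProd N l m|) F (𝓝 |defect y l m|) := by
          have h5 := (h1.sub_const (rankProd N l m : ℝ)).abs
          rwa [add_sub_cancel_left] at h5
        exact h4.eventually_lt_const h2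
      exact h3.frequently.filter_mono hF
    · intro r hr
      have h3 := (size_of_order hr).mono_left hF
      have h4 := tendsto_nhds_unique h1 h3
      have h5 : |(r + (rankProd N l m : ℤ) : ℤ)| < 1 := by
        have h6 : |((r + (rankProd N l m : ℤ) : ℤ) : ℝ)| < 1 := by
          have h7 : ((r + (rankProd N l m : ℤ) : ℤ) : ℝ) = -defect y l m := by
            push_cast
            linarith
          rw [h7, abs_neg]
          exact h2
        exact_mod_cast h6
      have h8 := Int.abs_lt_one_iff.1 h5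
      omega

/-- the structure theorem if the orders exist -/
theorem structure_int {D : ℕ} (hN : ∀ a, 2 * D < a → N a = 0)
    (H : ∀ d, Squarefree d → ∀ k, Odd k → ∀ m, ∃ B r,
      IsEuler β (List.replicate k d) m B ∧ HasOrder m B r) :
    ∃ y : ℕ → ℕ → ℕ → ℤ, IsMult N (fun a j c => (y a j c : ℝ)) ∧
      (∀ l : List ℕ, (∀ d ∈ l, 0 < d) → ∀ m B, IsEuler β l m B →
        Tendsto (size m B) (𝓝[>] 0) (𝓝 ((rankProd N l m : ℝ) + ((defect y l m : ℤ) : ℝ))) ∧
        ∀ r : ℤ, HasOrder m B r → r = -((rankProd N l m : ℤ) + defect y l m)) ∧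
      ∃ S : Finset ℕ, (∀ c ∈ S, Squarefree c) ∧
        2 * S.card ≤ ∑ a ∈ (range (2 * D + 1)).filter Odd, N a ^ 2 ∧
        ∀ l : List ℕ, (∀ d ∈ l, 0 < d) → Avoids S l → ∀ m B, IsEuler β l m B →
          Tendsto (size m B) (𝓝[>] 0) (𝓝 (rankProd N l m : ℝ)) ∧
          ∀ r : ℤ, HasOrder m B r → r = -(rankProd N l m : ℤ) := by
  classical
  have hF : (𝓝[>] (0 : ℝ)) ≤ 𝓝[>] 0 := le_rfl
  have hIL : ∀ a j c : ℕ, Odd a → Odd j → 0 < c →
      IL (𝓝[>] 0) (fun p => uu N β a p * (XX (c : ℤ) p * cc j (bp p))) := by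
    intro a j c ha hj hc
    obtain ⟨s, b, hb, hs⟩ := Nat.sq_mul_squarefree c
    have hs0 : 0 < s := Nat.pos_of_ne_zero hs.ne_zero
    have hb0 : 0 < b := by
      rcases Nat.eq_zero_or_pos b with h | h
      · rw [h] at hb
        simp at hb
        omega
      · exact h
    have hphi : ∀ k, Odd k → ∀ m, IL (𝓝[>] 0) (phi N β (List.replicate k s) (2 * m)) := by
      intro k hk m
      obtain ⟨B, r, hB, hr⟩ := H s hs k hk m
      refine ⟨-r, ?_⟩
      have hpos : ∀ d ∈ List.replicate k s, 0 < d := by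
        intro d hd
        rw [(List.mem_replicate.1 hd).2]
        exact hs0
      have h1 := (size_iff hX hpos hB hF _).1 (size_of_order hr)
      convert h1 using 1
      push_cast
      rfl
    have hmom : ∀ k, Odd k → IL (𝓝[>] 0) (fun p => uu N β a p * (XX (s : ℤ) p * bp p ^ k)) :=
      fun k hk => IL_moment hF hX hs0 hphi k hk a ha
    obtain ⟨z, hz⟩ := (IL_cc hF hmom j).1 0 (by simpa using hj)
    refine ⟨z, ?_⟩
    have e : (fun p : Nat.Primes => uu N β a p * (XX (s : ℤ) p * (bp p ^ 0 * cc j (bp p)))) =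
        fun p : Nat.Primes => uu N β a p * (XX (s : ℤ) p * cc j (bp p)) := by
      funext p
      rw [pow_zero, one_mul]
    rw [e] at hz
    have h3 := Lim_square hF hb0 hz
    rwa [mul_comm, hb] at h3
  choose! y hy using hIL
  have hYS : YS N β (𝓝[>] 0) (fun a j c => (y a j c : ℝ)) := fun a j c ha hj hc => hy a j c ha hj hc
  have hmult := YS_mult hF hYS
  have hsize : ∀ l : List ℕ, (∀ d ∈ l, 0 < d) → ∀ m B, IsEuler β l m B →
      Tendsto (size m B) (𝓝[>] 0) (𝓝 ((rankProd N l m : ℝ) + ((defect y l m : ℤ) : ℝ))) := by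
    intro l hl m B hB
    rw [defect_cast]
    exact YS_size hF hX hYS hl hB
  have hord : ∀ l : List ℕ, (∀ d ∈ l, 0 < d) → ∀ m B, IsEuler β l m B →
      ∀ r : ℤ, HasOrder m B r → r = -((rankProd N l m : ℤ) + defect y l m) := by
    intro l hl m B hB r hr
    have h4 := tendsto_nhds_unique (hsize l hl m B hB) (size_of_order hr)
    have h5 : ((r : ℤ) : ℝ) = ((-((rankProd N l m : ℤ) + defect y l m) : ℤ) : ℝ) := by
      push_cast
      linarith
    exact_mod_cast h5
  have hfin := exc_finite hN hmult one_pos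
  refine ⟨y, hmult, fun l hl m B hB => ⟨hsize l hl m B hB, hord l hl m B hB⟩, hfin.toFinset,
    fun c hc => ((hfin.mem_toFinset).1 hc).1, ?_, ?_⟩
  · have h1 := exc_card hN hmult one_pos hfin.toFinset (by rw [hfin.coe_toFinset])
    rw [one_pow, mul_one] at h1
    exact_mod_cast h1
  · intro l hl hav m B hB
    have h0 := defect_zero hmult (by rw [hfin.coe_toFinset]) hl hav m
    have h1 := hsize l hl m B hB
    have h2 := hord l hl m B hB
    have h3 : defect y l m = 0 := by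
      rw [← defect_cast] at h0
      exact_mod_cast h0
    rw [h3] at h1
    refine ⟨by simpa using h1, fun r hr => ?_⟩
    have := h2 r hr
    rw [h3, add_zero] at this
    exact this

end

end Pool.Agent.Y149.CM
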