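import Pool.Agent.Y149.CM.Char

set_option autoImplicit false

/-!
Mean values over the primes of `(c/p) C_j(a_p/√p)`, `a_p` the trace of Frobenius of `y² = x³ - x`.
-/

open Finset Filter Topology Complex

namespace Pool.Agent.Y149.CM

open Pool.Agent.H304R3.HK
open Pool.Agent.W354.PK (psik)
open Pool.Agent.W354.PK.TK (psik_apply)
open Pool.Agent.W354.HW (chiE chiE_apply chiE_ne chiE_four chiE_prim chiE_HC qE gE)
open Pool.Agent.H304R2.EC (PS Sh Sh_inert PS_split an aE aE_eq an_inert)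
open Pool.Agent.H304R2.EC.A1 (prim re_mul' im_mul' norm_def')
open Pool.Agent.Helper919 (XX XX_apply XX_mod XX_mul XX_one XX_abs_le psi psi_apply psi_ne_one)
open Pool.Agent.H341R2 (E K2 lam summable_E E_add E_const_mul E_sum E_le E_nonneg lam_tendsto
  lam_bounded summable_prime_rpow w_nonneg)

/-- indicator of the primes `p ≡ 1 mod 4` -/
noncomputable def sp (p : ℕ) : ℝ := if p % 4 = 1 then 1 else 0

/-- normalised trace of Frobenius on `H¹` of `y² = x³ - x` -/
noncomputable def bp (p : ℕ) : ℝ := (aE p : ℝ) / Real.sqrt p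

theorem in_fc (c : ℤ) (j : ℕ) : M3.In (psik j (fc c j)) where
  z0 := bb_zero _ (hUH c j j ⟨0, by ring⟩).h0
  two := fun k m hm => bb_two_odd _ (hUH c j j ⟨0, by ring⟩).hi k m hm

/-- the coefficient at a prime -/
theorem bb_fc_prime (c : ℤ) {j : ℕ} (hj : 1 ≤ j) (p : ℕ) (hp : p.Prime) :
    bb (psik j (fc c j)) p = ((XX c p * sp p * cc j (bp p) : ℝ) : ℂ) := by
  rcases M3.p_cases hp with rfl | ⟨ho, h3⟩ | ⟨ho, h1⟩
  · have e1 : bb (psik j (fc c j)) 2 = psik j (fc c j) ⟨1, 1⟩ := by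
      have := M3.b_two (in_fc c j) 1
      rwa [pow_one, pow_one] at this
    have h1 : (⟨1, 1⟩ : GaussianInt) ≠ 0 := by decide
    have h2 : chiE ⟨1, 1⟩ = 0 := by
      by_contra h
      rw [← ne_eq, chiE_ne] at h
      exact absurd h (by decide)
    rw [e1, psik_apply, if_neg h1, fc_apply, h2, zero_pow (by omega)]
    simp [sp]
  · rw [M3.b_odd (in_fc c j) p ho, (Sh_inert _ p hp h3 0).1]
    simp [sp, h3]
  · have h2 : p ≠ 2 := by rintro rfl; norm_num at ho
    obtain ⟨a, b, hb0, hb, hab, hn, hPS⟩ := PS_split p hp h1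
    have hne : ((a, b) : ℤ × ℤ) ≠ (a, -b) := by
      intro heq
      rw [Prod.mk.injEq] at heq
      omega
    have han : aE p = 2 * a := by
      rw [aE_eq p hp h2]
      unfold an
      rw [hPS, Finset.sum_pair hne]
      ring
    have hp0 : (0 : ℝ) < p := by exact_mod_cast hp.pos
    have hs0 : (Real.sqrt p : ℂ) ≠ 0 := by exact_mod_cast (Real.sqrt_pos.2 hp0).ne'
    have hpr : ∀ e : ℤ, e ^ 2 = b ^ 2 → e % 2 = 0 → (a + e) % 4 = 1 →
        psik j (fc c j) ⟨a, e⟩ = ((XX c p : ℝ) : ℂ) *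
          (((a : ℂ) + (e : ℂ) * I) / ((Real.sqrt p : ℝ) : ℂ)) ^ j := by
      intro e he he2 he4
      have h0 : (⟨a, e⟩ : GaussianInt) ≠ 0 := by
        intro h
        have h5 : a = 0 := congrArg Zsqrtd.re h
        have h6 : e = 0 := congrArg Zsqrtd.im h
        rw [h5, h6] at he4
        norm_num at he4
      have hnorm : (⟨a, e⟩ : GaussianInt).norm = p := by
        rw [norm_def']
        simp only
        rw [he, hn]
      rw [psik_apply, if_neg h0, fc_apply]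
      have h7 : chiE ⟨a, e⟩ = 1 := chiE_prim ⟨he2, he4⟩
      rw [h7, one_pow, one_mul, hnorm, Int.natAbs_natCast]
      have h8 : tc ⟨a, e⟩ = (a : ℂ) + (e : ℂ) * I := rfl
      have h9 : ‖tc ⟨a, e⟩‖ = Real.sqrt p := by
        rw [eq_comm, Real.sqrt_eq_iff_mul_self_eq (by positivity) (norm_nonneg _), ← sq,
          tc_star_mul, hnorm]
        simp
      rw [h9, h8]
    rw [M3.b_odd (in_fc c j) p ho]
    unfold Sh
    rw [hPS, Finset.sum_pair hne, hpr b rfl hb hab, hpr (-b) (by ring) (by omega) (by omega),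
      ← mul_add]
    have hsp : sp p = 1 := by simp [sp, h1]
    rw [hsp, mul_one]
    push_cast
    congr 1
    symm
    apply cc_uv
    · have hbp : (bp p : ℂ) = (2 * a : ℂ) / (Real.sqrt p : ℂ) := by
        unfold bp
        rw [han]
        push_cast
        rfl
      rw [hbp]
      push_cast
      ring
    · have h6 : ((a : ℂ)) ^ 2 + (b : ℂ) ^ 2 = p := by
        exact_mod_cast congrArg (Int.cast : ℤ → ℂ) hn
      have h7 : (Real.sqrt p : ℂ) * (Real.sqrt p : ℂ) = p := by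
        rw [← Complex.ofReal_mul, Real.mul_self_sqrt hp0.le]
        simp
      rw [div_mul_div_comm, h7, div_eq_one_iff_eq (by rw [← h7]; exact mul_ne_zero hs0 hs0), ← h6]
      push_cast
      linear_combination (-(b : ℂ) ^ 2) * Complex.I_sq

theorem fc_sq (c : ℤ) (j : ℕ) : (fun a => (psik j (fc c j) a) ^ 2) =
    fun a => psik (2 * j) ((fc c j) ^ 2) a := by
  funext a
  rw [psik_apply, psik_apply]
  split_ifs with h
  · simp
  · rw [mul_pow, ← pow_mul, mul_comm j 2, MonoidHom.pow_apply]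

/-- the prime sums of the Hecke characters are bounded -/
theorem hecke_bounded {c : ℤ} (hc : c ≠ 0) {j : ℕ} (hj : 1 ≤ j) :
    ∃ C : ℝ, ∀ᶠ ε : ℝ in 𝓝[>] 0, |E ε fun p => XX c p * sp p * cc j (bp p)| ≤ C := by
  have hU := hUH c j j ⟨0, by ring⟩
  have hP := fc_per hc j
  obtain ⟨F, hF, sF⟩ := entire hj hP hU
  have hP2 : PF (((4 * c : ℤ) : GaussianInt)) ((fc c j) ^ 2) := by
    refine ⟨hP.q0, fun a b h => ?_, fun a => ?_⟩
    · rw [MonoidHom.pow_apply, MonoidHom.pow_apply, hP.per a b h]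
    · rw [MonoidHom.pow_apply, norm_pow]
      exact pow_le_one₀ (norm_nonneg _) (hP.le a)
  have hsq := fc_sq c j
  have hU2 : UH (psik (2 * j) ((fc c j) ^ 2)) := by
    refine ⟨?_, fun a => ?_, ?_⟩
    · rw [← congrFun hsq 0, hU.h0]; simp
    · rw [← congrFun hsq a, norm_pow]
      exact pow_le_one₀ (norm_nonneg _) (hU.hb a)
    · rw [← congrFun hsq ⟨0, 1⟩, hU.hi]; simp
  obtain ⟨G, hG, sG⟩ := entire (by omega : 1 ≤ 2 * j) hP2 hU2
  have sG' : ∀ s : ℂ, 1 < s.re →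
      HasSum (fun n : ℕ => bb (fun a => (psik j (fc c j) a) ^ 2) n * (n : ℂ) ^ (-s)) (G s) := by
    intro s hs
    rw [hsq]
    exact sG s hs
  obtain ⟨C, hC⟩ := sum_bounded _ hU F G hF hG sF sG'
  refine ⟨C, ?_⟩
  filter_upwards [hC] with ε h
  have e : (fun p : Nat.Primes => XX c p * sp p * cc j (bp p)) =
      fun p : Nat.Primes => (bb (psik j (fc c j)) p).re := by
    funext p
    rw [bb_fc_prime c hj p p.2, Complex.ofReal_re]
  rw [e]
  exact h

/-- the prime sums of the quadratic characters are bounded -/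
theorem dir_bounded {c : ℤ} (hc : c ≠ 0) (hsq : ¬ IsSquare c) :
    ∃ C : ℝ, ∀ᶠ ε : ℝ in 𝓝[>] 0, |E ε fun p => XX c p| ≤ C := by
  have : NeZero (4 * c.natAbs) := ⟨by have := Int.natAbs_pos.2 hc; omega⟩
  obtain ⟨C, hC⟩ := Pool.Agent.H341R2.primeSum_bounded (psi c hc) 0
    (Or.inl (psi_ne_one c hc hsq))
  refine ⟨C, ?_⟩
  filter_upwards [hC, self_mem_nhdsWithin] with ε h1 h2
  have hε : (0 : ℝ) < ε := h2
  convert h1 using 2
  have hterm : ∀ p : Nat.Primes, psi c hc ((p : ℕ) : ZMod (4 * c.natAbs)) *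
      ((p : ℕ) : ℂ) ^ (-(1 + ε + ((0 : ℝ) : ℂ) * I)) =
      ((XX c p * (p : ℝ) ^ (-(1 + ε)) : ℝ) : ℂ) := by
    intro p
    rw [Pool.Agent.Helper919.psi_apply]
    push_cast
    rw [Complex.ofReal_cpow (by positivity)]
    push_cast
    congr 2
    ring
  rw [tsum_congr hterm, ← Complex.ofReal_tsum, Complex.ofReal_re, E]

/-! ### limits of means -/

/-- the mean of `φ` over the primes along the filter `F` of parameters `ε → 0+` is `x` -/
def Lim (F : Filter ℝ) (φ : Nat.Primes → ℝ) (x : ℝ) : Prop :=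
  Tendsto (fun ε => E ε φ / lam ε) F (𝓝 x)

variable {F : Filter ℝ} (hF : F ≤ 𝓝[>] 0)

include hF

theorem ev_pos : ∀ᶠ ε in F, 0 < ε := hF self_mem_nhdsWithin

theorem ev_lam : ∀ᶠ ε in F, 0 < lam ε := hF (lam_tendsto.eventually_gt_atTop 0)

theorem Lim_add {φ ψ : Nat.Primes → ℝ} {B B' x y : ℝ} (hφ : ∀ p, |φ p| ≤ B)
    (hψ : ∀ p, |ψ p| ≤ B') (h1 : Lim F φ x) (h2 : Lim F ψ y) :
    Lim F (fun p => φ p + ψ p) (x + y) := by
  refine (h1.add h2).congr' ?_
  filter_upwards [ev_pos hF] with ε hε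
  rw [E_add hε hφ hψ, add_div]

omit hF in
theorem Lim_const_mul {φ : Nat.Primes → ℝ} {x : ℝ} (c : ℝ) (h1 : Lim F φ x) :
    Lim F (fun p => c * φ p) (c * x) := by
  refine (h1.const_mul c).congr fun ε => ?_
  rw [E_const_mul, mul_div_assoc]

theorem Lim_sum {κ : Type*} (K : Finset κ) (φ : κ → Nat.Primes → ℝ) (B : κ → ℝ) (x : κ → ℝ)
    (hφ : ∀ k ∈ K, ∀ p, |φ k p| ≤ B k) (h : ∀ k ∈ K, Lim F (φ k) (x k)) :
    Lim F (fun p => ∑ k ∈ K, φ k p) (∑ k ∈ K, x k) := by
  refine (tendsto_finsetSum K h).congr' ?_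
  filter_upwards [ev_pos hF] with ε hε
  rw [E_sum hε K φ B hφ, Finset.sum_div]

theorem Lim_of_bounded {φ : Nat.Primes → ℝ} {C : ℝ} (h : ∀ᶠ ε : ℝ in 𝓝[>] 0, |E ε φ| ≤ C) :
    Lim F φ 0 := by
  have h1 : Tendsto (fun ε => |C| / lam ε) F (𝓝 0) :=
    (lam_tendsto.mono_left hF).const_div_atTop _
  refine squeeze_zero_norm' ?_ h1
  filter_upwards [hF h, ev_lam hF] with ε h2 h3
  rw [Real.norm_eq_abs, abs_div, abs_of_pos h3]
  exact div_le_div_of_nonneg_right (h2.trans (le_abs_self C)) h3.le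

theorem Lim_one : Lim F (fun _ => 1) 1 := by
  have : Tendsto (fun _ : ℝ => (1 : ℝ)) F (𝓝 1) := tendsto_const_nhds
  refine this.congr' ?_
  filter_upwards [ev_lam hF] with ε h3
  have : E ε (fun _ => 1) = lam ε := by
    unfold E lam
    simp
  rw [this, div_self h3.ne']

theorem Lim_fin {φ : Nat.Primes → ℝ} {B : ℝ} (hφ : ∀ p, |φ p| ≤ B)
    (h : {p | φ p ≠ 0}.Finite) : Lim F φ 0 := by
  have hb : ∀ ε : ℝ, 0 < ε → |E ε φ| ≤ h.toFinset.card * B := by
    intro ε hε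
    have e : E ε φ = ∑ p ∈ h.toFinset, φ p * (p : ℝ) ^ (-(1 + ε)) := by
      rw [E]
      refine tsum_eq_sum fun p hp => ?_
      have : φ p = 0 := by
        by_contra h0
        exact hp (h.mem_toFinset.2 h0)
      rw [this, zero_mul]
    rw [e]
    refine (Finset.abs_sum_le_sum_abs _ _).trans ?_
    rw [← nsmul_eq_mul]
    refine Finset.sum_le_card_nsmul _ _ _ fun p _ => ?_
    have hp1 : (1 : ℝ) ≤ p := by exact_mod_cast p.2.one_lt.le
    have h2 : (p : ℝ) ^ (-(1 + ε)) ≤ 1 := Real.rpow_le_one_of_one_le_of_nonpos hp1 (by linarith)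
    rw [abs_mul, abs_of_nonneg (w_nonneg ε p)]
    calc |φ p| * (p : ℝ) ^ (-(1 + ε)) ≤ |φ p| * 1 :=
          mul_le_mul_of_nonneg_left h2 (abs_nonneg _)
      _ ≤ B := by rw [mul_one]; exact hφ p
  refine Lim_of_bounded hF (C := h.toFinset.card * B) ?_
  filter_upwards [self_mem_nhdsWithin] with ε hε
  exact hb ε hε

/-- changing finitely many values does not matter -/
theorem Lim_congr {φ ψ : Nat.Primes → ℝ} {B B' x : ℝ} (hφ : ∀ p, |φ p| ≤ B)
    (hψ : ∀ p, |ψ p| ≤ B') (h : {p | φ p ≠ ψ p}.Finite) (h1 : Lim F φ x) : Lim F ψ x := by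
  have hd : ∀ p, |ψ p - φ p| ≤ B' + B := fun p =>
    (abs_sub _ _).trans (add_le_add (hψ p) (hφ p))
  have h2 : Lim F (fun p => ψ p - φ p) 0 := by
    refine Lim_fin hF hd (h.subset ?_)
    intro p hp
    simp only [Set.mem_setOf_eq] at hp ⊢
    intro h0
    exact hp (by rw [h0]; ring)
  have h3 := Lim_add hF hφ hd h1 h2
  rw [add_zero] at h3
  have e : (fun p => φ p + (ψ p - φ p)) = ψ := by
    funext p; ring
  rwa [e] at h3

theorem Lim_hecke {c : ℤ} (hc : c ≠ 0) {j : ℤ} (hj : j ≠ 0) :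
    Lim F (fun p => XX c p * sp p * cc j (bp p)) 0 := by
  obtain ⟨n, hn⟩ : ∃ n : ℕ, j = n ∨ j = -n := ⟨j.natAbs, Int.natAbs_eq j⟩
  have hn1 : 1 ≤ n := by
    rcases Nat.eq_zero_or_pos n with rfl | h
    · simp at hn
      exact absurd hn hj
    · exact h
  obtain ⟨C, hC⟩ := hecke_bounded hc hn1
  have h1 := Lim_of_bounded hF hC
  rcases hn with rfl | rfl
  · exact h1
  · simpa only [cc_neg] using h1

omit hF in
theorem fin_dvd {N : ℕ} (hN : N ≠ 0) : {p : Nat.Primes | (p : ℕ) ∣ N}.Finite := by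
  have h1 : (N.divisors : Set ℕ).Finite := Finset.finite_toSet _
  refine (h1.preimage (f := fun p : Nat.Primes => (p : ℕ)) (fun a _ b _ h => Subtype.ext h)).subset ?_
  intro p hp
  simp only [Set.mem_preimage, Finset.mem_coe, Nat.mem_divisors]
  exact ⟨hp, hN⟩

omit hF in
theorem XX_sq_one {e : ℤ} {p : Nat.Primes} (h : ¬ (p : ℕ) ∣ 2 * e.natAbs) : XX (e * e) p = 1 := by
  have h2 : (p : ℕ) ≠ 2 := by
    rintro h0
    exact h (by rw [h0]; exact dvd_mul_right _ _)
  have ho : Odd (p : ℕ) := p.2.odd_of_ne_two h2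
  rw [XX_apply, if_pos ho, jacobiSym.mul_left, ← sq, jacobiSym.sq_one]
  · simp
  · rw [Int.gcd_eq_natAbs, Int.natAbs_natCast, ← Nat.coprime_iff_gcd_eq_one, Nat.coprime_comm,
      Nat.Prime.coprime_iff_not_dvd p.2]
    exact fun h3 => h (Dvd.dvd.mul_left h3 2)

theorem Lim_XX_sq {e : ℤ} (he : e ≠ 0) : Lim F (fun p => XX (e * e) p) 1 := by
  refine Lim_congr hF (B := 1) (B' := 1) (by simp) (fun p => XX_abs_le _ _) ?_ (Lim_one hF)
  refine (fin_dvd (N := 2 * e.natAbs) (by simpa using he)).subset ?_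
  intro p hp
  by_contra h
  exact hp (XX_sq_one h).symm

omit hF in
theorem XX_sp (c : ℤ) (p : Nat.Primes) : XX c p * sp p = 1 / 2 * (XX c p + XX (-c) p) := by
  rcases M3.p_cases p.2 with h | ⟨ho, h3⟩ | ⟨ho, h1⟩
  · rw [XX_apply, XX_apply, if_neg, if_neg]
    · simp
    · rw [h]; decide
    · rw [h]; decide
  · have ho' : Odd (p : ℕ) := Nat.odd_iff.2 ho
    rw [XX_apply, XX_apply, if_pos ho', if_pos ho', neg_eq_neg_one_mul c, jacobiSym.mul_left,
      jacobiSym.at_neg_one ho', ZMod.χ₄_nat_three_mod_four h3]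
    simp [sp, h3]
  · have ho' : Odd (p : ℕ) := Nat.odd_iff.2 ho
    rw [XX_apply, XX_apply, if_pos ho', if_pos ho', neg_eq_neg_one_mul c, jacobiSym.mul_left,
      jacobiSym.at_neg_one ho', ZMod.χ₄_nat_one_mod_four h1]
    simp [sp, h1]
    ring

theorem Lim_XX {c : ℤ} (hc : c ≠ 0) :
    Lim F (fun p => XX c p) (if IsSquare c then 1 else 0) := by
  split_ifs with h
  · obtain ⟨e, rfl⟩ := h
    exact Lim_XX_sq hF (by rintro rfl; simp at hc)
  · obtain ⟨C, hC⟩ := dir_bounded hc h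
    exact Lim_of_bounded hF hC

theorem Lim_XX_sp {c : ℤ} (hc : 0 < c) :
    Lim F (fun p => XX c p * sp p) (if IsSquare c then 1 / 2 else 0) := by
  have h1 := Lim_XX hF hc.ne'
  have h2 := Lim_XX hF (neg_ne_zero.2 hc.ne')
  have h3 : ¬ IsSquare (-c) := by
    rintro ⟨e, he⟩
    nlinarith [mul_self_nonneg e]
  rw [if_neg h3] at h2
  have h4 := Lim_const_mul (1 / 2) (Lim_add hF (fun p => XX_abs_le _ _) (fun p => XX_abs_le _ _) h1 h2)
  have e : (fun p : Nat.Primes => XX c p * sp p) =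
      fun p : Nat.Primes => 1 / 2 * (XX c p + XX (-c) p) := funext fun p => XX_sp c p
  rw [e]
  convert h4 using 1
  split_ifs <;> norm_num

/-- the mean of `(c/p) C_j(a_p/√p)` over the primes `p ≡ 1 mod 4` -/
theorem Lim_cc {c : ℤ} (hc : 0 < c) (j : ℤ) :
    Lim F (fun p => XX c p * sp p * cc j (bp p)) (if j = 0 ∧ IsSquare c then 1 else 0) := by
  by_cases hj : j = 0
  · subst hj
    have h1 := Lim_const_mul 2 (Lim_XX_sp hF hc)
    have e : (fun p : Nat.Primes => XX c p * sp p * cc 0 (bp p)) =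
        fun p : Nat.Primes => 2 * (XX c p * sp p) := by
      funext p
      rw [cc_zero]; ring
    rw [e]
    convert h1 using 1
    by_cases h : IsSquare c
    · rw [if_pos ⟨rfl, h⟩, if_pos h]; norm_num
    · rw [if_neg (fun h' => h h'.2), if_neg h]; norm_num
  · rw [if_neg (fun h => hj h.1)]
    exact Lim_hecke hF hc.ne' hj

end Pool.Agent.Y149.CM
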