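import Pool.Agent.Y149.CM.Kun

set_option autoImplicit false

/-!
The size of the L-functions at the edge in terms of prime sums.
-/

open Finset Filter Topology Complex Polynomial

namespace Pool.Agent.Y149.CM

open Pool.Agent.Helper919 (XX XX_apply XX_mod XX_mul XX_one XX_abs_le)
open Pool.Agent.H341R2 (E K2 lam summable_E E_add E_const_mul E_sum E_le E_nonneg lam_tendsto
  lam_bounded summable_prime_rpow w_nonneg tprod_split summable_and_bound norm_neg_log_sub_le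
  prime_rpow_le_two)

/-- the local conditions on `X` at a good prime -/
structure XG (N : ℕ → ℕ) (p : ℕ) (γ : ℕ → Multiset ℂ) : Prop where
  weight : ∀ a, ∀ z ∈ γ a, ‖z‖ = Real.sqrt p ^ a
  card : ∀ a, Multiset.card (γ a) = N a
  even : ∀ a, Even a → ∀ z ∈ γ a, z = ((Real.sqrt p : ℝ) : ℂ) ^ a

theorem frobE_weight {d : ℕ} (p : Nat.Primes) (h : ¬ (p : ℕ) ∣ 2 * d) (n : ℕ) :
    (∀ z ∈ frobE d p n, ‖z‖ = Real.sqrt (p : ℕ) ^ n) ∧ Multiset.card (frobE d p n) ≤ 2 := by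
  have hp0 : (0 : ℝ) < (p : ℕ) := by exact_mod_cast p.2.pos
  obtain ⟨u, v, h1, h2, h3, h4, h5⟩ := frobE_one p h
  match n with
  | 0 => simp [frobE]
  | 1 =>
    rw [h1]
    simp [h4, h5]
  | 2 =>
    simp only [frobE, Multiset.mem_singleton, forall_eq, Multiset.card_singleton]
    rw [Real.sq_sqrt hp0.le]
    simp
  | (k + 3) => simp [frobE]

theorem mem_kunneth {β γ : ℕ → Multiset ℂ} {n : ℕ} {z : ℂ} (h : z ∈ kunneth β γ n) :
    ∃ i j x y, i + j = n ∧ x ∈ β i ∧ y ∈ γ j ∧ z = x * y := by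
  unfold kunneth at h
  rw [Multiset.mem_sum] at h
  obtain ⟨i, hi, h⟩ := h
  rw [Multiset.mem_map] at h
  obtain ⟨w, hw, rfl⟩ := h
  rw [Multiset.mem_product] at hw
  exact ⟨i.1, i.2, w.1, w.2, mem_antidiagonal.1 hi, hw.1, hw.2, rfl⟩

theorem frobProd_weight {N : ℕ → ℕ} {γ : ℕ → Multiset ℂ} (p : Nat.Primes) (hX : XG N p γ)
    (l : List ℕ) (h : Gd l p) (n : ℕ) :
    ∀ z ∈ frobProd γ p l n, ‖z‖ = Real.sqrt (p : ℕ) ^ n := by
  induction l generalizing n with
  | nil => exact hX.weight n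
  | cons d l ih =>
    intro z hz
    have hd : ¬ (p : ℕ) ∣ 2 * d := h d (by simp)
    have hl : Gd l p := fun e he => h e (by simp [he])
    obtain ⟨i, j, x, y, hij, hx, hy, rfl⟩ := mem_kunneth hz
    rw [norm_mul, ih hl i x hx, (frobE_weight p hd j).1 y hy, ← pow_add, hij]

/-- a bound for the dimensions -/
def cd (N : ℕ → ℕ) : List ℕ → ℕ → ℕ
  | [], n => N n
  | _ :: l, n => ∑ i ∈ HasAntidiagonal.antidiagonal n, cd N l i.1 * 2

theorem card_kunneth (β γ : ℕ → Multiset ℂ) (n : ℕ) : Multiset.card (kunneth β γ n) =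
    ∑ i ∈ HasAntidiagonal.antidiagonal n, Multiset.card (β i.1) * Multiset.card (γ i.2) := by
  unfold kunneth
  rw [Multiset.card_sum]
  refine Finset.sum_congr rfl fun i _ => ?_
  rw [Multiset.card_map, Multiset.card_product]

theorem frobProd_card {N : ℕ → ℕ} {γ : ℕ → Multiset ℂ} (p : Nat.Primes) (hX : XG N p γ)
    (l : List ℕ) (h : Gd l p) (n : ℕ) : Multiset.card (frobProd γ p l n) ≤ cd N l n := by
  induction l generalizing n with
  | nil => exact (hX.card n).le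
  | cons d l ih =>
    have hd : ¬ (p : ℕ) ∣ 2 * d := h d (by simp)
    have hl : Gd l p := fun e he => h e (by simp [he])
    rw [frobProd, card_kunneth, cd]
    refine Finset.sum_le_sum fun i _ => ?_
    exact Nat.mul_le_mul (ih hl i.1) (frobE_weight p hd i.2).2

/-- the norm of a sum over a multiset -/
theorem norm_msum (M : Multiset ℂ) (f : ℂ → ℂ) (C : ℝ) (h : ∀ z ∈ M, ‖f z‖ ≤ C) :
    ‖(M.map f).sum‖ ≤ Multiset.card M * C := by
  induction M using Multiset.induction_on with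
  | empty => simp
  | cons a M ih =>
    rw [Multiset.map_cons, Multiset.sum_cons, Multiset.card_cons]
    refine (norm_add_le _ _).trans ?_
    have h1 := h a (Multiset.mem_cons_self a M)
    have h2 := ih fun z hz => h z (Multiset.mem_cons_of_mem hz)
    push_cast
    linarith

/-- the function `p ↦ Re` of the normalised trace on `H^a(X)` at the good primes -/
noncomputable def uu (N : ℕ → ℕ) (β : Nat.Primes → ℕ → Multiset ℂ) (a : ℕ) (p : Nat.Primes) : ℝ :=
  open Classical in if XG N p (β p) then (nt p (β p) a).re else 0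

theorem nt_le {γ : ℕ → Multiset ℂ} (p : Nat.Primes) (M : ℕ) (n : ℕ)
    (h1 : ∀ z ∈ γ n, ‖z‖ = Real.sqrt (p : ℕ) ^ n) (h2 : Multiset.card (γ n) ≤ M) :
    ‖nt p γ n‖ ≤ M := by
  have hp0 : (0 : ℝ) < (p : ℕ) := by exact_mod_cast p.2.pos
  have hs : 0 < Real.sqrt (p : ℕ) ^ n := pow_pos (Real.sqrt_pos.2 hp0) n
  unfold nt
  rw [norm_div, norm_pow, Complex.norm_real, Real.norm_of_nonneg (Real.sqrt_nonneg _),
    div_le_iff₀ hs]
  have h3 := norm_msum (γ n) (fun z => z) (Real.sqrt (p : ℕ) ^ n) (fun z hz => (h1 z hz).le)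
  rw [Multiset.map_id'] at h3
  refine h3.trans ?_
  have : (Multiset.card (γ n) : ℝ) ≤ M := by exact_mod_cast h2
  exact mul_le_mul_of_nonneg_right this hs.le

theorem uu_le (N : ℕ → ℕ) (β : Nat.Primes → ℕ → Multiset ℂ) (a : ℕ) (p : Nat.Primes) :
    |uu N β a p| ≤ N a := by
  unfold uu
  split_ifs with h
  · exact (Complex.abs_re_le_norm _).trans (nt_le p (N a) a (h.weight a) (h.card a).le)
  · simp

theorem uu_even {N : ℕ → ℕ} {β : Nat.Primes → ℕ → Multiset ℂ} {a : ℕ} (ha : Even a)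
    {p : Nat.Primes} (h : XG N p (β p)) : uu N β a p = N a := by
  have hp0 : (0 : ℝ) < (p : ℕ) := by exact_mod_cast p.2.pos
  have hs : ((Real.sqrt (p : ℕ) : ℝ) : ℂ) ^ a ≠ 0 :=
    pow_ne_zero _ (by exact_mod_cast (Real.sqrt_pos.2 hp0).ne')
  unfold uu nt
  rw [if_pos h]
  have h1 : (β p a) = Multiset.replicate (N a) (((Real.sqrt (p : ℕ) : ℝ) : ℂ) ^ a) := by
    rw [Multiset.eq_replicate]
    exact ⟨h.card a, h.even a ha⟩
  rw [h1, Multiset.sum_replicate, nsmul_eq_mul, mul_div_assoc, div_self hs, mul_one]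
  simp

/-- the real part of the normalised trace on `H^n(X × E_{d_1} × ⋯)` -/
noncomputable def phi (N : ℕ → ℕ) (β : Nat.Primes → ℕ → Multiset ℂ) (l : List ℕ) (n : ℕ)
    (p : Nat.Primes) : ℝ :=
  (l.sublists'.map fun A => xA A p *
      ∑ a ∈ range (n + 1), uu N β a p * (VV (l.length - A.length) A.length n a : ℕ)).sum

theorem phi_eq {N : ℕ → ℕ} {β : Nat.Primes → ℕ → Multiset ℂ} (l : List ℕ) (n : ℕ)
    (p : Nat.Primes) (h2 : ¬ (p : ℕ) ∣ 2) (hl : Gd l p) (hX : XG N p (β p)) :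
    (nt p (frobProd (β p) p l) n).re = phi N β l n p := by
  rw [nt_frobProd (β p) p h2 l hl n, phi, ← Complex.reLm_coe, map_list_sum, List.map_map]
  congr 1
  refine List.map_congr_left fun A _ => ?_
  simp only [Function.comp_apply, Complex.reLm_coe]
  rw [Complex.re_ofReal_mul, Complex.re_sum]
  congr 1
  refine Finset.sum_congr rfl fun a _ => ?_
  rw [uu, if_pos hX]
  have : ((VV (l.length - A.length) A.length n a : ℕ) : ℂ) =
    (((VV (l.length - A.length) A.length n a : ℕ) : ℝ) : ℂ) := by push_cast; rfl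
  rw [this, Complex.re_mul_ofReal]

theorem xA_le (A : List ℕ) (p : Nat.Primes) : |xA A p| ≤ 2 ^ A.length := by
  unfold xA
  rw [abs_mul, abs_pow]
  calc |XX ((A.prod : ℕ) : ℤ) p| * |bp p| ^ A.length ≤ 1 * 2 ^ A.length :=
        mul_le_mul (XX_abs_le _ _) (pow_le_pow_left₀ (abs_nonneg _) (bp_le p) _) (by positivity)
          zero_le_one
    _ = _ := one_mul _

theorem list_sum_le {ι : Type*} (L : List ι) (f g : ι → ℝ) (h : ∀ A ∈ L, |f A| ≤ g A) :
    |(L.map f).sum| ≤ (L.map g).sum := by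
  induction L with
  | nil => simp
  | cons a L ih =>
    rw [List.map_cons, List.map_cons, List.sum_cons, List.sum_cons]
    exact (abs_add_le _ _).trans (add_le_add (h a (by simp)) (ih fun A hA => h A (by simp [hA])))

/-- a bound for `phi` -/
theorem phi_le (N : ℕ → ℕ) (l : List ℕ) (n : ℕ) :
    ∃ C : ℝ, ∀ (β : Nat.Primes → ℕ → Multiset ℂ) (p : Nat.Primes), |phi N β l n p| ≤ C := by
  refine ⟨(l.sublists'.map fun A => 2 ^ A.length *
      ∑ a ∈ range (n + 1), (N a : ℝ) * (VV (l.length - A.length) A.length n a : ℕ)).sum, ?_⟩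
  intro β p
  refine list_sum_le _ _ _ fun A _ => ?_
  rw [abs_mul]
  refine mul_le_mul (xA_le A p) ?_ (abs_nonneg _) (by positivity)
  refine (Finset.abs_sum_le_sum_abs _ _).trans (Finset.sum_le_sum fun a _ => ?_)
  rw [abs_mul, Nat.abs_cast]
  exact mul_le_mul_of_nonneg_right (uu_le N β a p) (by positivity)

theorem E_fin {φ : Nat.Primes → ℝ} {B : ℝ} (hφ : ∀ p, |φ p| ≤ B)
    (h : {p | φ p ≠ 0}.Finite) {ε : ℝ} (hε : 0 < ε) : |E ε φ| ≤ h.toFinset.card * B := by
  have e : E ε φ = ∑ p ∈ h.toFinset, φ p * (p : ℝ) ^ (-(1 + ε)) := by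
    rw [E]
    refine tsum_eq_sum fun p hp => ?_
    have : φ p = 0 := by
      by_contra h0
      exact hp (h.mem_toFinset.2 h0)
    rw [this, zero_mul]
  rw [e]
  refine (Finset.abs_sum_le_sum_abs _ _).trans ?_
  rw [← nsmul_eq_mul]
  refine Finset.sum_le_card_nsmul _ _ _ fun p _ => ?_
  have hp1 : (1 : ℝ) ≤ p := by exact_mod_cast p.2.one_lt.le
  have h2 : (p : ℝ) ^ (-(1 + ε)) ≤ 1 := Real.rpow_le_one_of_one_le_of_nonpos hp1 (by linarith)
  rw [abs_mul, abs_of_nonneg (w_nonneg ε p)]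
  calc |φ p| * (p : ℝ) ^ (-(1 + ε)) ≤ |φ p| * 1 :=
        mul_le_mul_of_nonneg_left h2 (abs_nonneg _)
    _ ≤ B := by rw [mul_one]; exact hφ p

theorem ev_two : ∀ᶠ p : Nat.Primes in cofinite, ¬ (p : ℕ) ∣ 2 := by
  rw [eventually_cofinite]
  simpa using fin_dvd (N := 2) (by norm_num)

theorem ev_Gd {l : List ℕ} (hl : ∀ d ∈ l, 0 < d) : ∀ᶠ p : Nat.Primes in cofinite, Gd l p := by
  have h1 : ∀ d ∈ l.toFinset, ∀ᶠ p : Nat.Primes in cofinite, ¬ (p : ℕ) ∣ 2 * d := by
    intro d hd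
    rw [eventually_cofinite]
    simpa using fin_dvd (N := 2 * d) (by have := hl d (List.mem_toFinset.1 hd); omega)
  have h2 := (Filter.eventually_all_finset l.toFinset).2 h1
  filter_upwards [h2] with p h3 d hd
  exact h3 d (List.mem_toFinset.2 hd)

/-- the logarithm of a local factor -/
theorem local_log (M : Multiset ℂ) (x : ℂ) (δ : ℝ) (h : ∀ α ∈ M, ‖α * x‖ ≤ δ) (hδ : δ ≤ 1 / 2) :
    Complex.exp ((M.map fun α => -Complex.log (1 - α * x)).sum) =
      ((M.map fun α => 1 - α * x).prod)⁻¹ ∧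
    ‖(M.map fun α => -Complex.log (1 - α * x)).sum - M.sum * x‖ ≤ Multiset.card M * δ ^ 2 := by
  constructor
  · rw [Complex.exp_multiset_sum, Multiset.map_map, ← Multiset.prod_map_inv']
    rw [Multiset.map_map]
    congr 1
    refine Multiset.map_congr rfl fun α hα => ?_
    simp only [Function.comp_apply]
    have hne : 1 - α * x ≠ 0 := by
      intro h0
      have h3 := (h α hα).trans hδ
      have h4 : α * x = 1 := (sub_eq_zero.1 h0).symm
      rw [h4, norm_one] at h3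
      norm_num at h3
    rw [Complex.exp_neg, Complex.exp_log hne]
  · have e : (M.map fun α => -Complex.log (1 - α * x)).sum - M.sum * x =
        (M.map fun α => -Complex.log (1 - α * x) - α * x).sum := by
      rw [Multiset.sum_map_sub, Multiset.sum_map_mul_right, Multiset.map_id']
    rw [e]
    refine norm_msum M _ _ fun α hα => ?_
    have h1 := h α hα
    refine (norm_neg_log_sub_le (h1.trans hδ)).trans ?_
    exact pow_le_pow_left₀ (norm_nonneg _) h1 2

/-- the size lemma -/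
theorem log_LFun {N : ℕ → ℕ} {β : Nat.Primes → ℕ → Multiset ℂ}
    (hX : ∀ᶠ p : Nat.Primes in cofinite, XG N p (β p)) {l : List ℕ} (hl : ∀ d ∈ l, 0 < d) {m : ℕ}
    {B : Nat.Primes → ℂ[X]} (hB : IsEuler β l m B) :
    ∃ C : ℝ, ∀ᶠ ε : ℝ in 𝓝[>] 0,
      |Real.log ‖LFun B ((m : ℂ) + 1 + ε)‖ - E ε (phi N β l (2 * m))| ≤ C := by
  classical
  set Good : Nat.Primes → Prop := fun p => XG N p (β p) ∧ ¬ (p : ℕ) ∣ 2 ∧ Gd l p ∧ ∀ z : ℂ,
    (B p).eval z = ((frobProd (β p) p l (2 * m)).map fun α => 1 - α * z).prod with hGood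
  have hev : ∀ᶠ p : Nat.Primes in cofinite, Good p := by
    filter_upwards [hX, ev_two, ev_Gd hl, hB.1] with p h1 h2 h3 h4
    exact ⟨h1, h2, h3, h4⟩
  have hfin : {p | ¬ Good p}.Finite := eventually_cofinite.1 hev
  obtain ⟨Cφ, hCφ⟩ := phi_le N l (2 * m)
  set M : ℕ := cd N l (2 * m) with hM
  -- the bad factors
  have hbad : ∃ C : ℝ, ∀ᶠ ε : ℝ in 𝓝[>] 0, (∀ p ∈ hfin.toFinset,
      ((B p).eval (((p : ℕ) : ℂ) ^ (-((m : ℂ) + 1 + ε)))) ≠ 0) ∧
      |∑ p ∈ hfin.toFinset,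
        Real.log ‖((B p).eval (((p : ℕ) : ℂ) ^ (-((m : ℂ) + 1 + ε))))⁻¹‖| ≤ C := by
    have hcont : ∀ p : Nat.Primes, Tendsto (fun ε : ℝ =>
        (B p).eval (((p : ℕ) : ℂ) ^ (-((m : ℂ) + 1 + ε)))) (𝓝[>] 0)
        (𝓝 ((B p).eval (((p : ℕ) : ℂ) ^ (-((m : ℂ) + 1))))) := by
      intro p
      have hpc : ((p : ℕ) : ℂ) ≠ 0 := by exact_mod_cast p.2.ne_zero
      have h1 : Continuous fun ε : ℝ => (B p).eval (((p : ℕ) : ℂ) ^ (-((m : ℂ) + 1 + ε))) := by
        refine (B p).continuous.comp ?_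
        refine Continuous.const_cpow (by fun_prop) (Or.inl hpc)
      have h2 := h1.tendsto 0
      simp only [Complex.ofReal_zero, add_zero] at h2
      exact h2.mono_left nhdsWithin_le_nhds
    have h1 : ∀ᶠ ε : ℝ in 𝓝[>] 0, ∀ p ∈ hfin.toFinset,
        ((B p).eval (((p : ℕ) : ℂ) ^ (-((m : ℂ) + 1 + ε)))) ≠ 0 := by
      rw [Filter.eventually_all_finset]
      intro p _
      exact (hcont p).eventually_ne (hB.2 p)
    have h2 : Tendsto (fun ε : ℝ => |∑ p ∈ hfin.toFinset,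
        Real.log ‖((B p).eval (((p : ℕ) : ℂ) ^ (-((m : ℂ) + 1 + ε))))⁻¹‖|) (𝓝[>] 0)
        (𝓝 (|∑ p ∈ hfin.toFinset,
        Real.log ‖((B p).eval (((p : ℕ) : ℂ) ^ (-((m : ℂ) + 1))))⁻¹‖|)) := by
      refine (tendsto_finsetSum _ fun p _ => ?_).abs
      refine (((hcont p).inv₀ (hB.2 p)).norm).log ?_
      exact norm_ne_zero_iff.2 (inv_ne_zero (hB.2 p))
    obtain ⟨C, hC⟩ := h2.isBoundedUnder_le
    exact ⟨C, h1.and (Filter.eventually_map.1 hC)⟩
  obtain ⟨Cb, hCb⟩ := hbad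
  -- the traces
  set aa : Nat.Primes → ℂ := fun p => if Good p then nt p (frobProd (β p) p l) (2 * m) else 0
    with haa
  have hMb : ∀ p, Good p → ‖nt p (frobProd (β p) p l) (2 * m)‖ ≤ M := fun p hp =>
    nt_le p M (2 * m) (frobProd_weight p hp.1 l hp.2.2.1 (2 * m))
      (frobProd_card p hp.1 l hp.2.2.1 (2 * m))
  have haab : ∀ p, ‖aa p‖ ≤ M := by
    intro p
    rw [haa]
    simp only
    split_ifs with h
    · exact hMb p h
    · simp
  have hd : {p | (phi N β l (2 * m) p - (aa p).re) ≠ 0}.Finite := by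
    refine hfin.subset ?_
    intro p hp
    by_contra h
    apply hp
    have h' : Good p := not_not.1 h
    rw [haa]
    simp only
    rw [if_pos h', phi_eq l (2 * m) p h'.2.1 h'.2.2.1 h'.1, sub_self]
  have hdb : ∀ p, |phi N β l (2 * m) p - (aa p).re| ≤ Cφ + M := fun p =>
    (abs_sub _ _).trans (add_le_add (hCφ β p) ((Complex.abs_re_le_norm _).trans (haab p)))
  have haab' : ∀ p, |(aa p).re| ≤ M := fun p => (Complex.abs_re_le_norm _).trans (haab p)
  refine ⟨Cb + |(M : ℝ)| * K2 + hd.toFinset.card * (Cφ + M), ?_⟩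
  filter_upwards [hCb, self_mem_nhdsWithin] with ε hb hε'
  have hε : (0 : ℝ) < ε := hε'
  set s : ℂ := (m : ℂ) + 1 + ε with hs
  have hsre : s.re = m + 1 + ε := by
    rw [hs]; simp
  set G : Nat.Primes → ℂ := fun p =>
    ((frobProd (β p) p l (2 * m)).map fun α => -Complex.log (1 - α * ((p : ℕ) : ℂ) ^ (-s))).sum
    with hG
  have hloc : ∀ p, Good p → cexp (G p) = ((B p).eval (((p : ℕ) : ℂ) ^ (-s)))⁻¹ ∧
      ‖G p - aa p * ((p : ℝ) ^ (-(1 + ε)) : ℝ)‖ ≤ M * (p : ℝ) ^ (-2 : ℝ) := by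
    intro p hp
    have hp0 : (0 : ℝ) < (p : ℕ) := by exact_mod_cast p.2.pos
    have hp1 : (1 : ℝ) ≤ (p : ℕ) := by exact_mod_cast p.2.one_lt.le
    have hpc : ((p : ℕ) : ℂ) ≠ 0 := by exact_mod_cast p.2.ne_zero
    have hw := frobProd_weight p hp.1 l hp.2.2.1 (2 * m)
    have hx : ‖((p : ℕ) : ℂ) ^ (-s)‖ = ((p : ℕ) : ℝ) ^ (-(m : ℝ)) * ((p : ℕ) : ℝ) ^ (-(1 + ε)) := by
      rw [Complex.norm_natCast_cpow_of_pos p.2.pos, Complex.neg_re, hsre, ← Real.rpow_add hp0]
      congr 1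
      ring
    have hsq : Real.sqrt (p : ℕ) ^ (2 * m) = ((p : ℕ) : ℝ) ^ (m : ℝ) := by
      rw [pow_mul, Real.sq_sqrt hp0.le, Real.rpow_natCast]
    have hδ : ∀ α ∈ frobProd (β p) p l (2 * m), ‖α * ((p : ℕ) : ℂ) ^ (-s)‖ ≤
        ((p : ℕ) : ℝ) ^ (-(1 + ε)) := by
      intro α hα
      rw [norm_mul, hw α hα, hx, hsq, ← mul_assoc, ← Real.rpow_add hp0, add_neg_cancel,
        Real.rpow_zero, one_mul]
    obtain ⟨h1, h2⟩ := local_log (frobProd (β p) p l (2 * m)) (((p : ℕ) : ℂ) ^ (-s)) _ hδ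
      (prime_rpow_le_two (by linarith))
    refine ⟨?_, ?_⟩
    · rw [hG]
      simp only
      rw [h1, hp.2.2.2]
    · have h3 : aa p * ((p : ℝ) ^ (-(1 + ε)) : ℝ) =
          (frobProd (β p) p l (2 * m)).sum * ((p : ℕ) : ℂ) ^ (-s) := by
        rw [haa]
        simp only
        rw [if_pos hp, nt, ← Complex.ofReal_pow, hsq, div_mul_eq_mul_div, div_eq_iff]
        · rw [mul_assoc, Complex.ofReal_cpow hp0.le, Complex.ofReal_cpow hp0.le]
          push_cast
          congr 1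
          rw [← Complex.cpow_add _ _ hpc]
          congr 1
          rw [hs]; ring
        · rw [Complex.ofReal_ne_zero]
          exact (Real.rpow_pos_of_pos hp0 _).ne'
      rw [h3]
      refine h2.trans ?_
      have h4 : (((p : ℕ) : ℝ) ^ (-(1 + ε))) ^ 2 ≤ ((p : ℕ) : ℝ) ^ (-2 : ℝ) := by
        rw [← Real.rpow_natCast, ← Real.rpow_mul hp0.le]
        refine Real.rpow_le_rpow_of_exponent_le hp1 ?_
        push_cast
        linarith
      have h5 : (Multiset.card (frobProd (β p) p l (2 * m)) : ℝ) ≤ M := by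
        exact_mod_cast frobProd_card p hp.1 l hp.2.2.1 (2 * m)
      exact mul_le_mul h5 h4 (by positivity) (by positivity)
  obtain ⟨hsum, hbd⟩ := summable_and_bound (Good := Good) hε G aa (C := M) (K := M) haab
    (fun p hp => by rw [haa]; simp only; rw [if_neg hp]) (fun p hp => (hloc p hp).2)
  have hprod := tprod_split hfin G (fun p => ((B p).eval (((p : ℕ) : ℂ) ^ (-s)))⁻¹) hsum
  have hL : LFun B s = (∏ p ∈ hfin.toFinset, ((B p).eval (((p : ℕ) : ℂ) ^ (-s)))⁻¹) *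
      cexp (∑' p, if Good p then G p else 0) := by
    rw [← hprod, LFun]
    refine tprod_congr fun p => ?_
    split_ifs with h
    · rw [(hloc p h).1]
    · rfl
  have hlog : Real.log ‖LFun B s‖ = ∑ p ∈ hfin.toFinset,
        Real.log ‖((B p).eval (((p : ℕ) : ℂ) ^ (-s)))⁻¹‖ +
        (∑' p, if Good p then G p else 0).re := by
    rw [hL, norm_mul, Complex.norm_exp, Real.log_mul, Real.log_exp, norm_prod, Real.log_prod]
    · intro p hp
      exact norm_ne_zero_iff.2 (inv_ne_zero (hb.1 p hp))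
    · rw [norm_prod]
      exact Finset.prod_ne_zero_iff.2 fun p hp => norm_ne_zero_iff.2 (inv_ne_zero (hb.1 p hp))
    · exact (Real.exp_pos _).ne'
  have hsplit : E ε (phi N β l (2 * m)) = E ε (fun p => (aa p).re) +
      E ε (fun p => phi N β l (2 * m) p - (aa p).re) := by
    rw [← E_add hε haab' hdb]
    congr 1
    funext p
    ring
  have h6 := E_fin hdb hd hε
  rw [hlog, hsplit]
  have h7 := hb.2
  rw [abs_le] at *
  constructor <;> linarith [hbd.1, hbd.2, h6.1, h6.2, h7.1, h7.2]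

end Pool.Agent.Y149.CM
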